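import Mathlib
import Pool.Agent.Y327.KN.Q1
import Pool.Agent.Y210.KN.Ratl

/-!
# The number of the classes of minimal spaces and the conjugacy classes of cyclic subgroups
-/

namespace Pool.Agent.Q29.TD

open Finset Module Pool.Agent.TH170.MF Pool.Agent.TH170.QC Pool.Agent.TH170.QE Pool.Agent.Y1.KN
  Pool.Agent.Y327.KN

section

variable {G X : Type} [Group G] [Fintype G] [MulAction G X] [Fintype X]

theorem chi_conj {S : Submodule ℚ (X → ℚ)} (hS : Invariant G S) (g x : G) :
    chi S (g * x * g⁻¹) = chi S x := by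
  have h1 : (proj S ∘ₗ tr (g * x * g⁻¹) : (X → ℚ) →ₗ[ℚ] (X → ℚ)) =
      (tr g⁻¹ : (X → ℚ) →ₗ[ℚ] (X → ℚ)) ∘ₗ ((proj S ∘ₗ tr x) ∘ₗ tr g) := by
    refine LinearMap.ext fun u => ?_
    simp only [LinearMap.comp_apply]
    rw [← proj_tr hS, tr_tr, tr_tr, mul_assoc]
  unfold chi
  rw [h1, LinearMap.trace_comp_comm']
  congr 1
  refine LinearMap.ext fun u => ?_
  simp only [LinearMap.comp_apply]
  rw [tr_tr_inv]

/-- The character of a space is the same at elements that generate the same group. -/
theorem chi_zpowers {S : Submodule ℚ (X → ℚ)} (hS : Invariant G S) {x y : G}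
    (h : Subgroup.zpowers x = Subgroup.zpowers y) : chi S x = chi S y := by
  classical
  have hx : x ∈ Subgroup.zpowers y := by
    rw [← h]
    exact Subgroup.mem_zpowers x
  obtain ⟨k, hk, hkx⟩ := (isOfFinOrder_of_finite y).mem_zpowers_iff_mem_range_orderOf.1 hx |>
    Finset.mem_image.1
  change y ^ k = x at hkx
  have hord : orderOf x = orderOf y := by
    rw [← Nat.card_zpowers, ← Nat.card_zpowers, h]
  have hcop : k.Coprime (orderOf y) := by
    have h6 := orderOf_pow (x := y) (n := k)
    rw [hkx, hord] at h6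
    have hpos := orderOf_pos y
    have h7 : orderOf y / Nat.gcd (orderOf y) k = orderOf y := h6.symm
    have h8 := Nat.div_eq_self.1 h7
    rcases h8 with h8 | h8
    · omega
    · rw [Nat.coprime_comm]
      exact h8
  rw [← hkx]
  exact chi_pow Pool.Agent.Y210.KN.ratl hS y k hcop

/-- The number of the classes of minimal spaces is at most the number of the conjugacy classes of
cyclic subgroups. -/
theorem card_classes_le {c : X → X} {ι : Type} [Fintype ι] (S : ι → Submodule ℚ (X → ℚ))
    (hS : ∀ i, S i ∈ MinInv G c)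
    (hK : ∀ i j, i ≠ j → killers G (S i : Set (X → ℚ)) ≠ killers G (S j : Set (X → ℚ)))
    {n : ℕ} (q : G → Fin n)
    (hq : ∀ x y : G, q x = q y → ∃ g : G, Subgroup.zpowers (g * x * g⁻¹) = Subgroup.zpowers y) :
    Fintype.card ι ≤ n := by
  classical
  have hval : ∀ (i : ι) (x y : G), q x = q y → chi (S i) x = chi (S i) y := by
    intro i x y h
    obtain ⟨g, hg⟩ := hq x y h
    rw [← chi_conj (hS i).2.1 g x]
    exact chi_zpowers (hS i).2.1 hg
  have hrep : ∀ m : Fin n, ∃ g : G, ∀ x : G, q x = m → q g = m := by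
    intro m
    by_cases h : ∃ g, q g = m
    · obtain ⟨g, hg⟩ := h
      exact ⟨g, fun _ _ => hg⟩
    · exact ⟨1, fun x hx => absurd ⟨x, hx⟩ h⟩
  choose rep hrep using hrep
  have hlin : LinearIndependent ℚ (fun (i : ι) (m : Fin n) => chi (S i) (rep m)) := by
    rw [Fintype.linearIndependent_iff]
    intro l hl i
    have hf0 : ∀ x : G, ∑ j, l j * chi (S j) x = 0 := by
      intro x
      have h5 := congrFun hl (q x)
      rw [Finset.sum_apply] at h5
      have h6 : ∀ j, chi (S j) x = chi (S j) (rep (q x)) := fun j =>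
        hval j x _ (hrep (q x) x rfl).symm
      calc ∑ j, l j * chi (S j) x = ∑ j, l j * chi (S j) (rep (q x)) :=
            sum_congr rfl fun j _ => by rw [h6 j]
        _ = 0 := by simpa using h5
    have h6 : ∑ γ : G, (∑ j, l j * chi (S j) γ) * chi (S i) γ =
        l i * ∑ γ : G, chi (S i) γ * chi (S i) γ := by
      calc ∑ γ : G, (∑ j, l j * chi (S j) γ) * chi (S i) γ
          = ∑ γ : G, ∑ j, l j * (chi (S j) γ * chi (S i) γ) := by
            refine sum_congr rfl fun γ _ => ?_
            rw [sum_mul]
            exact sum_congr rfl fun j _ => by ring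
        _ = ∑ j, l j * ∑ γ : G, chi (S j) γ * chi (S i) γ := by
            rw [sum_comm]
            exact sum_congr rfl fun j _ => (mul_sum _ _ _).symm
        _ = l i * ∑ γ : G, chi (S i) γ * chi (S i) γ := by
            rw [Finset.sum_eq_single i]
            · intro j _ hj
              rw [chi_orth (hS j) (hS i) (hK j i hj), mul_zero]
            · intro h
              exact absurd (mem_univ _) h
    rw [sum_eq_zero fun γ _ => by rw [hf0 γ, zero_mul]] at h6
    exact (mul_eq_zero.1 h6.symm).resolve_right (chi_sq_pos (hS i)).ne'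
  have h := hlin.fintype_card_le_finrank
  rwa [Module.finrank_fintype_fun_eq_card, Fintype.card_fin] at h

end

end Pool.Agent.Q29.TD
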