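import Mathlib

/-!
# The number of the subgroups between two subgroups
-/

namespace Pool.Agent.Q29.TD

open Finset

variable {G : Type*} [Group G] [Finite G]

theorem ncard_between_aux (C : Subgroup G) (k : ℕ) : ∀ V : Subgroup G, V ≤ C →
    V.relIndex C < 2 ^ (k + 1) → {A : Subgroup G | V ≤ A ∧ A ≤ C}.ncard ≤ V.relIndex C ^ k := by
  classical
  induction k with
  | zero =>
    intro V hV h
    have h0 : V.relIndex C ≠ 0 := Subgroup.index_ne_zero_of_finite
    have h1 : V.relIndex C = 1 := by omega
    have h2 : C ≤ V := Subgroup.relIndex_eq_one.1 h1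
    have h3 : {A : Subgroup G | V ≤ A ∧ A ≤ C} ⊆ {V} := by
      rintro A ⟨hA1, hA2⟩
      exact le_antisymm (hA2.trans h2) hA1
    calc {A : Subgroup G | V ≤ A ∧ A ≤ C}.ncard ≤ ({V} : Set (Subgroup G)).ncard :=
          Set.ncard_le_ncard h3 (Set.finite_singleton V)
      _ = _ := by rw [Set.ncard_singleton, pow_zero]
  | succ k ih =>
    intro V hV h
    have h0 : V.relIndex C ≠ 0 := Subgroup.index_ne_zero_of_finite
    set b := V.relIndex C with hb
    have hb1 : 1 ≤ b := Nat.one_le_iff_ne_zero.2 h0
    let Q := C ⧸ V.subgroupOf C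
    have : Fintype Q := Fintype.ofFinite Q
    have hQ : Fintype.card Q = b := by
      rw [← Nat.card_eq_fintype_card]
      rfl
    let T : Q → Set (Subgroup G) := fun q => if (q.out : G) ∈ V then {V} else
      {A : Subgroup G | V ⊔ Subgroup.zpowers (q.out : G) ≤ A ∧ A ≤ C}
    have hT : ∀ q : Q, (T q).ncard ≤ b ^ k := by
      intro q
      by_cases hq : (q.out : G) ∈ V
      · simp only [T, if_pos hq, Set.ncard_singleton]
        exact Nat.one_le_pow _ _ hb1
      · simp only [T, if_neg hq]
        have hVC : V ⊔ Subgroup.zpowers (q.out : G) ≤ C :=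
          sup_le hV (by rw [Subgroup.zpowers_le]; exact q.out.2)
        have h1 := Subgroup.relIndex_mul_relIndex V (V ⊔ Subgroup.zpowers (q.out : G)) C
          le_sup_left hVC
        rw [← hb] at h1
        have h2 : V.relIndex (V ⊔ Subgroup.zpowers (q.out : G)) ≠ 1 := by
          intro h3
          rw [Subgroup.relIndex_eq_one] at h3
          exact hq (h3 ((le_sup_right : _ ≤ V ⊔ Subgroup.zpowers (q.out : G))
            (Subgroup.mem_zpowers _)))
        have h3 : V.relIndex (V ⊔ Subgroup.zpowers (q.out : G)) ≠ 0 :=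
          Subgroup.index_ne_zero_of_finite
        have h4 : 2 ≤ V.relIndex (V ⊔ Subgroup.zpowers (q.out : G)) := by omega
        have h5 : 2 * (V ⊔ Subgroup.zpowers (q.out : G)).relIndex C ≤ b := by
          rw [← h1]
          exact Nat.mul_le_mul_right _ h4
        have h6 := ih (V ⊔ Subgroup.zpowers (q.out : G)) hVC (by
          rw [pow_succ] at h
          omega)
        refine h6.trans (Nat.pow_le_pow_left ?_ k)
        omega
    have hsub : {A : Subgroup G | V ≤ A ∧ A ≤ C} ⊆ ⋃ q ∈ (univ : Finset Q), T q := by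
      rintro A ⟨hA1, hA2⟩
      by_cases hAV : A ≤ V
      · refine Set.mem_biUnion (x := ((1 : C) : Q)) (by simp) ?_
        have h1 : ((((1 : C) : Q).out : C) : G) ∈ V := by
          have h2 : ((((1 : C) : Q).out : C) : Q) = ((1 : C) : Q) := Quotient.out_eq' _
          rw [QuotientGroup.eq, mul_one, Subgroup.mem_subgroupOf] at h2
          simpa using h2
        change A ∈ T _
        simp only [T, if_pos h1]
        exact le_antisymm hAV hA1
      · obtain ⟨x, hxA, hxV⟩ := SetLike.not_le_iff_exists.1 hAV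
        refine Set.mem_biUnion (x := ((⟨x, hA2 hxA⟩ : C) : Q)) (by simp) ?_
        have h2 : ((((⟨x, hA2 hxA⟩ : C) : Q).out : C) : Q) = ((⟨x, hA2 hxA⟩ : C) : Q) :=
          Quotient.out_eq' _
        rw [QuotientGroup.eq, Subgroup.mem_subgroupOf] at h2
        set y : G := ((((⟨x, hA2 hxA⟩ : C) : Q).out : C) : G) with hy
        have h3 : y⁻¹ * x ∈ V := h2
        have h4 : y ∉ V := fun h => hxV (by
          have := V.mul_mem h h3
          simpa using this)
        have h5 : y ∈ A := by
          have h6 := A.mul_mem hxA (A.inv_mem (hA1 h3))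
          simpa using h6
        change A ∈ T _
        simp only [T]
        rw [if_neg (by exact h4)]
        exact ⟨sup_le hA1 (by rw [Subgroup.zpowers_le]; exact h5), hA2⟩
    calc {A : Subgroup G | V ≤ A ∧ A ≤ C}.ncard ≤ (⋃ q ∈ (univ : Finset Q), T q).ncard :=
          Set.ncard_le_ncard hsub (Set.toFinite _)
      _ ≤ ∑ q ∈ (univ : Finset Q), (T q).ncard := Finset.set_ncard_biUnion_le _ _
      _ ≤ ∑ q ∈ (univ : Finset Q), b ^ k := sum_le_sum fun q _ => hT q
      _ = b ^ (k + 1) := by
        rw [sum_const, card_univ, hQ, smul_eq_mul, pow_succ, mul_comm]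

/-- There are at most `b ^ k` subgroups between two subgroups, if the index is at most `b` and
less than `2 ^ (k + 1)`. -/
theorem ncard_between_le {V C : Subgroup G} (hVC : V ≤ C) {b k : ℕ} (hb : V.relIndex C ≤ b)
    (hk : b < 2 ^ (k + 1)) : {A : Subgroup G | V ≤ A ∧ A ≤ C}.ncard ≤ b ^ k :=
  (ncard_between_aux C k V hVC (hb.trans_lt hk)).trans (Nat.pow_le_pow_left hb k)

end Pool.Agent.Q29.TD
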