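import Mathlib

/-!
# Normal subgroups and a subgroup whose index is nearly squarefree
-/

namespace Pool.Agent.Q29.TD

open Finset

variable {G : Type*} [Group G]

/-- The number of the cosets of `B` in `A B`. -/
theorem relIndex_of_mul {A B C : Subgroup G} (hAC : A ≤ C)
    (h : ∀ c ∈ C, ∃ a ∈ A, ∃ b ∈ B, c = a * b) : B.relIndex A = B.relIndex C := by
  classical
  have key : ∀ D : Subgroup G, B.relIndex D = (MulAction.orbit D ((1 : G) : G ⧸ B)).ncard := by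
    intro D
    rw [← MulAction.index_stabilizer]
    unfold Subgroup.relIndex
    congr 1
    ext x
    rw [Subgroup.mem_subgroupOf, MulAction.mem_stabilizer_iff]
    change (x : G) ∈ B ↔ (((x : G) * 1 : G) : G ⧸ B) = ((1 : G) : G ⧸ B)
    rw [mul_one, QuotientGroup.eq, mul_one, inv_mem_iff]
  rw [key, key]
  congr 1
  ext y
  constructor
  · rintro ⟨a, rfl⟩
    exact ⟨⟨a, hAC a.2⟩, rfl⟩
  · rintro ⟨c, rfl⟩
    obtain ⟨a, ha, b, hb, hc⟩ := h c c.2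
    refine ⟨⟨a, ha⟩, ?_⟩
    change ((a * 1 : G) : G ⧸ B) = (((c : G) * 1 : G) : G ⧸ B)
    rw [hc, mul_one, mul_one, QuotientGroup.eq]
    simpa using hb

/-- The indices of two subgroups whose product is a group. -/
theorem relIndex_mul_dvd {H A B C : Subgroup G} (hHA : H ≤ A) (hHB : H ≤ B) (hAC : A ≤ C)
    (h : ∀ c ∈ C, ∃ a ∈ A, ∃ b ∈ B, c = a * b) :
    A.relIndex C * B.relIndex C ∣ H.relIndex C := by
  have h1 : (A ⊓ B).relIndex A = B.relIndex A := Subgroup.inf_relIndex_left A B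
  have h2 : (A ⊓ B).relIndex A * A.relIndex C = (A ⊓ B).relIndex C :=
    Subgroup.relIndex_mul_relIndex _ _ _ inf_le_left hAC
  have h3 : H.relIndex (A ⊓ B) * (A ⊓ B).relIndex C = H.relIndex C :=
    Subgroup.relIndex_mul_relIndex _ _ _ (le_inf hHA hHB) (inf_le_left.trans hAC)
  rw [← h3, ← h2, h1, relIndex_of_mul hAC h, mul_comm (A.relIndex C)]
  exact Dvd.intro_left _ rfl

/-- The index of `H N₁ N₂`. -/
theorem index_sup_dvd (H N₁ N₂ : Subgroup G) [N₁.Normal] [N₂.Normal] :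
    (H ⊔ N₁).relIndex (H ⊔ (N₁ ⊔ N₂)) * (H ⊔ N₂).relIndex (H ⊔ (N₁ ⊔ N₂)) *
      (H ⊔ (N₁ ⊔ N₂)).index ∣ H.index := by
  have h1 : H ≤ H ⊔ (N₁ ⊔ N₂) := le_sup_left
  rw [← Subgroup.relIndex_mul_index h1]
  refine mul_dvd_mul_right ?_ _
  refine relIndex_mul_dvd le_sup_left le_sup_left
    (sup_le le_sup_left (le_sup_left.trans le_sup_right)) ?_
  intro c hc
  rw [← sup_assoc, Subgroup.mem_sup_of_normal_right] at hc
  obtain ⟨a, ha, b, hb, rfl⟩ := hc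
  exact ⟨a, ha, b, (le_sup_right : N₂ ≤ H ⊔ N₂) hb, rfl⟩

/-- A prime number that divides the index of `H` only once, and the indices of `H N₁`, `H N₂`,
divides the index of `H N₁ N₂`. -/
theorem prime_dvd_index_sup (H N₁ N₂ : Subgroup G) [N₁.Normal] [N₂.Normal] {p : ℕ}
    (hp : p.Prime) (hpp : ¬ p * p ∣ H.index) (h1 : p ∣ (H ⊔ N₁).index)
    (h2 : p ∣ (H ⊔ N₂).index) : p ∣ (H ⊔ (N₁ ⊔ N₂)).index := by
  have h3 := index_sup_dvd H N₁ N₂
  have e1 : (H ⊔ N₁).relIndex (H ⊔ (N₁ ⊔ N₂)) * (H ⊔ (N₁ ⊔ N₂)).index = (H ⊔ N₁).index :=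
    Subgroup.relIndex_mul_index (sup_le_sup_left le_sup_left H)
  have e2 : (H ⊔ N₂).relIndex (H ⊔ (N₁ ⊔ N₂)) * (H ⊔ (N₁ ⊔ N₂)).index = (H ⊔ N₂).index :=
    Subgroup.relIndex_mul_index (sup_le_sup_left le_sup_right H)
  by_contra hcon
  rw [← e1, hp.dvd_mul] at h1
  rw [← e2, hp.dvd_mul] at h2
  exact hpp ((mul_dvd_mul (h1.resolve_right hcon) (h2.resolve_right hcon)).trans
    ((Dvd.intro _ rfl).trans h3))

end Pool.Agent.Q29.TD
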