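import Mathlib
import Pool.Agent.Q29.TD.Normal
import Pool.Agent.Q29.TD.Between

/-!
# Normal subgroups that are determined by their products with a subgroup, and Sylow subgroups
-/

set_option linter.unusedSectionVars false

namespace Pool.Agent.Q29.TD

open Finset

variable {G : Type*} [Group G]

/-- The normal subgroups `K` that contain all normal subgroups in `H K`. -/
def closedNormal (H : Subgroup G) : Set (Subgroup G) :=
  {K | K.Normal ∧ ∀ N : Subgroup G, N.Normal → N ≤ H ⊔ K → N ≤ K}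

theorem closedNormal_inj {H K K' : Subgroup G} (hK : K ∈ closedNormal H)
    (hK' : K' ∈ closedNormal H) (h : H ⊔ K = H ⊔ K') : K = K' :=
  le_antisymm (hK'.2 K hK.1 (h ▸ le_sup_right)) (hK.2 K' hK'.1 (h ▸ le_sup_right))

theorem relIndex_sup_of_normal (H K : Subgroup G) [K.Normal] :
    H.relIndex (H ⊔ K) = H.relIndex K := by
  refine (relIndex_of_mul (le_sup_right : K ≤ H ⊔ K) ?_).symm
  intro c hc
  rw [sup_comm, Subgroup.mem_sup_of_normal_left] at hc
  obtain ⟨a, ha, b, hb, rfl⟩ := hc
  exact ⟨a, ha, b, hb, rfl⟩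

variable [Finite G]

/-- If the Sylow subgroup `P` meets `H` in a Sylow subgroup of `H`, it meets `H K` in a Sylow
subgroup of `H K`. -/
theorem not_dvd_relIndex_sup {p : ℕ} [hp : Fact p.Prime] (P : Sylow p G) (H K : Subgroup G)
    [K.Normal] (hH : ¬ p ∣ (P : Subgroup G).relIndex H) :
    ¬ p ∣ (P : Subgroup G).relIndex (H ⊔ K) := by
  intro hx
  set Q : Subgroup G := (P : Subgroup G) with hQ
  have hQi : ¬ p ∣ Q.index := P.not_dvd_index
  have hK : ¬ p ∣ Q.relIndex K := by
    rw [← relIndex_sup_of_normal Q K]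
    exact fun h => hQi (h.trans (Subgroup.relIndex_dvd_index_of_le le_sup_left))
  set a := H.relIndex (H ⊔ K) with ha
  have ha0 : a ≠ 0 := Subgroup.index_ne_zero_of_finite
  have ha' : a = H.relIndex K := relIndex_sup_of_normal H K
  -- the group `H K`
  have e1 : (Q ⊓ H).relIndex (H ⊔ K) = Q.relIndex H * a := by
    have h1 := Subgroup.relIndex_mul_relIndex (Q ⊓ H) H (H ⊔ K) inf_le_right le_sup_left
    rw [← h1, Subgroup.inf_relIndex_right]
  have e2 : (Q ⊓ H).relIndex (H ⊔ K) =
      H.relIndex (Q ⊓ (H ⊔ K)) * Q.relIndex (H ⊔ K) := by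
    have h1 := Subgroup.relIndex_mul_relIndex (Q ⊓ H) (Q ⊓ (H ⊔ K)) (H ⊔ K)
      (le_inf inf_le_left (inf_le_right.trans le_sup_left)) inf_le_right
    rw [← h1, Subgroup.inf_relIndex_right]
    congr 1
    have h2 : Q ⊓ H = H ⊓ (Q ⊓ (H ⊔ K)) := by
      rw [← inf_assoc, inf_comm H Q, inf_assoc, inf_sup_self]
    rw [h2, Subgroup.inf_relIndex_right]
  -- the group `K`
  have e3 : (Q ⊓ K ⊓ H).relIndex K = H.relIndex (Q ⊓ K) * Q.relIndex K := by
    have h1 := Subgroup.relIndex_mul_relIndex (Q ⊓ K ⊓ H) (Q ⊓ K) K inf_le_left inf_le_right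
    rw [← h1, Subgroup.inf_relIndex_left, Subgroup.inf_relIndex_right]
  have e4 : a ∣ (Q ⊓ K ⊓ H).relIndex K := by
    have h1 := Subgroup.relIndex_mul_relIndex (Q ⊓ K ⊓ H) (K ⊓ H) K
      (le_inf (inf_le_left.trans inf_le_right) inf_le_right) inf_le_left
    rw [← h1, Subgroup.inf_relIndex_left, ← ha']
    exact Dvd.intro_left _ rfl
  have hpow : ∀ D : Subgroup G, D ≤ Q → ∃ i, H.relIndex D = p ^ i := by
    intro D hD
    obtain ⟨n, hn⟩ := IsPGroup.iff_card.1 P.isPGroup'
    have h1 : H.relIndex D ∣ Nat.card D := Subgroup.relIndex_dvd_card H D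
    have h2 : Nat.card D ∣ p ^ n := by
      rw [← hn]
      exact Subgroup.card_dvd_of_le hD
    obtain ⟨i, -, hi⟩ := (Nat.dvd_prime_pow hp.out).1 (h1.trans h2)
    exact ⟨i, hi⟩
  obtain ⟨i, hi⟩ := hpow (Q ⊓ K) inf_le_left
  obtain ⟨j, hj⟩ := hpow (Q ⊓ (H ⊔ K)) inf_le_left
  have hij : i ≤ j := by
    have h1 : H.relIndex (Q ⊓ K) ≤ H.relIndex (Q ⊓ (H ⊔ K)) :=
      Subgroup.relIndex_le_of_le_right (inf_le_inf_left Q le_sup_right)
        Subgroup.index_ne_zero_of_finite
    rw [hi, hj] at h1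
    exact (Nat.pow_le_pow_iff_right hp.out.one_lt).1 h1
  set v := a.factorization p with hv
  have h1 : p ^ v ∣ p ^ i := by
    have h2 : p ^ v ∣ H.relIndex (Q ⊓ K) * Q.relIndex K := by
      rw [← e3]
      exact (Nat.ordProj_dvd a p).trans e4
    rw [hi] at h2
    exact ((Nat.Prime.coprime_iff_not_dvd hp.out).2 hK).pow_left v |>.dvd_of_dvd_mul_right h2
  have h3 : p ^ (v + 1) ∣ Q.relIndex H * a := by
    rw [← e1, e2, hj, pow_succ]
    exact mul_dvd_mul (h1.trans (pow_dvd_pow p hij)) hx
  have h4 : p ^ (v + 1) ∣ a :=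
    (((Nat.Prime.coprime_iff_not_dvd hp.out).2 hH).pow_left (v + 1)).dvd_of_dvd_mul_left h3
  exact Nat.pow_succ_factorization_not_dvd ha0 hp.out h4

/-- A Sylow subgroup that meets `H` in a Sylow subgroup of `H`. -/
theorem exists_sylow_inf (H : Subgroup G) (p : ℕ) [hp : Fact p.Prime] :
    ∃ P : Sylow p G, ¬ p ∣ (P : Subgroup G).relIndex H := by
  obtain ⟨Q⟩ : Nonempty (Sylow p H) := inferInstance
  have hQ : IsPGroup p ((Q : Subgroup H).map H.subtype) := Q.isPGroup'.map _
  obtain ⟨P, hP⟩ := hQ.exists_le_sylow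
  refine ⟨P, fun h => ?_⟩
  have h1 : (Q : Subgroup H) ≤ (P : Subgroup G).subgroupOf H := by
    intro x hx
    rw [Subgroup.mem_subgroupOf]
    exact hP ⟨x, hx, rfl⟩
  have h2 : ((P : Subgroup G).subgroupOf H).index ∣ (Q : Subgroup H).index :=
    Subgroup.index_dvd_of_le h1
  exact Q.not_dvd_index (h.trans h2)

/-- The index of `H ∩ P` in `P`. -/
theorem relIndex_sylow {p : ℕ} [hp : Fact p.Prime] (P : Sylow p G) (H : Subgroup G)
    (hH : ¬ p ∣ (P : Subgroup G).relIndex H) :
    H.relIndex (P : Subgroup G) = p ^ H.index.factorization p := by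
  set Q : Subgroup G := (P : Subgroup G) with hQ
  have hQi : ¬ p ∣ Q.index := P.not_dvd_index
  have e1 : H.relIndex Q * Q.index = Q.relIndex H * H.index := by
    have h1 := Subgroup.relIndex_mul_index (inf_le_left : Q ⊓ H ≤ Q)
    have h2 := Subgroup.relIndex_mul_index (inf_le_right : Q ⊓ H ≤ H)
    rw [Subgroup.inf_relIndex_left] at h1
    rw [Subgroup.inf_relIndex_right] at h2
    rw [h1, h2]
  obtain ⟨n, hn⟩ := IsPGroup.iff_card.1 P.isPGroup'
  obtain ⟨i, -, hi⟩ := (Nat.dvd_prime_pow hp.out).1 ((Subgroup.relIndex_dvd_card H Q).trans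
    (dvd_of_eq hn))
  have hH0 : H.index ≠ 0 := Subgroup.index_ne_zero_of_finite
  have hQ0 : Q.index ≠ 0 := Subgroup.index_ne_zero_of_finite
  have hr0 : Q.relIndex H ≠ 0 := Subgroup.index_ne_zero_of_finite
  have h1 := congrArg (fun n => n.factorization p) e1
  rw [hi, Nat.factorization_mul (pow_ne_zero _ hp.out.ne_zero) hQ0,
    Nat.factorization_mul hr0 hH0, Finsupp.add_apply, Finsupp.add_apply,
    Nat.factorization_eq_zero_of_not_dvd hQi, Nat.factorization_eq_zero_of_not_dvd hH,
    hp.out.factorization_pow, Finsupp.single_eq_same, add_zero, zero_add] at h1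
  rw [hi, h1]

/-- The number of the normal subgroups that contain all normal subgroups in their product
with `H`. -/
theorem ncard_closedNormal_le {H : Subgroup G} {s t : ℕ} (hst : s.Coprime t) (ht : Squarefree t)
    (hH : H.index = s * t) :
    (closedNormal H).ncard ≤ t.divisors.card * s ^ Nat.log 2 s := by
  classical
  have ht0 : t ≠ 0 := ht.ne_zero
  have hH0 : H.index ≠ 0 := Subgroup.index_ne_zero_of_finite
  have hs : s ≠ 0 := by
    rintro rfl
    rw [zero_mul] at hH
    exact hH0 hH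
  set I := H.index.primeFactors with hI
  have hIp : ∀ p ∈ I, p.Prime := fun p hp => Nat.prime_of_mem_primeFactors hp
  have hsyl : ∀ p : ℕ, ∃ Q : Subgroup G, p ∈ I →
      (∀ K : Subgroup G, K.Normal → ¬ p ∣ Q.relIndex (H ⊔ K)) ∧
      H.relIndex Q = p ^ H.index.factorization p := by
    intro p
    by_cases hp : p ∈ I
    · have := Fact.mk (hIp p hp)
      obtain ⟨P, hP⟩ := exists_sylow_inf H p
      refine ⟨P, fun _ => ⟨fun K hK => ?_, relIndex_sylow P H hP⟩⟩
      exact not_dvd_relIndex_sup P H K hP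
    · exact ⟨⊥, fun h => absurd h hp⟩
  choose Q hQ using hsyl
  have hfin : ∀ p : ℕ, {A : Subgroup G | H ⊓ Q p ≤ A ∧ A ≤ Q p}.Finite := fun p => Set.toFinite _
  set T : I → Finset (Subgroup G) := fun p => (hfin p).toFinset with hT
  -- the map is injective
  have hmap : (closedNormal H).ncard ≤ (Fintype.piFinset T).card := by
    rw [← Set.ncard_coe_finset]
    refine Set.ncard_le_ncard_of_injOn (fun K (p : I) => Q p ⊓ (H ⊔ K)) ?_ ?_ (Set.toFinite _)
    · intro K hK
      rw [Finset.mem_coe, Fintype.mem_piFinset]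
      intro p
      rw [hT]
      simp only [Set.Finite.mem_toFinset, Set.mem_ofPred_eq]
      exact ⟨le_inf inf_le_right (inf_le_left.trans le_sup_left), inf_le_left⟩
    · intro K hK K' hK' h
      have key : ∀ K₁ K₂ : Subgroup G, K₁ ∈ closedNormal H → K₂ ∈ closedNormal H →
          (∀ p : I, Q p ⊓ (H ⊔ K₁) = Q p ⊓ (H ⊔ K₂)) → H ⊔ K₁ ≤ H ⊔ K₂ := by
        intro K₁ K₂ h₁ h₂ heq
        rw [← Subgroup.relIndex_eq_one]
        by_contra hcon
        obtain ⟨p, hp, hpd⟩ := Nat.exists_prime_and_dvd hcon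
        have h3 : (H ⊔ K₂).relIndex (H ⊔ K₁) ∣ H.relIndex (H ⊔ K₁) :=
          Subgroup.relIndex_dvd_of_le_left (H ⊔ K₁) le_sup_left
        have h4 : p ∈ I := by
          rw [hI, Nat.mem_primeFactors]
          exact ⟨hp, hpd.trans (h3.trans (Subgroup.relIndex_dvd_index_of_le le_sup_left)), hH0⟩
        have h5 := ((hQ p h4).1 K₁ h₁.1)
        apply h5
        have h6 : Q p ⊓ (H ⊔ K₁) ≤ H ⊔ K₂ := by
          rw [heq ⟨p, h4⟩]
          exact inf_le_right
        have h7 : (H ⊔ K₂).relIndex (H ⊔ K₁) ∣ (Q p ⊓ (H ⊔ K₁)).relIndex (H ⊔ K₁) :=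
          Subgroup.relIndex_dvd_of_le_left (H ⊔ K₁) h6
        rw [Subgroup.inf_relIndex_right] at h7
        exact hpd.trans h7
      have h' : ∀ p : I, Q p ⊓ (H ⊔ K) = Q p ⊓ (H ⊔ K') := fun p => congrFun h p
      exact closedNormal_inj hK hK' (le_antisymm (key K K' hK hK' h')
        (key K' K hK' hK fun p => (h' p).symm))
  refine hmap.trans ?_
  rw [Fintype.card_piFinset]
  have hcard : ∀ p ∈ I, (hfin p).toFinset.card ≤
      if p ∣ t then 2 else (p ^ s.factorization p) ^ Nat.log 2 s := by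
    intro p hp
    have hp' := hIp p hp
    have hpd : p ∣ s * t := by
      rw [← hH]
      exact Nat.dvd_of_mem_primeFactors hp
    rw [← Set.ncard_eq_toFinset_card _ (hfin p)]
    have hrel : (H ⊓ Q p).relIndex (Q p) = p ^ (s * t).factorization p := by
      rw [Subgroup.inf_relIndex_right, (hQ p hp).2, hH]
    have hfac : (s * t).factorization p = s.factorization p + t.factorization p := by
      rw [Nat.factorization_mul hs ht0, Finsupp.add_apply]
    split_ifs with hpt
    · have h1 : s.factorization p = 0 := Nat.factorization_eq_zero_of_not_dvd fun h =>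
        hp'.ne_one (Nat.eq_one_of_dvd_coprimes hst h hpt)
      have h2 : t.factorization p ≤ 1 := ht.natFactorization_le_one p
      have h3 : (H ⊓ Q p).relIndex (Q p) ∣ p := by
        rw [hrel, hfac, h1, zero_add]
        calc p ^ t.factorization p ∣ p ^ 1 := pow_dvd_pow p h2
          _ = p := pow_one p
      have h4 : {A : Subgroup G | H ⊓ Q p ≤ A ∧ A ≤ Q p} ⊆ {H ⊓ Q p, Q p} := by
        rintro A ⟨hA1, hA2⟩
        have h5 := Subgroup.relIndex_mul_relIndex (H ⊓ Q p) A (Q p) hA1 hA2
        have h6 : A.relIndex (Q p) ∣ p := (Dvd.intro_left _ h5).trans h3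
        rcases (Nat.dvd_prime hp').1 h6 with h7 | h7
        · right
          exact le_antisymm hA2 (Subgroup.relIndex_eq_one.1 h7)
        · left
          have h8 : (H ⊓ Q p).relIndex A * p ∣ 1 * p := by
            rw [one_mul]
            rw [h7] at h5
            rw [h5]
            exact h3
          have h9 := Nat.dvd_one.1 (Nat.dvd_of_mul_dvd_mul_right hp'.pos h8)
          exact le_antisymm (Subgroup.relIndex_eq_one.1 h9) hA1
      exact (Set.ncard_le_ncard h4 (Set.toFinite _)).trans (Set.ncard_insert_le _ _ |>.trans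
        (by rw [Set.ncard_singleton]))
    · have h1 : t.factorization p = 0 := Nat.factorization_eq_zero_of_not_dvd hpt
      refine ncard_between_le inf_le_right (b := p ^ s.factorization p) ?_ ?_
      · rw [hrel, hfac, h1, add_zero]
      · calc p ^ s.factorization p ≤ s := Nat.le_of_dvd (Nat.pos_of_ne_zero hs)
              (Nat.ordProj_dvd s p)
          _ < 2 ^ (Nat.log 2 s + 1) := Nat.lt_pow_succ_log_self (by norm_num) s
  calc ∏ p : I, (T p).card = ∏ p ∈ I, (hfin p).toFinset.card := by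
        rw [← Finset.prod_coe_sort I (fun p => (hfin p).toFinset.card)]
    _ ≤ ∏ p ∈ I, (if p ∣ t then 2 else (p ^ s.factorization p) ^ Nat.log 2 s) :=
        Finset.prod_le_prod' hcard
    _ = (∏ p ∈ t.primeFactors, 2) * ∏ p ∈ s.primeFactors, (p ^ s.factorization p) ^ Nat.log 2 s := by
        have hdisj : Disjoint s.primeFactors t.primeFactors := hst.disjoint_primeFactors
        rw [hI, hH, Nat.primeFactors_mul hs ht0, Finset.prod_union hdisj, mul_comm]
        congr 1
        · refine Finset.prod_congr rfl fun p hp => ?_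
          rw [if_pos (Nat.dvd_of_mem_primeFactors hp)]
        · refine Finset.prod_congr rfl fun p hp => ?_
          rw [if_neg fun h => (Nat.prime_of_mem_primeFactors hp).ne_one
            (Nat.eq_one_of_dvd_coprimes hst (Nat.dvd_of_mem_primeFactors hp) h)]
    _ ≤ t.divisors.card * s ^ Nat.log 2 s := by
        refine Nat.mul_le_mul ?_ ?_
        · rw [Nat.card_divisors ht0]
          refine Finset.prod_le_prod' fun p hp => ?_
          have := (Nat.prime_of_mem_primeFactors hp).factorization_pos_of_dvd ht0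
            (Nat.dvd_of_mem_primeFactors hp)
          omega
        · rw [Finset.prod_pow]
          refine Nat.pow_le_pow_left (le_of_eq ?_) _
          exact Nat.prod_factorization_pow_eq_self hs

end Pool.Agent.Q29.TD
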