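import Mathlib
import Pool.Agent.Y1.KN.Field4
import Pool.Agent.Q29.TD.Sylow

/-!
# The kernels of the minimal spaces and their fields
-/

set_option linter.unusedSectionVars false

namespace Pool.Agent.Q29.TD

open Finset Module NumberField Pool.Agent.H204R3.CM Pool.Agent.TH170.MF Pool.Agent.TH170.QC
  Pool.Agent.TH170.QE Pool.Agent.TH170.FW Pool.Agent.TH170.CM Pool.Agent.TH170.GC
  Pool.Agent.Y1.KN

section group

/-- The elements that act trivially on a space. -/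
def ker0 (G : Type*) {X : Type*} [Group G] [MulAction G X] (S : Submodule ℚ (X → ℚ)) :
    Subgroup G where
  carrier := {γ | ∀ s ∈ S, ∀ x, s (γ • x) = s x}
  mul_mem' := by
    intro a b ha hb s hs x
    rw [mul_smul, ha s hs, hb s hs]
  one_mem' := by
    intro s hs x
    rw [one_smul]
  inv_mem' := by
    intro a ha s hs x
    rw [← ha s hs (a⁻¹ • x), smul_inv_smul]

variable {G X : Type*} [Group G] [Fintype G] [MulAction G X] [Fintype X]

theorem mem_ker0 {S : Submodule ℚ (X → ℚ)} (γ : G) :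
    γ ∈ ker0 G S ↔ ∀ s ∈ S, ∀ x, s (γ • x) = s x := Iff.rfl

theorem kern_eq {S : Submodule ℚ (X → ℚ)} (hS : Invariant G S) : kern G S hS = ker0 G S := by
  ext γ
  rfl

theorem ker0_normal {S : Submodule ℚ (X → ℚ)} (hS : Invariant G S) : (ker0 G S).Normal := by
  rw [← kern_eq hS]
  exact kern_normal hS

/-- The kernel contains all normal subgroups in its product with a stabilizer. -/
theorem ker0_mem_closedNormal [MulAction.IsPretransitive G X] {S : Submodule ℚ (X → ℚ)}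
    (hS : Invariant G S) (x₀ : X) : ker0 G S ∈ closedNormal (MulAction.stabilizer G x₀) := by
  classical
  have hnor := ker0_normal (G := G) hS
  refine ⟨hnor, fun N hN hle γ hγ => ?_⟩
  intro s hs x
  obtain ⟨a, rfl⟩ := MulAction.exists_smul_eq G x₀ x
  have h1 : a⁻¹ * γ * a ∈ N := by
    have h2 := hN.conj_mem γ hγ a⁻¹
    rwa [inv_inv] at h2
  have h2 : a⁻¹ * γ * a ∈ ker0 G S ⊔ MulAction.stabilizer G x₀ := by
    rw [sup_comm]
    exact hle h1
  rw [Subgroup.mem_sup_of_normal_left] at h2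
  obtain ⟨ν, hν, η, hη, hνη⟩ := h2
  have hη' : η • x₀ = x₀ := hη
  have h3 : γ * a = a * ν * a⁻¹ * (a * η) := by
    calc γ * a = a * (a⁻¹ * γ * a) := by group
      _ = a * (ν * η) := by rw [hνη]
      _ = _ := by group
  have h4 : a * ν * a⁻¹ ∈ ker0 G S := hnor.conj_mem ν hν a
  rw [← mul_smul, h3, mul_smul, h4 s hs, mul_smul, hη']

end group

section field

variable (E : Type) [Field E] [NumberField E] [IsCMField E]

/-- The field that belongs to the kernel of a minimal space. -/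
theorem exists_kernel_field (hcorr : P_corr) (hcm : P_cm) (φ₀ : E →+* ℂ)
    {S₀ : Submodule ℚ ((E →+* ℂ) → ℚ)} (hS₀ : S₀ ∈ minimalSpaces E) :
    ∃ F : IntermediateField ℚ E, (∀ γ : Gal E,
      γ ∈ MulAction.stabilizer (Gal E) φ₀ ⊔ ker0 (Gal E) S₀ ↔ ∀ x ∈ F, (γ • φ₀) x = φ₀ x) ∧
      IsCMField F := by
  classical
  obtain ⟨c, hc, hcc, hcen⟩ := exists_conj E
  have hfun : (fun φ : E →+* ℂ => c • φ) = ComplexEmbedding.conjugate (K := E) := funext hc
  have hm0 : S₀ ∈ MinInv (Gal E) (fun φ : E →+* ℂ => c • φ) := by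
    rw [hfun]
    exact (minInv_iff S₀).2 hS₀
  have hcH : c ∉ MulAction.stabilizer (Gal E) φ₀ ⊔ ker0 (Gal E) S₀ := by
    rw [← kern_eq hm0.2.1]
    exact not_mem_sup hcc hcen hm0 φ₀
  obtain ⟨F, hF⟩ := hcorr E φ₀ (MulAction.stabilizer (Gal E) φ₀ ⊔ ker0 (Gal E) S₀) le_sup_left
  refine ⟨F, hF, hcm E F ⟨φ₀.comp (algebraMap F E), fun hreal => hcH ((hF c).2 fun x hx => ?_)⟩⟩
  rw [hc]
  exact RingHom.congr_fun hreal ⟨x, hx⟩

/-- The field that belongs to the kernel is a home field. -/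
theorem kernel_homeField (φ₀ : E →+* ℂ) {S₀ : Submodule ℚ ((E →+* ℂ) → ℚ)}
    (hS₀ : S₀ ∈ minimalSpaces E) {F : IntermediateField ℚ E} (hF : ∀ γ : Gal E,
      γ ∈ MulAction.stabilizer (Gal E) φ₀ ⊔ ker0 (Gal E) S₀ ↔ ∀ x ∈ F, (γ • φ₀) x = φ₀ x) :
    F ∈ homeFields S₀ := by
  classical
  obtain ⟨c, hc, hcc, hcen⟩ := exists_conj E
  have hfun : (fun φ : E →+* ℂ => c • φ) = ComplexEmbedding.conjugate (K := E) := funext hc
  have hmin : ∀ S ∈ minimalSpaces E, S ∈ MinInv (Gal E) (fun φ : E →+* ℂ => c • φ) := by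
    intro S hS
    rw [hfun]
    exact (minInv_iff S).2 hS
  have hm0 := hmin S₀ hS₀
  have hnor := ker0_normal (G := Gal E) hm0.2.1
  intro S hS hK u hu
  refine ⟨hS.2.2.1 u hu, ?_⟩
  intro φ ψ hφψ
  have hker : ∀ ν ∈ ker0 (Gal E) S₀, ∀ x, u (ν • x) = u x := fun ν hν =>
    kern_le_of_killers hm0 (hmin S hS) hK.symm hν u hu
  obtain ⟨a, rfl⟩ := MulAction.exists_smul_eq (Gal E) φ₀ φ
  obtain ⟨b, rfl⟩ := MulAction.exists_smul_eq (Gal E) φ₀ ψ
  have h1 : b⁻¹ * a ∈ ker0 (Gal E) S₀ ⊔ MulAction.stabilizer (Gal E) φ₀ := by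
    rw [sup_comm, hF]
    intro x hx
    obtain ⟨σ, hσ⟩ := gal_smul E b⁻¹
    have h2 : (b⁻¹ • b • φ₀) x = φ₀ x := by rw [inv_smul_smul]
    rw [mul_smul, ← h2, hσ, hσ, RingHom.comp_apply, RingHom.comp_apply, hφψ x hx]
  rw [Subgroup.mem_sup_of_normal_left] at h1
  obtain ⟨ν, hν, η, hη, hνη⟩ := h1
  have hη' : η • φ₀ = φ₀ := hη
  have h3 : a = (b * ν * b⁻¹) * (b * η) := by
    calc a = b * (b⁻¹ * a) := by group
      _ = b * (ν * η) := by rw [hνη]
      _ = _ := by group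
  have h4 : b * ν * b⁻¹ ∈ ker0 (Gal E) S₀ := hnor.conj_mem ν hν b
  rw [h3, mul_smul, hker _ h4, mul_smul, hη']

/-- The space on the field that belongs to the kernel is faithful. -/
theorem kernel_faith (hdesc : P_desc) (φ₀ : E →+* ℂ) {S₀ : Submodule ℚ ((E →+* ℂ) → ℚ)}
    (hS₀ : S₀ ∈ minimalSpaces E) {F : IntermediateField ℚ E} [IsCMField F] (hF : ∀ γ : Gal E,
      γ ∈ MulAction.stabilizer (Gal E) φ₀ ⊔ ker0 (Gal E) S₀ ↔ ∀ x ∈ F, (γ • φ₀) x = φ₀ x) :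
    Faith (Gal F) (desc F S₀) := by
  classical
  obtain ⟨c, hc, hcc, hcen⟩ := exists_conj E
  have hfun : (fun φ : E →+* ℂ => c • φ) = ComplexEmbedding.conjugate (K := E) := funext hc
  have hm0 : S₀ ∈ MinInv (Gal E) (fun φ : E →+* ℂ => c • φ) := by
    rw [hfun]
    exact (minInv_iff S₀).2 hS₀
  have hnor := ker0_normal (G := Gal E) hm0.2.1
  have hhome := kernel_homeField E φ₀ hS₀ hF
  have hle : S₀ ≤ resSpace F := hhome S₀ hS₀ rfl
  obtain ⟨-, h2, -, -⟩ := hdesc E F S₀ hS₀ hle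
  intro γ hγ
  obtain ⟨σ, hσ⟩ := gal_smul F γ
  obtain ⟨δ, hδ⟩ := exists_gal_smul E σ
  have hcomp : ∀ φ : E →+* ℂ, (δ • φ).comp (algebraMap F E) =
      γ • (φ.comp (algebraMap F E)) := by
    intro φ
    rw [hσ, hδ]
    rfl
  have hδK : δ ∈ ker0 (Gal E) S₀ := by
    intro s hs φ
    rw [← h2] at hs
    obtain ⟨v, hv, rfl⟩ := hs
    change v ((δ • φ).comp (algebraMap F E)) = v (φ.comp (algebraMap F E))
    rw [hcomp]
    exact hγ v hv _
  apply Subtype.ext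
  apply Equiv.ext
  intro ψ
  change γ • ψ = ψ
  obtain ⟨φ, rfl⟩ : ∃ φ : E →+* ℂ, φ.comp (algebraMap F E) = ψ := by
    letI : Algebra F ℂ := ψ.toAlgebra
    let f : E →ₐ[F] ℂ := IsAlgClosed.lift
    exact ⟨f, f.comp_algebraMap⟩
  rw [← hcomp]
  obtain ⟨a, rfl⟩ := MulAction.exists_smul_eq (Gal E) φ₀ φ
  have h3 : a⁻¹ * δ * a ∈ ker0 (Gal E) S₀ := by
    have h4 := hnor.conj_mem δ hδK a⁻¹
    rwa [inv_inv] at h4
  have h4 := (hF (a⁻¹ * δ * a)).1 ((le_sup_right : ker0 (Gal E) S₀ ≤ _) h3)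
  ext x
  change (δ • a • φ₀) (x : E) = (a • φ₀) (x : E)
  have h5 : (δ • a • φ₀ : E →+* ℂ) = a • ((a⁻¹ * δ * a) • φ₀) := by
    rw [← mul_smul, ← mul_smul]
    congr 1
    group
  obtain ⟨τ, hτ⟩ := gal_smul E a
  rw [h5, hτ, hτ, RingHom.comp_apply, RingHom.comp_apply, h4 x x.2]

end field

end Pool.Agent.Q29.TD
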