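import Mathlib

/-!
# The number of the conjugacy classes of cyclic subgroups
-/

namespace Pool.Agent.Q29.TD

open Finset Pointwise

variable {G : Type*} [Group G]

theorem zpowers_conj {x y : G} (h : Subgroup.zpowers x = Subgroup.zpowers y) (g : G) :
    Subgroup.zpowers (g * x * g⁻¹) = Subgroup.zpowers (g * y * g⁻¹) := by
  have h1 : ∀ z : G, Subgroup.zpowers (g * z * g⁻¹) =
      (Subgroup.zpowers z).map (MulAut.conj g).toMonoidHom := by
    intro z
    rw [MonoidHom.map_zpowers]
    rfl
  rw [h1, h1, h]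

theorem zpowers_split {X Y : G} {i j : ℤ} (hij : i + j = 1)
    (hi : Subgroup.zpowers (X ^ i) = Subgroup.zpowers (Y ^ i))
    (hj : Subgroup.zpowers (X ^ j) = Subgroup.zpowers (Y ^ j)) :
    Subgroup.zpowers X = Subgroup.zpowers Y := by
  have h1 : ∀ Z : G, Subgroup.zpowers Z = Subgroup.zpowers (Z ^ i) ⊔ Subgroup.zpowers (Z ^ j) := by
    intro Z
    apply le_antisymm
    · rw [Subgroup.zpowers_le]
      have h2 : Z = Z ^ i * Z ^ j := by rw [← zpow_add, hij, zpow_one]
      have h3 : Z ^ i * Z ^ j ∈ Subgroup.zpowers (Z ^ i) ⊔ Subgroup.zpowers (Z ^ j) :=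
        Subgroup.mul_mem_sup (Subgroup.mem_zpowers _) (Subgroup.mem_zpowers _)
      rwa [← h2] at h3
    · rw [sup_le_iff, Subgroup.zpowers_le, Subgroup.zpowers_le]
      exact ⟨⟨i, rfl⟩, ⟨j, rfl⟩⟩
  rw [h1 X, h1 Y, hi, hj]

/-- The number of the classes of cyclic `p`-subgroups. -/
def bp (N p : ℕ) : ℕ := if p ^ 2 ∣ N then p ^ N.factorization p else 2

theorem bp_pos {N p : ℕ} (hp : p.Prime) : 0 < bp N p := by
  unfold bp
  split_ifs
  · exact pow_pos hp.pos _
  · norm_num

/-- The classes of the elements whose order is a power of `p`. -/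
theorem exists_classes_prime [Finite G] {N p : ℕ} (hN : N ≠ 0) (hG : Nat.card G ∣ N)
    (hp : p.Prime) : ∃ r : G → Fin (bp N p), ∀ x y : G, x ^ p ^ N.factorization p = 1 →
      y ^ p ^ N.factorization p = 1 → r x = r y →
      ∃ g : G, Subgroup.zpowers (g * x * g⁻¹) = Subgroup.zpowers y := by
  classical
  have := Fact.mk hp
  obtain ⟨P⟩ : Nonempty (Sylow p G) := inferInstance
  have hconj : ∀ x : G, ∃ g : G, x ^ p ^ N.factorization p = 1 → g * x * g⁻¹ ∈ P := by
    intro x
    by_cases hx : x ^ p ^ N.factorization p = 1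
    · have h1 : IsPGroup p (Subgroup.zpowers x) := by
        rw [IsPGroup.iff_card, Nat.card_zpowers]
        obtain ⟨k, -, hk⟩ := (Nat.dvd_prime_pow hp).1 (orderOf_dvd_of_pow_eq_one hx)
        exact ⟨k, hk⟩
      obtain ⟨Q, hQ⟩ := h1.exists_le_sylow
      obtain ⟨g, hg⟩ := MulAction.exists_smul_eq G Q P
      refine ⟨g, fun _ => ?_⟩
      rw [← hg]
      have h2 : x ∈ Q := hQ (Subgroup.mem_zpowers x)
      have h3 : MulAut.conj g • x ∈ (MulAut.conj g • (Q : Subgroup G)) :=
        Subgroup.smul_mem_pointwise_smul _ _ _ h2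
      exact h3
    · exact ⟨1, fun h => absurd h hx⟩
  choose c hc using hconj
  have hPcard : Nat.card P = p ^ (Nat.card G).factorization p := Sylow.card_eq_multiplicity P
  have hle : (Nat.card G).factorization p ≤ N.factorization p :=
    (Nat.factorization_le_iff_dvd Nat.card_pos.ne' hN).2 hG p
  by_cases h2 : p ^ 2 ∣ N
  · have hb : bp N p = p ^ N.factorization p := if_pos h2
    have hcard : Nat.card P ≤ bp N p := by
      rw [hPcard, hb]
      exact Nat.pow_le_pow_right hp.pos hle
    have : Fintype P := Fintype.ofFinite P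
    have e : Function.Embedding P (Fin (bp N p)) := by
      refine (Function.Embedding.nonempty_of_card_le ?_).some
      rw [Fintype.card_fin, ← Nat.card_eq_fintype_card]
      exact hcard
    refine ⟨fun x => if h : c x * x * (c x)⁻¹ ∈ P then e ⟨_, h⟩ else ⟨0, bp_pos hp⟩, ?_⟩
    intro x y hx hy hxy
    have hx' := hc x hx
    have hy' := hc y hy
    simp only [dif_pos hx', dif_pos hy'] at hxy
    have h3 := congrArg Subtype.val (e.injective hxy)
    simp only at h3
    refine ⟨(c y)⁻¹ * c x, ?_⟩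
    congr 1
    calc (c y)⁻¹ * c x * x * ((c y)⁻¹ * c x)⁻¹ = (c y)⁻¹ * (c x * x * (c x)⁻¹) * c y := by group
      _ = y := by
        rw [h3]
        group
  · have hb : bp N p = 2 := if_neg h2
    have h3 : N.factorization p ≤ 1 := by
      by_contra hcon
      apply h2
      exact (pow_dvd_pow p (by omega : 2 ≤ N.factorization p)).trans (Nat.ordProj_dvd N p)
    have hcard : Nat.card P ∣ p := by
      rw [hPcard]
      calc p ^ (Nat.card G).factorization p ∣ p ^ 1 := pow_dvd_pow p (by omega)
        _ = p := pow_one p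
    have hgen : ∀ x : G, x ≠ 1 → x ^ p ^ N.factorization p = 1 →
        Subgroup.zpowers (c x * x * (c x)⁻¹) = (P : Subgroup G) := by
      intro x hx1 hx
      have hx' := hc x hx
      have h4 : Subgroup.zpowers (c x * x * (c x)⁻¹) ≤ (P : Subgroup G) := by
        rw [Subgroup.zpowers_le]
        exact hx'
      have h5 : Nat.card (Subgroup.zpowers (c x * x * (c x)⁻¹)) ∣ Nat.card P :=
        Subgroup.card_dvd_of_le h4
      rcases (Nat.dvd_prime hp).1 (h5.trans hcard) with h6 | h6
      · exfalso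
        rw [Nat.card_zpowers, orderOf_eq_one_iff] at h6
        apply hx1
        calc x = (c x)⁻¹ * (c x * x * (c x)⁻¹) * c x := by group
          _ = 1 := by
            rw [h6]
            group
      · refine Subgroup.eq_of_le_of_card_ge h4 ?_
        rw [h6]
        exact Nat.le_of_dvd hp.pos hcard
    refine ⟨fun x => if x = 1 then ⟨0, by omega⟩ else ⟨1, by omega⟩, ?_⟩
    intro x y hx hy hxy
    by_cases hx1 : x = 1
    · by_cases hy1 : y = 1
      · exact ⟨1, by rw [hx1, hy1]; simp⟩
      · simp only [if_pos hx1, if_neg hy1, Fin.mk.injEq] at hxy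
        omega
    · by_cases hy1 : y = 1
      · simp only [if_neg hx1, if_pos hy1, Fin.mk.injEq] at hxy
        omega
      · refine ⟨(c y)⁻¹ * c x, ?_⟩
        have h4 := zpowers_conj ((hgen x hx1 hx).trans (hgen y hy1 hy).symm) (c y)⁻¹
        have e1 : (c y)⁻¹ * (c x * x * (c x)⁻¹) * (c y)⁻¹⁻¹ =
            (c y)⁻¹ * c x * x * ((c y)⁻¹ * c x)⁻¹ := by group
        have e2 : (c y)⁻¹ * (c y * y * (c y)⁻¹) * (c y)⁻¹⁻¹ = y := by group
        rwa [e1, e2] at h4

/-- The elements whose order has only prime divisors in `π`. -/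
def PiEl (π : Finset ℕ) (x : G) : Prop := ∀ p : ℕ, p.Prime → p ∣ orderOf x → p ∈ π

/-- The classes of the elements whose order has only prime divisors in `π`. -/
theorem exists_classes_pi {N : ℕ} (hN : N ≠ 0) (π : Finset ℕ) (hπ : ∀ p ∈ π, p.Prime) :
    ∀ (G : Type) [Group G] [Finite G], Nat.card G ∣ N →
    ∃ q : G → Fin (∏ p ∈ π, bp N p), ∀ x y : G, PiEl π x → PiEl π y → q x = q y →
      ∃ g : G, Subgroup.zpowers (g * x * g⁻¹) = Subgroup.zpowers y := by
  classical
  induction π using Finset.induction_on with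
  | empty =>
    intro G _ _ hG
    refine ⟨fun _ => ⟨0, by simp⟩, fun x y hx hy _ => ⟨1, ?_⟩⟩
    have h : ∀ z : G, PiEl ∅ z → z = 1 := by
      intro z hz
      by_contra hcon
      have h1 : orderOf z ≠ 1 := fun h => hcon (orderOf_eq_one_iff.1 h)
      obtain ⟨p, hp, hpd⟩ := Nat.exists_prime_and_dvd h1
      exact absurd (hz p hp hpd) (Finset.notMem_empty p)
    rw [h x hx, h y hy]
    simp
  | insert p π hpπ ih =>
    intro G _ _ hG
    have hp : p.Prime := hπ p (Finset.mem_insert_self p π)
    have ih' := ih fun q hq => hπ q (Finset.mem_insert_of_mem hq)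
    obtain ⟨r, hr⟩ := exists_classes_prime hN hG hp
    set P := p ^ N.factorization p with hP
    set M := N / P with hM
    have hPM : P * M = N := Nat.ordProj_mul_ordCompl_eq_self N p
    have hcop : P.Coprime M := by
      rw [hP, hM]
      exact (Nat.coprime_ordCompl hp hN).pow_left _
    obtain ⟨α, β, hαβ⟩ : ∃ α β : ℤ, (P : ℤ) * α + (M : ℤ) * β = 1 := by
      have h1 := Nat.gcd_eq_gcd_ab P M
      rw [Nat.coprime_iff_gcd_eq_one.1 hcop] at h1
      exact ⟨_, _, by simpa using h1.symm⟩
    set i : ℤ := (M : ℤ) * β with hi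
    set j : ℤ := (P : ℤ) * α with hj
    have hij : i + j = 1 := by rw [hi, hj]; linarith
    have hone : ∀ (K : Type) [Group K] [Finite K], Nat.card K ∣ N → ∀ x : K, x ^ N = 1 := by
      intro K _ _ hK x
      obtain ⟨k, hk⟩ := hK
      rw [hk, pow_mul, pow_card_eq_one', one_pow]
    have hxi : ∀ x : G, (x ^ i) ^ P = 1 := by
      intro x
      rw [← zpow_natCast, ← zpow_mul, hi, mul_right_comm, ← Nat.cast_mul, mul_comm M P, hPM,
        zpow_mul, zpow_natCast, hone G hG, one_zpow]
    have hxj : ∀ x : G, (x ^ j) ^ M = 1 := by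
      intro x
      rw [← zpow_natCast, ← zpow_mul, hj, mul_right_comm, ← Nat.cast_mul, hPM,
        zpow_mul, zpow_natCast, hone G hG, one_zpow]
    -- representatives
    have hrep : ∀ c : Fin (bp N p), ∃ a : G, ∀ x : G, r (x ^ i) = c →
        ∃ g : G, Subgroup.zpowers (g * x ^ i * g⁻¹) = Subgroup.zpowers a := by
      intro c
      by_cases h : ∃ x : G, r (x ^ i) = c
      · obtain ⟨x₀, hx₀⟩ := h
        exact ⟨x₀ ^ i, fun x hx => hr _ _ (hxi x) (hxi x₀) (hx.trans hx₀.symm)⟩
      · exact ⟨1, fun x hx => absurd ⟨x, hx⟩ h⟩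
    choose a ha using hrep
    have hconj : ∀ (c : Fin (bp N p)) (x : G), ∃ g : G, r (x ^ i) = c →
        Subgroup.zpowers (g * x ^ i * g⁻¹) = Subgroup.zpowers (a c) := by
      intro c x
      by_cases h : r (x ^ i) = c
      · obtain ⟨g, hg⟩ := ha c x h
        exact ⟨g, fun _ => hg⟩
      · exact ⟨1, fun h' => absurd h' h⟩
    choose w hw using hconj
    let Z : Fin (bp N p) → Subgroup G := fun c => Subgroup.centralizer {a c}
    have hZ : ∀ c (z : G), z ∈ Z c ↔ a c * z = z * a c := by
      intro c z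
      change z ∈ Subgroup.centralizer {a c} ↔ _
      rw [Subgroup.mem_centralizer_singleton_iff]
      exact eq_comm
    have hz : ∀ (c : Fin (bp N p)) (x : G), ∃ z : Z c, r (x ^ i) = c →
        (z : G) = w c x * x ^ j * (w c x)⁻¹ := by
      intro c x
      by_cases h : r (x ^ i) = c
      · refine ⟨⟨w c x * x ^ j * (w c x)⁻¹, ?_⟩, fun _ => rfl⟩
        have h1 : a c ∈ Subgroup.zpowers (w c x * x ^ i * (w c x)⁻¹) := by
          rw [hw c x h]
          exact Subgroup.mem_zpowers _
        obtain ⟨k, hk⟩ := h1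
        simp only at hk
        rw [hZ, ← hk, conj_zpow]
        have h2 : (x ^ i) ^ k * x ^ j = x ^ j * (x ^ i) ^ k :=
          ((Commute.refl x).zpow_zpow i j).zpow_left k
        calc w c x * (x ^ i) ^ k * (w c x)⁻¹ * (w c x * x ^ j * (w c x)⁻¹) =
            w c x * ((x ^ i) ^ k * x ^ j) * (w c x)⁻¹ := by group
          _ = w c x * (x ^ j * (x ^ i) ^ k) * (w c x)⁻¹ := by rw [h2]
          _ = _ := by group
      · exact ⟨1, fun h' => absurd h' h⟩
    choose z hz using hz
    have hcardZ : ∀ c, Nat.card (Z c) ∣ N := fun c => (Subgroup.card_subgroup_dvd_card _).trans hG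
    have hq := fun c : Fin (bp N p) => ih' (Z c) (hcardZ c)
    choose q hq using hq
    rw [Finset.prod_insert hpπ]
    refine ⟨fun x => finProdFinEquiv (r (x ^ i), q (r (x ^ i)) (z (r (x ^ i)) x)), ?_⟩
    intro x y hx hy hxy
    have h1 := finProdFinEquiv.injective hxy
    rw [Prod.mk.injEq] at h1
    obtain ⟨h2, h3⟩ := h1
    set c := r (x ^ i) with hc
    rw [← h2] at h3
    have hzx := hz c x rfl
    have hzy := hz c y h2.symm
    have hwx := hw c x rfl
    have hwy := hw c y h2.symm
    have hpi : ∀ (u : G) (v : Z c), PiEl (insert p π) u →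
        (v : G) = w c u * u ^ j * (w c u)⁻¹ → PiEl π v := by
      intro u v hu hv l hl hlv
      have h4 : orderOf v = orderOf (u ^ j) := by
        rw [← Subgroup.orderOf_coe, hv]
        exact orderOf_injective (MulAut.conj (w c u)).toMonoidHom
          (MulAut.conj (w c u)).injective (u ^ j)
      rw [h4] at hlv
      have h5 : orderOf (u ^ j) ∣ orderOf u := by
        rw [orderOf_dvd_iff_pow_eq_one, ← zpow_natCast, ← zpow_mul, mul_comm, zpow_mul,
          zpow_natCast, pow_orderOf_eq_one, one_zpow]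
      have h6 := hu l hl (hlv.trans h5)
      rw [Finset.mem_insert] at h6
      refine h6.resolve_left ?_
      rintro rfl
      have h7 : l ∣ M := hlv.trans (orderOf_dvd_of_pow_eq_one (hxj u))
      exact Nat.not_dvd_ordCompl hl hN h7
    obtain ⟨h, hh⟩ := hq c (z c x) (z c y) (hpi x _ hx hzx) (hpi y _ hy hzy) h3
    have hh' : Subgroup.zpowers ((h : G) * (w c x * x ^ j * (w c x)⁻¹) * (h : G)⁻¹) =
        Subgroup.zpowers (w c y * y ^ j * (w c y)⁻¹) := by
      have h4 := congrArg (Subgroup.map (Z c).subtype) hh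
      rw [MonoidHom.map_zpowers, MonoidHom.map_zpowers] at h4
      simp only [Subgroup.coe_subtype, Subgroup.coe_mul, Subgroup.coe_inv] at h4
      rwa [hzx, hzy] at h4
    have hcen : (h : G) * a c * (h : G)⁻¹ = a c := by
      have h4 := (hZ c h).1 h.2
      rw [← h4, mul_inv_cancel_right]
    have hhi : Subgroup.zpowers ((h : G) * (w c x * x ^ i * (w c x)⁻¹) * (h : G)⁻¹) =
        Subgroup.zpowers (w c y * y ^ i * (w c y)⁻¹) := by
      rw [zpowers_conj hwx (h : G), hcen, hwy]
    have hX : ∀ k : ℤ, ((h : G) * (w c x * x * (w c x)⁻¹) * (h : G)⁻¹) ^ k =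
        (h : G) * (w c x * x ^ k * (w c x)⁻¹) * (h : G)⁻¹ := by
      intro k
      rw [conj_zpow, conj_zpow]
    have hfin : Subgroup.zpowers ((h : G) * (w c x * x * (w c x)⁻¹) * (h : G)⁻¹) =
        Subgroup.zpowers (w c y * y * (w c y)⁻¹) := by
      refine zpowers_split hij ?_ ?_
      · rw [hX, conj_zpow]
        exact hhi
      · rw [hX, conj_zpow]
        exact hh'
    refine ⟨(w c y)⁻¹ * h * w c x, ?_⟩
    have h5 := zpowers_conj hfin (w c y)⁻¹
    have e1 : (w c y)⁻¹ * ((h : G) * (w c x * x * (w c x)⁻¹) * (h : G)⁻¹) * (w c y)⁻¹⁻¹ =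
        (w c y)⁻¹ * h * w c x * x * ((w c y)⁻¹ * h * w c x)⁻¹ := by group
    have e2 : (w c y)⁻¹ * (w c y * y * (w c y)⁻¹) * (w c y)⁻¹⁻¹ = y := by group
    rwa [e1, e2] at h5

/-- The number of the conjugacy classes of cyclic subgroups. -/
theorem exists_classes {s t : ℕ} (hs : s ≠ 0) (hst : s.Coprime t) (ht : Squarefree t) (G : Type)
    [Group G] [Finite G] (hG : Nat.card G ∣ s * t) :
    ∃ q : G → Fin (t.divisors.card * s), ∀ x y : G, q x = q y →
      ∃ g : G, Subgroup.zpowers (g * x * g⁻¹) = Subgroup.zpowers y := by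
  classical
  have ht0 : t ≠ 0 := ht.ne_zero
  have hN : s * t ≠ 0 := mul_ne_zero hs ht0
  obtain ⟨q, hq⟩ := exists_classes_pi hN (s * t).primeFactors
    (fun p hp => Nat.prime_of_mem_primeFactors hp) G hG
  have hprod : ∏ p ∈ (s * t).primeFactors, bp (s * t) p ≤ t.divisors.card * s := by
    have hdisj : Disjoint s.primeFactors t.primeFactors := hst.disjoint_primeFactors
    rw [Nat.primeFactors_mul hs ht0, Finset.prod_union hdisj, mul_comm]
    refine Nat.mul_le_mul ?_ ?_
    · have h1 : ∀ p ∈ t.primeFactors, bp (s * t) p = 2 := by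
        intro p hp
        refine if_neg fun h2 => ?_
        have hp' := Nat.prime_of_mem_primeFactors hp
        have hpt := Nat.dvd_of_mem_primeFactors hp
        have h3 : (p ^ 2).Coprime s := (Nat.Coprime.coprime_dvd_left hpt hst.symm).pow_left 2
        have h4 : p * p ∣ t := by
          rw [← pow_two]
          exact h3.dvd_of_dvd_mul_left h2
        exact hp'.ne_one (by simpa using ht p h4)
      rw [Finset.prod_congr rfl h1, Nat.card_divisors ht0]
      refine Finset.prod_le_prod' fun p hp => ?_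
      have := (Nat.prime_of_mem_primeFactors hp).factorization_pos_of_dvd ht0
        (Nat.dvd_of_mem_primeFactors hp)
      omega
    · have h1 : ∀ p ∈ s.primeFactors, bp (s * t) p ≤ p ^ s.factorization p := by
        intro p hp
        have hp' := Nat.prime_of_mem_primeFactors hp
        have hps := Nat.dvd_of_mem_primeFactors hp
        have hf : (s * t).factorization p = s.factorization p := by
          rw [Nat.factorization_mul hs ht0, Finsupp.add_apply]
          have h2 : t.factorization p = 0 := Nat.factorization_eq_zero_of_not_dvd fun h => by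
            have h3 := Nat.eq_one_of_dvd_coprimes hst hps h
            exact hp'.ne_one h3
          rw [h2, add_zero]
        unfold bp
        split_ifs
        · rw [hf]
        · calc 2 ≤ p := hp'.two_le
            _ = p ^ 1 := (pow_one p).symm
            _ ≤ _ := Nat.pow_le_pow_right hp'.pos (hp'.factorization_pos_of_dvd hs hps)
      calc ∏ p ∈ s.primeFactors, bp (s * t) p ≤ ∏ p ∈ s.primeFactors, p ^ s.factorization p :=
            Finset.prod_le_prod' h1
        _ = s := Nat.prod_factorization_pow_eq_self hs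
  refine ⟨fun x => Fin.castLE hprod (q x), fun x y hxy => ?_⟩
  refine hq x y ?_ ?_ (Fin.castLE_injective hprod hxy)
  · intro p hp h
    rw [Nat.mem_primeFactors]
    exact ⟨hp, (h.trans (orderOf_dvd_natCard x)).trans hG, hN⟩
  · intro p hp h
    rw [Nat.mem_primeFactors]
    exact ⟨hp, (h.trans (orderOf_dvd_natCard y)).trans hG, hN⟩

end Pool.Agent.Q29.TD
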