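import Mathlib
import Pool.Agent.Y1.KN.Field4
import Pool.Agent.Q29.TD.Classes
import Pool.Agent.Q29.TD.Cyc

/-!
# The contributions of the classes with one kernel
-/

set_option linter.unusedSectionVars false
set_option linter.unusedVariables false

namespace Pool.Agent.Q29.TD

open NumberField Finset Module Pool.Agent.H204R3.CM Pool.Agent.TH170.MF Pool.Agent.TH170.QC
  Pool.Agent.TH170.QE Pool.Agent.TH170.FW Pool.Agent.TH170.CM Pool.Agent.TH170.GC
  Pool.Agent.Y1.KN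

/-- The multiplicities of the classes that come from a subfield. -/
theorem sum_mult_le' (hM : P_mult) (hdim : P_dim) (hdesc : P_desc) (hdesc2 : P_desc2) (E : Type)
    [Field E] [NumberField E] [IsCMField E] (F : IntermediateField ℚ E) [IsCMField F] {g : ℕ}
    (hgF : finrank ℚ F = 2 * g)
    {ι : Type*} (Ws : Finset ι) (rep : ι → Submodule ℚ ((E →+* ℂ) → ℚ))
    (hrep : ∀ W ∈ Ws, rep W ∈ minimalSpaces E)
    (hhome : ∀ W ∈ Ws, F ∈ homeFields (rep W))
    (hne : ∀ W ∈ Ws, ∀ W' ∈ Ws, W ≠ W' →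
      killers (Gal E) (rep W : Set ((E →+* ℂ) → ℚ)) ≠
        killers (Gal E) (rep W' : Set ((E →+* ℂ) → ℚ))) (ψ : F →+* ℂ) :
    ∑ W ∈ Ws, (finrank ℚ (fixedPart (Gal F) ψ (desc F (rep W))) : ℝ) *
      finrank ℚ (desc F (rep W)) / edim (Gal F) (desc F (rep W)) ≤ g := by
  classical
  obtain ⟨c, hc, hcc, hcen⟩ := exists_conj F
  have hfun : (fun ψ : F →+* ℂ => c • ψ) = ComplexEmbedding.conjugate (K := F) := funext hc
  have hminF : ∀ S ∈ minimalSpaces F, S ∈ MinInv (Gal F) (fun ψ : F →+* ℂ => c • ψ) := by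
    intro S hS
    rw [hfun]
    exact (minInv_iff S).2 hS
  have hfree : ∀ φ : F →+* ℂ, c • φ ≠ φ := fun φ => by
    rw [hc]
    exact conj_ne φ
  have hd : ∀ W ∈ Ws, desc F (rep W) ∈ minimalSpaces F := fun W hW =>
    (hdesc E F (rep W) (hrep W hW) (hhome W hW _ (hrep W hW) rfl)).1
  have hfam : ∀ W : ι, ∃ Fm : Finset (Submodule ℚ ((F →+* ℂ) → ℚ)), W ∈ Ws →
      (∀ S' ∈ Fm, S' ∈ MinInv (Gal F) (fun φ : F →+* ℂ => c • φ) ∧
        killers (Gal F) (S' : Set ((F →+* ℂ) → ℚ)) =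
          killers (Gal F) (desc F (rep W) : Set ((F →+* ℂ) → ℚ)) ∧
        finrank ℚ S' = finrank ℚ (desc F (rep W))) ∧
      (∀ S' ∈ Fm, ∀ S'' ∈ Fm, S' ≠ S'' → S'' ≤ (dot (F →+* ℂ)).orthogonal S') ∧
      finrank ℚ (fixedPart (Gal F) ψ (desc F (rep W))) ≤
        edim (Gal F) (desc F (rep W)) * Fm.card := by
    intro W
    by_cases hW : W ∈ Ws
    · obtain ⟨Fm, hFm⟩ := hM (Gal F) (F →+* ℂ) c hcc hfree hcen (desc F (rep W))
        (hminF _ (hd W hW)) ψ
      exact ⟨Fm, fun _ => hFm⟩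
    · exact ⟨∅, fun h => absurd h hW⟩
  choose fam hfam using hfam
  have hsum : ∑ W ∈ Ws, ∑ S ∈ fam W, finrank ℚ S ≤ g := by
    have h6 := sum_sum_finrank_le (V := resSpace (⊤ : IntermediateField ℚ F)) Ws fam ?_ ?_ ?_ ?_
    · have h7 := hdim F ⊤ (resSpace ⊤) (fun s hs φ => hs.1 φ) (fun u hu φ ψ h => hu.2 φ ψ h)
      have h8 : finrank ℚ (⊤ : IntermediateField ℚ F) = 2 * g := by
        rw [IntermediateField.finrank_top', hgF]
      omega
    · intro W hW S hS u hu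
      have h7 := ((hfam W hW).1 S hS).1
      rw [hfun] at h7
      have h8 := (minInv_iff S).1 h7
      refine ⟨h8.2.2.1 u hu, fun φ ψ h => ?_⟩
      rw [RingHom.ext fun x => h x IntermediateField.mem_top]
    · intro W hW S hS
      exact ((hfam W hW).1 S hS).1.1
    · intro W hW
      exact (hfam W hW).2.1
    · intro W hW W' hW' hWW S hS S' hS'
      have h7 := (hfam W hW).1 S hS
      have h8 := (hfam W' hW').1 S' hS'
      refine orth_of_killers_ne h7.1 h8.1 ?_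
      rw [h7.2.1, h8.2.1]
      intro heq
      exact hne W hW W' hW' hWW (hdesc2 E F (rep W) (rep W') (hrep W hW) (hrep W' hW')
        (hhome W hW _ (hrep W hW) rfl) (hhome W' hW' _ (hrep W' hW') rfl) heq)
  have hone : ∀ W ∈ Ws, (finrank ℚ (fixedPart (Gal F) ψ (desc F (rep W))) : ℝ) *
      finrank ℚ (desc F (rep W)) / edim (Gal F) (desc F (rep W)) ≤
      ((∑ S ∈ fam W, finrank ℚ S : ℕ) : ℝ) := by
    intro W hW
    obtain ⟨h4, h5, h6⟩ := hfam W hW
    have h7 : ∑ S ∈ fam W, finrank ℚ S = (fam W).card * finrank ℚ (desc F (rep W)) := by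
      rw [sum_congr rfl fun S hS => (h4 S hS).2.2, sum_const, smul_eq_mul]
    have he0 : 0 < edim (Gal F) (desc F (rep W)) := edim_pos (hd W hW).1
    have he : (0 : ℝ) < edim (Gal F) (desc F (rep W)) := by exact_mod_cast he0
    rw [h7, div_le_iff₀ he]
    push_cast
    have h6' : (finrank ℚ (fixedPart (Gal F) ψ (desc F (rep W))) : ℝ) ≤
        edim (Gal F) (desc F (rep W)) * (fam W).card := by exact_mod_cast h6
    calc (finrank ℚ (fixedPart (Gal F) ψ (desc F (rep W))) : ℝ) *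
          finrank ℚ (desc F (rep W)) ≤
        (edim (Gal F) (desc F (rep W)) * (fam W).card) * finrank ℚ (desc F (rep W)) := by
          gcongr
      _ = _ := by ring
  refine (sum_le_sum hone).trans ?_
  rw [← Nat.cast_sum]
  exact_mod_cast hsum

/-- The contribution of the classes of codimension at least three. -/
theorem main_part' (hM : P_mult) {C : ℝ} (hC0 : 0 ≤ C)
    (hC : ∀ (G X : Type) [Group G] [Fintype G] [MulAction G X] [Fintype X]
      [DecidableEq X] [MulAction.IsPretransitive G X] (m n g : ℕ) [NeZero m] (M : PX X m → ℤ)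
      (c : G), PData G X m n g M c → ∀ S ∈ MinInv G (fun x : X => c • x), ∀ x₀ : X, Faith G S →
      (3 ≤ edim G S + codimFix G x₀ S ∨ Star G c x₀ g) →
      (cntO M c S : ℝ) ≤
        2 ^ (m * g) * (C * (n : ℝ) ^ 2 *
          (finrank ℚ (fixedPart G x₀ S) * finrank ℚ S / (edim G S * g)) *
            ((1 + Real.log g) ^ 16 / √(m * g))))
    (hdim : P_dim) (hbij : P_bij)
    (hdesc : P_desc) (hdesc2 : P_desc2) (E : Type) [Field E] [NumberField E] [IsCMField E]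
    (F : IntermediateField ℚ E) [IsCMField F] {g m n : ℕ} [NeZero m]
    (hgF : finrank ℚ F = 2 * g) (hgE : finrank ℚ E = 2 * (m * g)) (M : (E →+* ℂ) → ℤ)
    (hn0 : n ≠ 0) (hMn : ∀ φ, M φ ∣ (n : ℤ)) (hMc : ∀ φ, M (ComplexEmbedding.conjugate φ) = M φ)
    {ι : Type*} (Ws : Finset ι) (rep : ι → Submodule ℚ ((E →+* ℂ) → ℚ))
    (hrep : ∀ W ∈ Ws, rep W ∈ minimalSpaces E)
    (hhome : ∀ W ∈ Ws, F ∈ homeFields (rep W))
    (hfaith : ∀ W ∈ Ws, Faith (Gal F) (desc F (rep W)))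
    (hne : ∀ W ∈ Ws, ∀ W' ∈ Ws, W ≠ W' →
      killers (Gal E) (rep W : Set ((E →+* ℂ) → ℚ)) ≠
        killers (Gal E) (rep W' : Set ((E →+* ℂ) → ℚ))) (ψ : F →+* ℂ)
    (h3 : ∀ W ∈ Ws, 3 ≤ edim (Gal F) (desc F (rep W)) + codimFix (Gal F) ψ (desc F (rep W))) :
    ((∑ W ∈ Ws, {Φ : Set (E →+* ℂ) | IsCMType Φ ∧ ∃ S ∈ minimalSpaces E,
      component S = component (rep W) ∧ OrthW M Φ S}.ncard : ℕ) : ℝ) ≤
      2 ^ (m * g) * (C * (n : ℝ) ^ 2 * ((1 + Real.log g) ^ 16 / √(m * g))) := by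
  classical
  obtain ⟨c, hc, hcc, hcen⟩ := exists_conj F
  have hg0 : 0 < g := by
    have := Module.finrank_pos (R := ℚ) (M := F)
    omega
  have hgR : (0 : ℝ) < g := by exact_mod_cast hg0
  have hg1 : (1 : ℝ) ≤ g := by exact_mod_cast hg0
  have hlog : 0 ≤ Real.log g := Real.log_nonneg hg1
  have hfun : (fun ψ : F →+* ℂ => c • ψ) = ComplexEmbedding.conjugate (K := F) := funext hc
  have hminF : ∀ S ∈ minimalSpaces F, S ∈ MinInv (Gal F) (fun ψ : F →+* ℂ => c • ψ) := by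
    intro S hS
    rw [hfun]
    exact (minInv_iff S).2 hS
  have hd : ∀ W ∈ Ws, desc F (rep W) ∈ minimalSpaces F := fun W hW =>
    (hdesc E F (rep W) (hrep W hW) (hhome W hW _ (hrep W hW) rfl)).1
  have hone : ∀ W ∈ Ws, (({Φ : Set (E →+* ℂ) | IsCMType Φ ∧ ∃ S ∈ minimalSpaces E,
      component S = component (rep W) ∧ OrthW M Φ S}.ncard : ℕ) : ℝ) ≤
      2 ^ (m * g) * (C * (n : ℝ) ^ 2 * ((1 + Real.log g) ^ 16 / √(m * g))) *
        ((finrank ℚ (fixedPart (Gal F) ψ (desc F (rep W))) : ℝ) *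
          finrank ℚ (desc F (rep W)) / edim (Gal F) (desc F (rep W)) / g) := by
    intro W hW
    obtain ⟨M', D, hle⟩ := ncard_types_le_cntO hdesc hbij E F hgF hgE M hn0 hMn hMc (hrep W hW)
      (hhome W hW) hc hcc hcen
    have h8 := hC (Gal F) (F →+* ℂ) m n g M' c D _ (hminF _ (hd W hW)) ψ (hfaith W hW)
      (Or.inl (h3 W hW))
    refine (Nat.cast_le.2 hle).trans (h8.trans (le_of_eq ?_))
    have he0 : 0 < edim (Gal F) (desc F (rep W)) := edim_pos (hd W hW).1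
    have he : (0 : ℝ) < edim (Gal F) (desc F (rep W)) := by exact_mod_cast he0
    rw [div_div]
    ring
  rw [Nat.cast_sum]
  refine (sum_le_sum hone).trans ?_
  rw [← mul_sum, ← sum_div]
  refine mul_le_of_le_one_right (by positivity) ?_
  rw [div_le_one hgR]
  exact sum_mult_le' hM hdim hdesc hdesc2 E F hgF Ws rep hrep hhome hne ψ

/-- The contribution of the classes of codimension at most two. -/
theorem exc_part' (hM : P_mult) {K : ℝ} (hK1 : 1 ≤ K)
    (hK : ∀ (g m d c n Gc : ℕ) (N : ℝ), 1 ≤ n → 1 ≤ m → 1 ≤ d → 1 ≤ g →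
      d ^ 2 ≤ 2 * g → 1 ≤ Gc → Gc ≤ 4 * g → N ≤ 1 →
      N ≤ boundB (m * g) d c (Real.log ((Gc * n : ℕ) : ℝ)) →
      N ≤ √(K * (n : ℝ) ^ 2 * (1 + Real.log g) ^ 3 * d / (m * g)) ^ c)
    (hGB : P_genB) (hP : P_prod) (hbij : P_bij)
    (hdesc : P_desc) (hdesc2 : P_desc2) (E : Type) [Field E] [NumberField E] [IsCMField E]
    (F : IntermediateField ℚ E) [IsCMField F] {g m n : ℕ} [NeZero m]
    (hgF : finrank ℚ F = 2 * g) (hgE : finrank ℚ E = 2 * (m * g)) (M : (E →+* ℂ) → ℤ)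
    (hn0 : n ≠ 0) (hMn : ∀ φ, M φ ∣ (n : ℤ)) (hMc : ∀ φ, M (ComplexEmbedding.conjugate φ) = M φ)
    {ι : Type} (Ws : Finset ι) (rep : ι → Submodule ℚ ((E →+* ℂ) → ℚ))
    (hrep : ∀ W ∈ Ws, rep W ∈ minimalSpaces E)
    (hhome : ∀ W ∈ Ws, F ∈ homeFields (rep W))
    (hfaith : ∀ W ∈ Ws, Faith (Gal F) (desc F (rep W)))
    (hne : ∀ W ∈ Ws, ∀ W' ∈ Ws, W ≠ W' →
      killers (Gal E) (rep W : Set ((E →+* ℂ) → ℚ)) ≠
        killers (Gal E) (rep W' : Set ((E →+* ℂ) → ℚ))) (ψ : F →+* ℂ)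
    (h2 : ∀ W ∈ Ws, edim (Gal F) (desc F (rep W)) + codimFix (Gal F) ψ (desc F (rep W)) ≤ 2)
    {s t : ℕ} (hs : s ≠ 0) (hst : s.Coprime t) (ht : Squarefree t) (hgst : 4 * (m * g) = s * t) :
    ((∑ W ∈ Ws, {Φ : Set (E →+* ℂ) | IsCMType Φ ∧ ∃ S ∈ minimalSpaces E,
      component S = component (rep W) ∧ OrthW M Φ S}.ncard : ℕ) : ℝ) ≤
      2 ^ (m * g) * ((t.divisors.card * s : ℕ) * (2 * K * (n : ℝ) ^ 2 * (1 + Real.log g) ^ 2 /
        ((m * g : ℝ) ^ (1 / 4 : ℝ)))) := by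
  classical
  obtain ⟨c, hc, hcc, hcen⟩ := exists_conj F
  have hg0 : 0 < g := by
    have := Module.finrank_pos (R := ℚ) (M := F)
    omega
  have hm0 : 0 < m := Nat.pos_of_ne_zero (NeZero.ne m)
  have hgR : (0 : ℝ) < g := by exact_mod_cast hg0
  have hmR : (0 : ℝ) < m := by exact_mod_cast hm0
  have hg1 : (1 : ℝ) ≤ g := by exact_mod_cast hg0
  have hm1 : (1 : ℝ) ≤ m := by exact_mod_cast hm0
  have hn1 : 1 ≤ n := Nat.pos_of_ne_zero hn0
  have hn1R : (1 : ℝ) ≤ n := by exact_mod_cast hn1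
  have hlog : 0 ≤ Real.log g := Real.log_nonneg hg1
  have hmgR : (0 : ℝ) < (m : ℝ) * g := by positivity
  have hfun : (fun ψ : F →+* ℂ => c • ψ) = ComplexEmbedding.conjugate (K := F) := funext hc
  have hminF : ∀ S ∈ minimalSpaces F, S ∈ MinInv (Gal F) (fun ψ : F →+* ℂ => c • ψ) := by
    intro S hS
    rw [hfun]
    exact (minInv_iff S).2 hS
  have hfree : ∀ φ : F →+* ℂ, c • φ ≠ φ := fun φ => by
    rw [hc]
    exact conj_ne φ
  have hd : ∀ W ∈ Ws, desc F (rep W) ∈ minimalSpaces F := fun W hW =>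
    (hdesc E F (rep W) (hrep W hW) (hhome W hW _ (hrep W hW) rfl)).1
  have hcard : Fintype.card (F →+* ℂ) = 2 * g := by rw [Embeddings.card, hgF]
  have hcs := card_stab_mul (G := Gal F) hcard ψ
  have hkne : ∀ W ∈ Ws, ∀ W' ∈ Ws, W ≠ W' →
      killers (Gal F) (desc F (rep W) : Set ((F →+* ℂ) → ℚ)) ≠
        killers (Gal F) (desc F (rep W') : Set ((F →+* ℂ) → ℚ)) := by
    intro W hW W' hW' hWW heq
    exact hne W hW W' hW' hWW (hdesc2 E F (rep W) (rep W') (hrep W hW) (hrep W' hW')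
      (hhome W hW _ (hrep W hW) rfl) (hhome W' hW' _ (hrep W' hW') rfl) heq)
  have hy0 : (0 : ℝ) ≤ 2 * K * (n : ℝ) ^ 2 * (1 + Real.log g) ^ 2 /
        ((m * g : ℝ) ^ (1 / 4 : ℝ)) := by positivity
  rcases Ws.eq_empty_or_nonempty with hemp | ⟨W₀, hW₀⟩
  · rw [hemp, sum_empty, Nat.cast_zero]
    positivity
  have hstab : Nat.card (MulAction.stabilizer (Gal F) ψ) = 1 ∨
      Nat.card (MulAction.stabilizer (Gal F) ψ) = 2 := by
    have h0 : 0 < Nat.card (MulAction.stabilizer (Gal F) ψ) := Nat.card_pos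
    by_contra hcon
    have h3 : 3 ≤ Nat.card (MulAction.stabilizer (Gal F) ψ) := by omega
    have h4 := codim_ge_two (hminF _ (hd W₀ hW₀)).2.1 (hfaith W₀ hW₀) ψ h3
    have h5 := h2 W₀ hW₀
    have h6 : 0 < edim (Gal F) (desc F (rep W₀)) := edim_pos (hd W₀ hW₀).1
    unfold codimFix at h5
    omega
  have hGc : Nat.card (Gal F) ≤ 4 * g := by
    rcases hstab with h | h <;> rw [h] at hcs <;> omega
  have hGd : Nat.card (Gal F) ∣ s * t := by
    rw [← hgst]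
    rcases hstab with h | h <;> rw [h] at hcs
    · exact ⟨2 * m, by rw [← hcs]; ring⟩
    · exact ⟨m, by rw [← hcs]; ring⟩
  have hmul : ∀ W ∈ Ws, finrank ℚ (fixedPart (Gal F) ψ (desc F (rep W))) *
      finrank ℚ (desc F (rep W)) ≤ edim (Gal F) (desc F (rep W)) * g := fun W hW =>
    fixed_mul_le hM hcc hfree hcen hcard (hminF _ (hd W hW)) ψ
  -- the number of the classes
  have hcardWs : Ws.card ≤ t.divisors.card * s := by
    obtain ⟨q, hq⟩ := exists_classes hs hst ht (Gal F) hGd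
    have h3 := card_classes_le (G := Gal F) (X := F →+* ℂ) (ι := Ws)
      (fun W => desc F (rep W)) (fun W => hminF _ (hd W W.2))
      (fun W W' hWW => hkne W W.2 W' W'.2 (fun h => hWW (Subtype.ext h))) q hq
    rwa [Fintype.card_coe] at h3
  -- the dimension
  have hd2 : ∀ W ∈ Ws, finrank ℚ (desc F (rep W)) ^ 2 ≤ 2 * g := by
    intro W hW
    have h3 := hmul W hW
    have h4 := h2 W hW
    have he1 : 1 ≤ edim (Gal F) (desc F (rep W)) := edim_pos (hd W hW).1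
    have heh : edim (Gal F) (desc F (rep W)) ≤
        finrank ℚ (fixedPart (Gal F) ψ (desc F (rep W))) :=
      edim_le hcc hcen ψ (hminF _ (hd W hW)).2.1 (hminF _ (hd W hW)).2.2.1
    have hle : finrank ℚ (fixedPart (Gal F) ψ (desc F (rep W))) ≤
        finrank ℚ (desc F (rep W)) := Submodule.finrank_mono fun u hu => hu.1
    unfold codimFix at h4
    set e := edim (Gal F) (desc F (rep W))
    set h := finrank ℚ (fixedPart (Gal F) ψ (desc F (rep W)))
    set d := finrank ℚ (desc F (rep W))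
    rcases Nat.lt_or_ge h d with h5 | h5
    · have h6 : e = 1 := by omega
      have h7 : d = h + 1 := by omega
      rw [h6, one_mul] at h3
      rw [h7] at h3 ⊢
      nlinarith
    · have h6 : h = d := by omega
      rw [h6] at h3
      have h7 : e * g ≤ 2 * g := Nat.mul_le_mul_right _ (by omega)
      nlinarith
  -- the bound for one class
  have hone : ∀ W ∈ Ws, (({Φ : Set (E →+* ℂ) | IsCMType Φ ∧ ∃ S ∈ minimalSpaces E,
      component S = component (rep W) ∧ OrthW M Φ S}.ncard : ℕ) : ℝ) ≤ 2 ^ (m * g) *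
      (2 * K * (n : ℝ) ^ 2 * (1 + Real.log g) ^ 2 / ((m * g : ℝ) ^ (1 / 4 : ℝ))) := by
    intro W hW
    obtain ⟨M', D, hle⟩ := ncard_types_le_cntO hdesc hbij E F hgF hgE M hn0 hMn hMc (hrep W hW)
      (hhome W hW) hc hcc hcen
    have hS := hminF _ (hd W hW)
    have hd0 : 1 ≤ finrank ℚ (desc F (rep W)) := by
      rw [Nat.one_le_iff_ne_zero]
      intro h
      exact hS.1 (Submodule.finrank_eq_zero.1 h)
    have hpow : (0 : ℝ) < 2 ^ (m * g) := by positivity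
    set N := (({Φ : Set (E →+* ℂ) | IsCMType Φ ∧ ∃ S ∈ minimalSpaces E,
        component S = component (rep W) ∧ OrthW M Φ S}.ncard : ℕ) : ℝ) / 2 ^ (m * g) with hN
    have hN1 : N ≤ 1 := by
      rw [hN, div_le_one hpow]
      obtain ⟨p1, -⟩ := hP (Gal F) (F →+* ℂ) c m ψ _ hS
      refine (Nat.cast_le.2 (hle.trans (cntO_le_cntP hP M' c hS ψ))).trans ?_
      exact ncard_class_le_two_pow M' D.cc' D.free' D.card' _
    have hN2 := hK g m _ _ n (Nat.card (Gal F)) N hn1 hm0 hd0 hg0 (hd2 W hW) Nat.card_pos hGc hN1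
      (by
        rw [hN, div_le_iff₀' hpow]
        exact (Nat.cast_le.2 hle).trans (hGB (Gal F) (F →+* ℂ) m n g M' c D _ hS ψ))
    have hc1 : 1 ≤ edim (Gal F) (desc F (rep W)) + codimFix (Gal F) ψ (desc F (rep W)) := by
      have := edim_pos (G := Gal F) (hd W hW).1
      omega
    set k := edim (Gal F) (desc F (rep W)) + codimFix (Gal F) ψ (desc F (rep W)) with hk
    set y := √(K * (n : ℝ) ^ 2 * (1 + Real.log g) ^ 3 * finrank ℚ (desc F (rep W)) / (m * g))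
      with hy
    have hyy : 0 ≤ y := Real.sqrt_nonneg _
    have hNy : N ≤ y := by
      rcases le_total y 1 with h5 | h5
      · refine hN2.trans ?_
        calc y ^ k ≤ y ^ 1 := pow_le_pow_of_le_one hyy h5 hc1
          _ = y := pow_one y
      · linarith
    have hG4 : (0 : ℝ) < (m * g : ℝ) ^ (1 / 4 : ℝ) := Real.rpow_pos_of_pos hmgR _
    have hfour : ((m * g : ℝ) ^ (1 / 4 : ℝ)) ^ 2 = √((m : ℝ) * g) := by
      rw [Real.sqrt_eq_rpow, ← Real.rpow_natCast, ← Real.rpow_mul hmgR.le]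
      norm_num
    have hdle : (finrank ℚ (desc F (rep W)) : ℝ) ≤ 2 * √((m : ℝ) * g) := by
      have h7 : (finrank ℚ (desc F (rep W)) : ℝ) ^ 2 ≤ 2 * g := by
        exact_mod_cast hd2 W hW
      have h8 : (finrank ℚ (desc F (rep W)) : ℝ) ^ 2 ≤ (2 * √((m : ℝ) * g)) ^ 2 := by
        rw [mul_pow, Real.sq_sqrt hmgR.le]
        nlinarith
      exact (sq_le_sq₀ (Nat.cast_nonneg _) (by positivity)).1 h8
    rw [← div_le_iff₀' hpow, ← hN]
    refine hNy.trans ?_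
    rw [hy]
    refine Real.sqrt_le_iff.2 ⟨by positivity, ?_⟩
    rw [div_pow, hfour]
    have h9 : (1 : ℝ) ≤ (n : ℝ) ^ 2 := one_le_pow₀ hn1R
    have h10 : (1 : ℝ) ≤ K * (n : ℝ) ^ 2 := by nlinarith
    have hΛ : (1 : ℝ) ≤ 1 + Real.log g := by linarith
    have hsq : 0 < √((m : ℝ) * g) := Real.sqrt_pos.2 hmgR
    rw [div_le_div_iff₀ hmgR hsq]
    have h11 : (m : ℝ) * g = √((m : ℝ) * g) * √((m : ℝ) * g) := (Real.mul_self_sqrt hmgR.le).symm
    calc K * (n : ℝ) ^ 2 * (1 + Real.log g) ^ 3 * (finrank ℚ (desc F (rep W)) : ℝ) *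
          √((m : ℝ) * g) ≤
        K * (n : ℝ) ^ 2 * (1 + Real.log g) ^ 3 * (2 * √((m : ℝ) * g)) * √((m : ℝ) * g) := by
          gcongr
      _ = 2 * ((K * (n : ℝ) ^ 2) * 1 * (1 + Real.log g) ^ 3) *
            (√((m : ℝ) * g) * √((m : ℝ) * g)) := by ring
      _ ≤ 2 * ((K * (n : ℝ) ^ 2) * (K * (n : ℝ) ^ 2) * (1 + Real.log g) ^ 4) *
            (√((m : ℝ) * g) * √((m : ℝ) * g)) := by
          have h12 : (1 + Real.log g) ^ 3 ≤ (1 + Real.log (g : ℝ)) ^ 4 :=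
            pow_le_pow_right₀ hΛ (by norm_num)
          gcongr
      _ = 2 * ((K * (n : ℝ) ^ 2) * (K * (n : ℝ) ^ 2) * (1 + Real.log g) ^ 4) *
            ((m : ℝ) * g) := by rw [← h11]
      _ ≤ 4 * ((K * (n : ℝ) ^ 2) * (K * (n : ℝ) ^ 2) * (1 + Real.log g) ^ 4) *
            ((m : ℝ) * g) := by gcongr; norm_num
      _ = _ := by ring
  rw [Nat.cast_sum]
  refine (sum_le_sum hone).trans ?_
  rw [sum_const, nsmul_eq_mul]
  have h3 : (Ws.card : ℝ) ≤ ((t.divisors.card * s : ℕ) : ℝ) := by exact_mod_cast hcardWs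
  calc (Ws.card : ℝ) * (2 ^ (m * g) * (2 * K * (n : ℝ) ^ 2 * (1 + Real.log g) ^ 2 /
        ((m * g : ℝ) ^ (1 / 4 : ℝ)))) ≤
      ((t.divisors.card * s : ℕ) : ℝ) * (2 ^ (m * g) * (2 * K * (n : ℝ) ^ 2 *
        (1 + Real.log g) ^ 2 / ((m * g : ℝ) ^ (1 / 4 : ℝ)))) := by gcongr
    _ = _ := by ring

end Pool.Agent.Q29.TD
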