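import Mathlib
import Pool.Agent.Y1.KN.All
import Pool.Agent.Q29.TD.Parts
import Pool.Agent.Q29.TD.Kernel

/-!
# The number of the degenerate types of a CM field whose degree is nearly squarefree
-/

set_option linter.unusedSectionVars false
set_option linter.unusedVariables false

namespace Pool.Agent.Q29.TD

open NumberField Finset Module Pool.Agent.H204R3.CM Pool.Agent.TH170.MF Pool.Agent.TH170.QC
  Pool.Agent.TH170.QE Pool.Agent.TH170.FW Pool.Agent.TH170.CM Pool.Agent.TH170.GC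
  Pool.Agent.Y1.KN

/-- The bound for the proportion of the degenerate types, for `4 g = s t`. -/
noncomputable def rate (g s t : ℕ) : ℝ :=
  (1 + Real.log (2 * g)) ^ 16 * (t.divisors.card : ℝ) ^ 2 * (s : ℝ) ^ Nat.log 2 s /
    (g : ℝ) ^ (1 / 4 : ℝ)

/-- The bound for one field. -/
def P_bound : Prop :=
  ∃ C : ℝ, 0 ≤ C ∧ ∀ (E : Type) [Field E] [NumberField E] [IsCMField E] (M : (E →+* ℂ) → ℤ)
    (n g s t : ℕ), n ≠ 0 → (∀ φ, M φ ∣ (n : ℤ)) →
    (∀ φ, M (ComplexEmbedding.conjugate φ) = M φ) →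
    finrank ℚ E = 2 * g → 4 * g = s * t → s.Coprime t → Squarefree t →
    ((degTypes M).ncard : ℝ) ≤ 2 ^ g * (C * (n : ℝ) ^ 2 * rate g s t)

theorem bound_aux (hM : P_mult) (hFa : P_faith3) (hN7 : P_num7)
    (hGB : P_genB) (hP : P_prod) (hcorr : P_corr) (hdim : P_dim)
    (hcm : P_cm) (hbij : P_bij) (hdesc : P_desc) (hdesc2 : P_desc2) : P_bound := by
  classical
  obtain ⟨C, hC0, hC⟩ := hFa
  obtain ⟨K, hK1, hK⟩ := hN7
  refine ⟨C + 2 * K, by positivity, ?_⟩
  intro E _ _ _ M n g s t hn0 hMn hMc hg hgst hst ht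
  have hg0 : 0 < g := by
    have := Module.finrank_pos (R := ℚ) (M := E)
    omega
  have hgR : (0 : ℝ) < g := by exact_mod_cast hg0
  have hg1 : (1 : ℝ) ≤ g := by exact_mod_cast hg0
  have hsq : 0 < √(g : ℝ) := Real.sqrt_pos.2 hgR
  have hs : s ≠ 0 := by
    rintro rfl
    omega
  have ht0 : t ≠ 0 := ht.ne_zero
  -- the components and the representatives
  have hfin := finite_components (E := E)
  have hrep : ∀ W : Submodule ℚ ((E →+* ℂ) → ℚ), ∃ S, W ∈ components E →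
      S ∈ minimalSpaces E ∧ component S = W := by
    intro W
    by_cases hW : W ∈ components E
    · obtain ⟨S, hS, hSW⟩ := hW
      exact ⟨S, fun _ => ⟨hS, hSW⟩⟩
    · exact ⟨⊥, fun h => absurd h hW⟩
  choose rep hrep using hrep
  set cnt : Submodule ℚ ((E →+* ℂ) → ℚ) → ℕ := fun W => {Φ : Set (E →+* ℂ) | IsCMType Φ ∧
      ∃ S ∈ minimalSpaces E, component S = W ∧ OrthW M Φ S}.ncard with hcnt
  have hkne : ∀ W ∈ components E, ∀ W' ∈ components E, W ≠ W' →
      killers (Gal E) ((rep W : Submodule ℚ ((E →+* ℂ) → ℚ)) : Set ((E →+* ℂ) → ℚ)) ≠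
      killers (Gal E) ((rep W' : Submodule ℚ ((E →+* ℂ) → ℚ)) : Set ((E →+* ℂ) → ℚ)) := by
    intro W hW W' hW' hne h
    apply hne
    rw [← (hrep W hW).2, ← (hrep W' hW').2]
    exact component_congr h
  -- the total number
  have htot : (degTypes M).ncard ≤ ∑ W ∈ hfin.toFinset, cnt W := by
    have h1 : degTypes M ⊆ ⋃ W ∈ hfin.toFinset, {Φ : Set (E →+* ℂ) | IsCMType Φ ∧
        ∃ S ∈ minimalSpaces E, component S = W ∧ OrthW M Φ S} := by
      rintro Φ ⟨hΦ, S, hS, hmem⟩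
      exact Set.mem_biUnion (hfin.mem_toFinset.2 ⟨S, hS, rfl⟩) ⟨hΦ, S, hS, rfl, hmem⟩
    refine (Set.ncard_le_ncard h1 (Set.toFinite _)).trans ?_
    exact Finset.set_ncard_biUnion_le _ _
  -- the kernels
  obtain ⟨φ₀⟩ : Nonempty (E →+* ℂ) := inferInstance
  set H := MulAction.stabilizer (Gal E) φ₀ with hH
  have hHind : H.index = 2 * g := by
    have hcard : Fintype.card (E →+* ℂ) = 2 * g := by rw [Embeddings.card, hg]
    have h1 := card_stab_mul (G := Gal E) hcard φ₀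
    have h2 := Subgroup.card_mul_index H
    rw [← h2] at h1
    have h3 : 0 < Nat.card H := Nat.card_pos
    exact (Nat.eq_of_mul_eq_mul_left h3 h1).symm
  have hker : ∀ W ∈ components E, ker0 (Gal E) (rep W) ∈ closedNormal H := by
    intro W hW
    obtain ⟨c, hc, -, -⟩ := exists_conj E
    have hm0 : rep W ∈ MinInv (Gal E) (ComplexEmbedding.conjugate (K := E)) :=
      (minInv_iff _).2 (hrep W hW).1
    exact ker0_mem_closedNormal hm0.2.1 φ₀
  have hcount : (s : ℝ) * ((closedNormal H).ncard : ℝ) ≤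
      (t.divisors.card : ℝ) * (s : ℝ) ^ Nat.log 2 s := by
    have hs2 : 2 ∣ s := by
      by_contra hcon
      have h1 : (2 ^ 2).Coprime s :=
        ((Nat.Prime.coprime_iff_not_dvd Nat.prime_two).2 hcon).pow_left 2
      have h2 : 2 ^ 2 ∣ s * t := ⟨g, by rw [← hgst]; norm_num⟩
      have h3 : 2 ^ 2 ∣ t := h1.dvd_of_dvd_mul_left h2
      have h4 := ht 2 (by rw [← pow_two]; exact h3)
      exact absurd h4 (by decide)
    obtain ⟨s₁, rfl⟩ := hs2
    have h1 : 2 * g = s₁ * t := by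
      have : 2 * (2 * g) = 2 * (s₁ * t) := by
        rw [← mul_assoc, ← mul_assoc]
        omega
      exact Nat.eq_of_mul_eq_mul_left two_pos this
    have h2 : s₁.Coprime t := Nat.Coprime.coprime_dvd_left ⟨2, by ring⟩ hst
    have h3 := ncard_closedNormal_le h2 ht (hHind.trans h1)
    have hs₁ : s₁ ≠ 0 := by
      rintro rfl
      exact hs rfl
    have h5 : Nat.log 2 (2 * s₁) = Nat.log 2 s₁ + 1 := by
      rw [mul_comm]
      exact Nat.log_mul_base (by norm_num) hs₁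
    have h4 : 2 * s₁ * (closedNormal H).ncard ≤
        t.divisors.card * (2 * s₁) ^ Nat.log 2 (2 * s₁) := by
      calc 2 * s₁ * (closedNormal H).ncard ≤
          2 * s₁ * (t.divisors.card * s₁ ^ Nat.log 2 s₁) := Nat.mul_le_mul_left _ h3
        _ ≤ 2 * s₁ * (t.divisors.card * (2 * s₁) ^ Nat.log 2 s₁) := by
            refine Nat.mul_le_mul_left _ (Nat.mul_le_mul_left _ (Nat.pow_le_pow_left ?_ _))
            omega
        _ = t.divisors.card * (2 * s₁) ^ Nat.log 2 (2 * s₁) := by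
            rw [h5, pow_succ]
            ring
    exact_mod_cast h4
  have hfinK : (closedNormal H).Finite := Set.toFinite _
  -- one kernel
  have hone : ∀ N ∈ hfinK.toFinset,
      ((∑ W ∈ hfin.toFinset.filter (fun W => ker0 (Gal E) (rep W) = N), cnt W : ℕ) : ℝ) ≤
      2 ^ g * ((C + 2 * K) * (n : ℝ) ^ 2 * ((1 + Real.log (2 * g)) ^ 16 *
        (t.divisors.card * s : ℕ) / (g : ℝ) ^ (1 / 4 : ℝ))) := by
    intro N hN
    set B := hfin.toFinset.filter (fun W => ker0 (Gal E) (rep W) = N) with hB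
    have hBmem : ∀ W ∈ B, W ∈ components E ∧ ker0 (Gal E) (rep W) = N := by
      intro W hW
      rw [hB, mem_filter, hfin.mem_toFinset] at hW
      exact hW
    have hl : 0 ≤ Real.log (2 * g) := Real.log_nonneg (by linarith)
    rcases B.eq_empty_or_nonempty with hemp | ⟨W₀, hW₀⟩
    · rw [hemp, sum_empty, Nat.cast_zero]
      positivity
    obtain ⟨hW₀c, hW₀N⟩ := hBmem W₀ hW₀
    obtain ⟨F, hF, hcmF⟩ := exists_kernel_field E hcorr hcm φ₀ (hrep W₀ hW₀c).1
    rw [hW₀N] at hF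
    have hFW : ∀ W ∈ B, ∀ γ : Gal E, γ ∈ MulAction.stabilizer (Gal E) φ₀ ⊔
        ker0 (Gal E) (rep W) ↔ ∀ x ∈ F, (γ • φ₀) x = φ₀ x := by
      intro W hW
      rw [(hBmem W hW).2]
      exact hF
    have hhome : ∀ W ∈ B, F ∈ homeFields (rep W) := fun W hW =>
      kernel_homeField E φ₀ (hrep W (hBmem W hW).1).1 (hFW W hW)
    have hfaith : ∀ W ∈ B, Faith (Gal F) (desc F (rep W)) := fun W hW =>
      kernel_faith E hdesc φ₀ (hrep W (hBmem W hW).1).1 (hFW W hW)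
    obtain ⟨gF, hgF⟩ := finrank_even F
    have hmul : finrank ℚ F * finrank F E = finrank ℚ E := finrank_mul_finrank ℚ F E
    set m := finrank F E with hm
    have hm0 : m ≠ 0 := by
      rintro h0
      rw [h0, mul_zero, hg] at hmul
      omega
    have : NeZero m := ⟨hm0⟩
    have hgm : g = m * gF := by
      rw [hgF, hg] at hmul
      have : 2 * (m * gF) = 2 * g := by rw [← hmul]; ring
      omega
    have hgF0 : 0 < gF := by
      rcases Nat.eq_zero_or_pos gF with h0 | h0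
      · rw [h0, mul_zero] at hgm
        omega
      · exact h0
    have hgFR : (0 : ℝ) < gF := by exact_mod_cast hgF0
    have hgF1 : (1 : ℝ) ≤ gF := by exact_mod_cast hgF0
    obtain ⟨ψ⟩ : Nonempty (F →+* ℂ) := inferInstance
    have hmg : ((m : ℝ) * gF) = g := by
      rw [hgm]
      push_cast
      ring
    set B₁ := B.filter (fun W => 3 ≤ edim (Gal F) (desc F (rep W)) +
      codimFix (Gal F) ψ (desc F (rep W))) with hB₁
    set B₂ := B.filter (fun W => ¬ 3 ≤ edim (Gal F) (desc F (rep W)) +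
      codimFix (Gal F) ψ (desc F (rep W))) with hB₂
    have hB₁mem : ∀ W ∈ B₁, W ∈ B := fun W hW => (mem_filter.1 hW).1
    have hB₂mem : ∀ W ∈ B₂, W ∈ B := fun W hW => (mem_filter.1 hW).1
    have hsplit : ∑ W ∈ B, cnt W = ∑ W ∈ B₁, cnt W + ∑ W ∈ B₂, cnt W := by
      rw [hB₁, hB₂, sum_filter_add_sum_filter_not]
    have hcntW : ∀ T : Finset (Submodule ℚ ((E →+* ℂ) → ℚ)), (∀ W ∈ T, W ∈ B) →
        ∑ W ∈ T, cnt W = ∑ W ∈ T, {Φ : Set (E →+* ℂ) | IsCMType Φ ∧
          ∃ S ∈ minimalSpaces E, component S = component (rep W) ∧ OrthW M Φ S}.ncard := by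
      intro T hT
      refine sum_congr rfl fun W hW => ?_
      rw [(hrep W (hBmem W (hT W hW)).1).2]
    have h1 := main_part' hM hC0 hC hdim hbij hdesc hdesc2 E F (m := m)
      hgF (by rw [hg, hgm]) M hn0 hMn hMc B₁ rep
      (fun W hW => (hrep W (hBmem W (hB₁mem W hW)).1).1)
      (fun W hW => hhome W (hB₁mem W hW)) (fun W hW => hfaith W (hB₁mem W hW))
      (fun W hW W' hW' hne => hkne W (hBmem W (hB₁mem W hW)).1 W'
        (hBmem W' (hB₁mem W' hW')).1 hne) ψ (fun W hW => (mem_filter.1 hW).2)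
    have h2 := exc_part' hM hK1 hK hGB hP hbij hdesc hdesc2 E F
      (m := m) hgF (by rw [hg, hgm]) M hn0 hMn hMc B₂ rep
      (fun W hW => (hrep W (hBmem W (hB₂mem W hW)).1).1)
      (fun W hW => hhome W (hB₂mem W hW)) (fun W hW => hfaith W (hB₂mem W hW))
      (fun W hW W' hW' hne => hkne W (hBmem W (hB₂mem W hW)).1 W'
        (hBmem W' (hB₂mem W' hW')).1 hne) ψ (fun W hW => by
          have := (mem_filter.1 hW).2
          omega) hs hst ht (by rw [← hgm, hgst])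
    rw [← hcntW B₁ hB₁mem, ← hgm, hmg] at h1
    rw [← hcntW B₂ hB₂mem, ← hgm, hmg] at h2
    rw [hsplit, Nat.cast_add]
    refine (add_le_add h1 h2).trans ?_
    have hl1 : 0 ≤ Real.log gF := Real.log_nonneg hgF1
    have hl2 : Real.log gF ≤ Real.log (2 * g) := by
      refine Real.log_le_log hgFR ?_
      have : (gF : ℝ) ≤ g := by
        rw [hgm]
        push_cast
        have hm1 : (1 : ℝ) ≤ m := by exact_mod_cast Nat.pos_of_ne_zero hm0
        nlinarith
      linarith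
    set Λ := 1 + Real.log (2 * (g : ℝ)) with hΛ
    have hΛ1 : (1 : ℝ) ≤ Λ := by linarith
    have h3 : (1 + Real.log gF) ^ 16 ≤ Λ ^ 16 :=
      pow_le_pow_left₀ (by linarith) (by linarith : 1 + Real.log gF ≤ Λ) 16
    have h4 : (1 + Real.log gF) ^ 2 ≤ Λ ^ 16 :=
      (pow_le_pow_left₀ (by linarith) (by linarith : 1 + Real.log gF ≤ Λ) 2).trans
        (pow_le_pow_right₀ hΛ1 (by norm_num))
    have hq0 : (0 : ℝ) < (g : ℝ) ^ (1 / 4 : ℝ) := Real.rpow_pos_of_pos hgR _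
    have hq : (g : ℝ) ^ (1 / 4 : ℝ) ≤ √(g : ℝ) := by
      rw [Real.sqrt_eq_rpow]
      exact Real.rpow_le_rpow_of_exponent_le hg1 (by norm_num)
    have hτ : (1 : ℝ) ≤ ((t.divisors.card * s : ℕ) : ℝ) := by
      have h5 : 0 < t.divisors.card := Finset.card_pos.2 ⟨1, Nat.one_mem_divisors.2 ht0⟩
      have h6 : 0 < t.divisors.card * s := Nat.mul_pos h5 (Nat.pos_of_ne_zero hs)
      exact_mod_cast h6
    set T : ℝ := ((t.divisors.card * s : ℕ) : ℝ) with hT
    have f1 : (2 : ℝ) ^ g * (C * (n : ℝ) ^ 2 * ((1 + Real.log gF) ^ 16 / √g)) ≤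
        2 ^ g * (C * (n : ℝ) ^ 2 * (Λ ^ 16 * T / (g : ℝ) ^ (1 / 4 : ℝ))) := by
      refine mul_le_mul_of_nonneg_left ?_ (by positivity)
      refine mul_le_mul_of_nonneg_left ?_ (by positivity)
      have h5 : (1 + Real.log gF) ^ 16 ≤ Λ ^ 16 * T := by
        calc (1 + Real.log gF) ^ 16 ≤ Λ ^ 16 * 1 := by rw [mul_one]; exact h3
          _ ≤ Λ ^ 16 * T := by gcongr
      gcongr
    have f2 : (2 : ℝ) ^ g * (T * (2 * K * (n : ℝ) ^ 2 * (1 + Real.log gF) ^ 2 /
          (g : ℝ) ^ (1 / 4 : ℝ))) ≤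
        2 ^ g * (2 * K * (n : ℝ) ^ 2 * (Λ ^ 16 * T / (g : ℝ) ^ (1 / 4 : ℝ))) := by
      refine mul_le_mul_of_nonneg_left ?_ (by positivity)
      calc T * (2 * K * (n : ℝ) ^ 2 * (1 + Real.log gF) ^ 2 / (g : ℝ) ^ (1 / 4 : ℝ)) =
          2 * K * (n : ℝ) ^ 2 * ((1 + Real.log gF) ^ 2 * T / (g : ℝ) ^ (1 / 4 : ℝ)) := by ring
        _ ≤ 2 * K * (n : ℝ) ^ 2 * (Λ ^ 16 * T / (g : ℝ) ^ (1 / 4 : ℝ)) := by gcongr
    refine (add_le_add f1 f2).trans (le_of_eq ?_)
    ring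
  have hsum : ((∑ W ∈ hfin.toFinset, cnt W : ℕ) : ℝ) ≤ (closedNormal H).ncard *
      (2 ^ g * ((C + 2 * K) * (n : ℝ) ^ 2 * ((1 + Real.log (2 * g)) ^ 16 *
        (t.divisors.card * s : ℕ) / (g : ℝ) ^ (1 / 4 : ℝ)))) := by
    rw [← sum_fiberwise_of_maps_to (s := hfin.toFinset) (t := hfinK.toFinset)
      (g := fun W => ker0 (Gal E) (rep W))
      (fun W hW => hfinK.mem_toFinset.2 (hker W (hfin.mem_toFinset.1 hW))), Nat.cast_sum]
    refine (sum_le_sum hone).trans (le_of_eq ?_)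
    rw [sum_const, nsmul_eq_mul, Set.ncard_eq_toFinset_card _ hfinK]
  have hl : 0 ≤ Real.log (2 * g) := Real.log_nonneg (by linarith)
  refine (Nat.cast_le.2 htot).trans (hsum.trans ?_)
  unfold rate
  have hpos : (0 : ℝ) ≤ 2 ^ g * ((C + 2 * K) * (n : ℝ) ^ 2 * ((1 + Real.log (2 * g)) ^ 16 *
      t.divisors.card / (g : ℝ) ^ (1 / 4 : ℝ))) := by positivity
  calc ((closedNormal H).ncard : ℝ) *
      (2 ^ g * ((C + 2 * K) * (n : ℝ) ^ 2 * ((1 + Real.log (2 * g)) ^ 16 *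
        (t.divisors.card * s : ℕ) / (g : ℝ) ^ (1 / 4 : ℝ)))) =
      (2 ^ g * ((C + 2 * K) * (n : ℝ) ^ 2 * ((1 + Real.log (2 * g)) ^ 16 *
        t.divisors.card / (g : ℝ) ^ (1 / 4 : ℝ)))) * ((s : ℝ) * ((closedNormal H).ncard : ℝ)) := by
        push_cast
        ring
    _ ≤ (2 ^ g * ((C + 2 * K) * (n : ℝ) ^ 2 * ((1 + Real.log (2 * g)) ^ 16 *
        t.divisors.card / (g : ℝ) ^ (1 / 4 : ℝ)))) *
        ((t.divisors.card : ℝ) * (s : ℝ) ^ Nat.log 2 s) := mul_le_mul_of_nonneg_left hcount hpos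
    _ = _ := by ring

theorem bound_holds : P_bound :=
  bound_aux mult_holds faith3_holds Pool.Agent.Y73.KN.num7
    (Pool.Agent.Y417.KN.genB Pool.Agent.Y248.KN.gen) Pool.Agent.Y304.KN.prod
    Pool.Agent.Y281.KN.corr Pool.Agent.Y281.KN.dim Pool.Agent.Y46.KN1.cm Pool.Agent.Y46.KN1.bij
    Pool.Agent.Y46.KN1.desc Pool.Agent.Y167.KN.desc2

end Pool.Agent.Q29.TD
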