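import Mathlib
import Pool.Agent.Q29.TD.Total

/-!
# The rate for the degrees without large square divisors
-/

set_option autoImplicit false

namespace Pool.Agent.Q29.TD

open Finset

/-- The number of the divisors of a squarefree number. -/
theorem card_divisors_le {ε : ℝ} (hε : 0 < ε) : ∃ C : ℝ, 0 ≤ C ∧ ∀ t : ℕ, Squarefree t →
    (t.divisors.card : ℝ) ≤ C * (t : ℝ) ^ ε := by
  classical
  obtain ⟨N, hN⟩ := exists_nat_ge ((2 : ℝ) ^ (1 / ε))
  refine ⟨2 ^ N, by positivity, fun t ht => ?_⟩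
  have ht0 : t ≠ 0 := ht.ne_zero
  have h1 : (t.divisors.card : ℝ) ≤ ∏ p ∈ t.primeFactors, (2 : ℝ) := by
    rw [Nat.card_divisors ht0, Nat.cast_prod]
    refine Finset.prod_le_prod (fun p _ => Nat.cast_nonneg _) fun p _ => ?_
    have := ht.natFactorization_le_one p
    have h2 : t.factorization p + 1 ≤ 2 := by omega
    exact_mod_cast h2
  have h2 : ∀ p ∈ t.primeFactors, (2 : ℝ) ≤ (if p < N then (2 : ℝ) else 1) * (p : ℝ) ^ ε := by
    intro p hp
    have hp' := Nat.prime_of_mem_primeFactors hp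
    have hp1 : (1 : ℝ) ≤ p := by exact_mod_cast hp'.one_le
    split_ifs with h
    · have : (1 : ℝ) ≤ (p : ℝ) ^ ε := Real.one_le_rpow hp1 hε.le
      linarith
    · rw [one_mul]
      have h3 : (2 : ℝ) ^ (1 / ε) ≤ p := hN.trans (by exact_mod_cast not_lt.1 h)
      calc (2 : ℝ) = ((2 : ℝ) ^ (1 / ε)) ^ ε := by
            rw [← Real.rpow_mul (by norm_num), one_div, inv_mul_cancel₀ hε.ne', Real.rpow_one]
        _ ≤ (p : ℝ) ^ ε := Real.rpow_le_rpow (by positivity) h3 hε.le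
  refine h1.trans ((Finset.prod_le_prod (fun _ _ => by norm_num) h2).trans ?_)
  rw [Finset.prod_mul_distrib]
  have h3 : ∏ p ∈ t.primeFactors, (p : ℝ) ^ ε = (t : ℝ) ^ ε := by
    rw [Real.finsetProd_rpow _ _ (fun p _ => Nat.cast_nonneg p), ← Nat.cast_prod,
      Nat.prod_primeFactors_of_squarefree ht]
  have h4 : ∏ p ∈ t.primeFactors, (if p < N then (2 : ℝ) else 1) ≤ 2 ^ N := by
    rw [Finset.prod_ite, Finset.prod_const, Finset.prod_const_one, mul_one]
    refine pow_le_pow_right₀ (by norm_num) ?_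
    calc (t.primeFactors.filter (fun p => p < N)).card ≤ (Finset.range N).card := by
          refine Finset.card_le_card fun p hp => ?_
          rw [Finset.mem_range]
          exact (Finset.mem_filter.1 hp).2
      _ = N := Finset.card_range N
  rw [h3]
  exact mul_le_mul_of_nonneg_right h4 (by positivity)

/-- The square divisors of `g` are small. -/
def NearlySquarefree (g : ℕ) : Prop := ∀ q : ℕ, q ^ 2 ∣ g → Real.log q ^ 3 ≤ Real.log g

/-- The decomposition of `4 g`. -/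
theorem exists_decomposition {g : ℕ} (hg : 0 < g) : ∃ q s t : ℕ, 0 < q ∧ q ^ 2 ∣ g ∧
    4 * g = s * t ∧ s.Coprime t ∧ Squarefree t ∧ 0 < s ∧ s ≤ (2 * q) ^ 3 ∧ t ≤ 4 * g := by
  classical
  obtain ⟨f, q, hfq, hf⟩ := Nat.sq_mul_squarefree g
  have hq0 : q ≠ 0 := by
    rintro rfl
    rw [zero_pow two_ne_zero, zero_mul] at hfq
    omega
  have hf0 : f ≠ 0 := hf.ne_zero
  have hN : 4 * g = (2 * q) ^ 2 * f := by rw [← hfq]; ring
  have hN0 : 4 * g ≠ 0 := by omega
  set N := 4 * g with hNdef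
  set Q := 2 * q with hQ
  have hQ0 : Q ≠ 0 := by omega
  set I := N.primeFactors with hI
  set s := ∏ p ∈ I.filter (fun p => p ∣ Q), p ^ N.factorization p with hs
  set t := ∏ p ∈ I.filter (fun p => ¬ p ∣ Q), p ^ N.factorization p with ht
  have hst : N = s * t := by
    rw [hs, ht, Finset.prod_filter_mul_prod_filter_not]
    exact (Nat.prod_factorization_pow_eq_self hN0).symm
  have hprime : ∀ p ∈ I, p.Prime := fun p hp => Nat.prime_of_mem_primeFactors hp
  have hfac : ∀ p, N.factorization p = 2 * Q.factorization p + f.factorization p := by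
    intro p
    rw [hN, Nat.factorization_mul (pow_ne_zero 2 hQ0) hf0, Finsupp.add_apply,
      Nat.factorization_pow, Finsupp.smul_apply, smul_eq_mul]
  have hf1 : ∀ p, f.factorization p ≤ 1 := fun p => hf.natFactorization_le_one p
  have hcop : s.Coprime t := by
    rw [hs]
    refine Nat.Coprime.prod_left fun p hp => ?_
    rw [ht]
    refine Nat.Coprime.prod_right fun r hr => ?_
    obtain ⟨hp1, hp2⟩ := Finset.mem_filter.1 hp
    obtain ⟨hr1, hr2⟩ := Finset.mem_filter.1 hr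
    refine Nat.Coprime.pow _ _ ((Nat.coprime_primes (hprime p hp1) (hprime r hr1)).2 ?_)
    rintro rfl
    exact hr2 hp2
  have htsq : Squarefree t := by
    have h1 : t = ∏ p ∈ I.filter (fun p => ¬ p ∣ Q), p := by
      rw [ht]
      refine Finset.prod_congr rfl fun p hp => ?_
      obtain ⟨hp1, hp2⟩ := Finset.mem_filter.1 hp
      have h2 : 0 < N.factorization p := (hprime p hp1).factorization_pos_of_dvd hN0
        (Nat.dvd_of_mem_primeFactors hp1)
      have h3 : Q.factorization p = 0 := Nat.factorization_eq_zero_of_not_dvd hp2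
      have h4 := hfac p
      have h5 := hf1 p
      have h6 : N.factorization p = 1 := by omega
      rw [h6, pow_one]
    have h2 : t ∣ f := by
      rw [h1]
      refine Finset.prod_primes_dvd f (fun p hp => ?_) fun p hp => ?_
      · exact (hprime p (Finset.mem_filter.1 hp).1).prime
      · obtain ⟨hp1, hp2⟩ := Finset.mem_filter.1 hp
        have h3 := Nat.dvd_of_mem_primeFactors hp1
        rw [hN] at h3
        exact ((hprime p hp1).dvd_mul.1 h3).resolve_left fun h =>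
          hp2 ((hprime p hp1).dvd_of_dvd_pow h)
    exact hf.squarefree_of_dvd h2
  have hs0 : 0 < s := Nat.pos_of_ne_zero fun h => hN0 (by rw [hst, h, zero_mul])
  refine ⟨q, s, t, Nat.pos_of_ne_zero hq0, ⟨f, hfq.symm⟩, hst, hcop, htsq, hs0, ?_, ?_⟩
  · refine Nat.le_of_dvd (by positivity) ?_
    have h1 : s ∣ ∏ p ∈ Q.primeFactors, p ^ (3 * Q.factorization p) := by
      have h2 : s ∣ ∏ p ∈ I.filter (fun p => p ∣ Q), p ^ (3 * Q.factorization p) := by
        rw [hs]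
        refine Finset.prod_dvd_prod_of_dvd _ _ fun p hp => pow_dvd_pow p ?_
        obtain ⟨hp1, hp2⟩ := Finset.mem_filter.1 hp
        have h3 : 0 < Q.factorization p := (hprime p hp1).factorization_pos_of_dvd hQ0 hp2
        have h4 := hfac p
        have h5 := hf1 p
        omega
      refine h2.trans (Finset.prod_dvd_prod_of_subset _ _ _ fun p hp => ?_)
      obtain ⟨hp1, hp2⟩ := Finset.mem_filter.1 hp
      rw [Nat.mem_primeFactors]
      exact ⟨hprime p hp1, hp2, hQ0⟩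
    refine h1.trans (dvd_of_eq ?_)
    have h2 : ∀ p ∈ Q.primeFactors, p ^ (3 * Q.factorization p) =
        (p ^ Q.factorization p) ^ 3 := by
      intro p _
      rw [mul_comm, pow_mul]
    rw [Finset.prod_congr rfl h2, Finset.prod_pow]
    congr 1
    exact Nat.prod_factorization_pow_eq_self hQ0
  · exact Nat.le_of_dvd (Nat.pos_of_ne_zero hN0) ⟨s, by rw [hst, mul_comm]⟩

/-- The contribution of the square divisors. -/
theorem pow_log_le {δ : ℝ} (hδ : 0 < δ) : ∃ C : ℝ, 0 ≤ C ∧ ∀ g q s : ℕ, 0 < g → 0 < q → 0 < s →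
    s ≤ (2 * q) ^ 3 → Real.log q ^ 3 ≤ Real.log g → (s : ℝ) ^ Nat.log 2 s ≤ C * (g : ℝ) ^ δ := by
  have hl2 : 0 < Real.log 2 := Real.log_pos (by norm_num)
  set η : ℝ := δ * Real.log 2 / 18 with hη
  have hη0 : 0 < η := by positivity
  refine ⟨Real.exp (18 * Real.log 2 + 18 / (Real.log 2 * η ^ 2)), (Real.exp_pos _).le, ?_⟩
  intro g q s hg hq hs hsq hlog
  have hgR : (0 : ℝ) < g := by exact_mod_cast hg
  have hqR : (1 : ℝ) ≤ q := by exact_mod_cast hq
  have hsR : (1 : ℝ) ≤ s := by exact_mod_cast hs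
  have hy0 : 0 ≤ Real.log q := Real.log_nonneg hqR
  have hls0 : 0 ≤ Real.log s := Real.log_nonneg hsR
  have h1 : Real.log s ≤ 3 * (Real.log 2 + Real.log q) := by
    have h2 : (s : ℝ) ≤ (2 * q) ^ 3 := by exact_mod_cast hsq
    calc Real.log s ≤ Real.log ((2 * q) ^ 3) := Real.log_le_log (by linarith) h2
      _ = 3 * (Real.log 2 + Real.log q) := by
        rw [Real.log_pow, Real.log_mul (by norm_num) (by linarith)]
        norm_num
  have h2 : (Nat.log 2 s : ℝ) * Real.log 2 ≤ Real.log s := by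
    have h3 : 2 ^ Nat.log 2 s ≤ s := Nat.pow_log_le_self 2 (by omega)
    have h4 : (2 : ℝ) ^ Nat.log 2 s ≤ s := by exact_mod_cast h3
    rw [← Real.log_pow]
    exact Real.log_le_log (by positivity) h4
  have h3 : Real.log ((s : ℝ) ^ Nat.log 2 s) ≤ (Real.log s) ^ 2 / Real.log 2 := by
    rw [Real.log_pow, le_div_iff₀ hl2]
    nlinarith
  have h4 : (Real.log q) ^ 2 ≤ η * Real.log g + 1 / η ^ 2 := by
    set y := Real.log q with hy
    rcases le_total y (1 / η) with h5 | h5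
    · have h6 : y ^ 2 ≤ 1 / η ^ 2 := by
        calc y ^ 2 ≤ (1 / η) ^ 2 := pow_le_pow_left₀ hy0 h5 2
          _ = 1 / η ^ 2 := by rw [div_pow, one_pow]
      have h7 : 0 ≤ η * Real.log g :=
        mul_nonneg hη0.le ((pow_nonneg hy0 3).trans hlog)
      linarith
    · have h6 : 1 ≤ η * y := by
        rw [div_le_iff₀ hη0] at h5
        linarith
      have h7 : y ^ 2 ≤ η * Real.log g := by
        calc y ^ 2 = 1 * y ^ 2 := (one_mul _).symm
          _ ≤ (η * y) * y ^ 2 := by gcongr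
          _ = η * y ^ 3 := by ring
          _ ≤ η * Real.log g := mul_le_mul_of_nonneg_left hlog hη0.le
      have h8 : 0 ≤ 1 / η ^ 2 := by positivity
      linarith
  have h5 : (Real.log s) ^ 2 / Real.log 2 ≤
      (18 * Real.log 2 + 18 / (Real.log 2 * η ^ 2)) + δ * Real.log g := by
    have h6 : (Real.log s) ^ 2 ≤ 18 * Real.log 2 ^ 2 + 18 * (η * Real.log g + 1 / η ^ 2) := by
      calc (Real.log s) ^ 2 ≤ (3 * (Real.log 2 + Real.log q)) ^ 2 :=
            pow_le_pow_left₀ hls0 h1 2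
        _ ≤ 18 * Real.log 2 ^ 2 + 18 * (Real.log q) ^ 2 := by
            nlinarith [sq_nonneg (Real.log 2 - Real.log q)]
        _ ≤ _ := by linarith
    rw [div_le_iff₀ hl2]
    refine h6.trans (le_of_eq ?_)
    rw [hη]
    field_simp
    ring
  have h6 : (s : ℝ) ^ Nat.log 2 s = Real.exp (Real.log ((s : ℝ) ^ Nat.log 2 s)) :=
    (Real.exp_log (by positivity)).symm
  rw [h6, Real.rpow_def_of_pos hgR, ← Real.exp_add]
  refine Real.exp_le_exp.2 ?_
  linarith [h3.trans h5]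

/-- The rate for the degrees without large square divisors. -/
theorem rate_le {ε : ℝ} (hε : 0 < ε) : ∃ C : ℝ, 0 ≤ C ∧ ∀ g : ℕ, 0 < g → NearlySquarefree g →
    ∃ s t : ℕ, 4 * g = s * t ∧ s.Coprime t ∧ Squarefree t ∧
      rate g s t ≤ C * (g : ℝ) ^ (-(1 / 4) + ε) := by
  obtain ⟨C₁, hC₁0, hC₁⟩ := card_divisors_le (ε := ε / 8) (by positivity)
  obtain ⟨C₂, hC₂0, hC₂⟩ := pow_log_le (δ := ε / 4) (by positivity)
  set η : ℝ := ε / 64 with hη
  have hη0 : 0 < η := by positivity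
  set C₃ : ℝ := 1 + 2 ^ η / η with hC₃
  have hC₃0 : 0 ≤ C₃ := by positivity
  refine ⟨C₃ ^ 16 * (C₁ * 4 ^ (ε / 8)) ^ 2 * C₂, by positivity, ?_⟩
  intro g hg hns
  obtain ⟨q, s, t, hq, hqg, hst, hcop, hsq, hs, hs3, ht4⟩ := exists_decomposition hg
  refine ⟨s, t, hst, hcop, hsq, ?_⟩
  have hgR : (0 : ℝ) < g := by exact_mod_cast hg
  have hg1 : (1 : ℝ) ≤ g := by exact_mod_cast hg
  have h1 : 1 + Real.log (2 * g) ≤ C₃ * (g : ℝ) ^ η := by
    have h2 : Real.log (2 * g) ≤ (2 * g : ℝ) ^ η / η :=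
      Real.log_le_rpow_div (by positivity) hη0
    rw [Real.mul_rpow (by norm_num) hgR.le] at h2
    have h3 : (1 : ℝ) ≤ (g : ℝ) ^ η := Real.one_le_rpow hg1 hη0.le
    calc 1 + Real.log (2 * g) ≤ (g : ℝ) ^ η + 2 ^ η * (g : ℝ) ^ η / η := add_le_add h3 h2
      _ = C₃ * (g : ℝ) ^ η := by
        rw [hC₃]
        ring
  have hl0 : 0 ≤ 1 + Real.log (2 * g) := by
    have : 0 ≤ Real.log (2 * g) := Real.log_nonneg (by linarith)
    linarith
  have h2 : (1 + Real.log (2 * g)) ^ 16 ≤ C₃ ^ 16 * (g : ℝ) ^ (ε / 4) := by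
    calc (1 + Real.log (2 * g)) ^ 16 ≤ (C₃ * (g : ℝ) ^ η) ^ 16 := pow_le_pow_left₀ hl0 h1 16
      _ = C₃ ^ 16 * (g : ℝ) ^ (ε / 4) := by
        rw [mul_pow, ← Real.rpow_natCast ((g : ℝ) ^ η) 16, ← Real.rpow_mul hgR.le]
        congr 2
        rw [hη]
        push_cast
        ring
  have h3 : (t.divisors.card : ℝ) ≤ C₁ * 4 ^ (ε / 8) * (g : ℝ) ^ (ε / 8) := by
    have h4 : (t : ℝ) ≤ 4 * g := by exact_mod_cast ht4
    calc (t.divisors.card : ℝ) ≤ C₁ * (t : ℝ) ^ (ε / 8) := hC₁ t hsq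
      _ ≤ C₁ * (4 * g : ℝ) ^ (ε / 8) := by
        refine mul_le_mul_of_nonneg_left ?_ hC₁0
        exact Real.rpow_le_rpow (Nat.cast_nonneg _) h4 (by positivity)
      _ = _ := by rw [Real.mul_rpow (by norm_num) hgR.le]; ring
  have h4 : (t.divisors.card : ℝ) ^ 2 ≤ (C₁ * 4 ^ (ε / 8)) ^ 2 * (g : ℝ) ^ (ε / 4) := by
    calc (t.divisors.card : ℝ) ^ 2 ≤ (C₁ * 4 ^ (ε / 8) * (g : ℝ) ^ (ε / 8)) ^ 2 :=
          pow_le_pow_left₀ (Nat.cast_nonneg _) h3 2
      _ = _ := by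
        rw [mul_pow, ← Real.rpow_natCast ((g : ℝ) ^ (ε / 8)) 2, ← Real.rpow_mul hgR.le]
        congr 2
        push_cast
        ring
  have h5 := hC₂ g q s hg hq hs hs3 (hns q hqg)
  unfold rate
  have hq0 : (0 : ℝ) < (g : ℝ) ^ (1 / 4 : ℝ) := Real.rpow_pos_of_pos hgR _
  rw [div_le_iff₀ hq0]
  have h6 : (g : ℝ) ^ (-(1 / 4) + ε) * (g : ℝ) ^ (1 / 4 : ℝ) = (g : ℝ) ^ ε := by
    rw [← Real.rpow_add hgR]
    congr 1
    ring
  have h7 : (g : ℝ) ^ (ε / 4) * (g : ℝ) ^ (ε / 4) * (g : ℝ) ^ (ε / 4) ≤ (g : ℝ) ^ ε := by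
    rw [← Real.rpow_add hgR, ← Real.rpow_add hgR]
    exact Real.rpow_le_rpow_of_exponent_le hg1 (by linarith)
  calc (1 + Real.log (2 * g)) ^ 16 * (t.divisors.card : ℝ) ^ 2 * (s : ℝ) ^ Nat.log 2 s ≤
      (C₃ ^ 16 * (g : ℝ) ^ (ε / 4)) * ((C₁ * 4 ^ (ε / 8)) ^ 2 * (g : ℝ) ^ (ε / 4)) *
        (C₂ * (g : ℝ) ^ (ε / 4)) := by gcongr
    _ = C₃ ^ 16 * (C₁ * 4 ^ (ε / 8)) ^ 2 * C₂ *
        ((g : ℝ) ^ (ε / 4) * (g : ℝ) ^ (ε / 4) * (g : ℝ) ^ (ε / 4)) := by ring
    _ ≤ C₃ ^ 16 * (C₁ * 4 ^ (ε / 8)) ^ 2 * C₂ * (g : ℝ) ^ ε := by gcongr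
    _ = _ := by rw [← h6, mul_assoc _ _ ((g : ℝ) ^ (1 / 4 : ℝ))]

end Pool.Agent.Q29.TD
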