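import Mathlib
import Pool.Agent.Q29.TD.Arith

/-!
# Almost all numbers have no large square divisors
-/

set_option autoImplicit false

namespace Pool.Agent.Q29.TD

open Finset Filter Topology

/-- The numbers up to `x` with a square divisor `q ^ 2`, `q > Q`. -/
theorem ncard_square_le (x Q : ℕ) (hQ : 0 < Q) :
    (({g : ℕ | 0 < g ∧ g ≤ x ∧ ∃ q, Q < q ∧ q ^ 2 ∣ g}.ncard : ℕ) : ℝ) ≤ x / Q := by
  classical
  have h1 : {g : ℕ | 0 < g ∧ g ≤ x ∧ ∃ q, Q < q ∧ q ^ 2 ∣ g} ⊆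
      ⋃ q ∈ Finset.Ioc Q (Q + x), (((Finset.Ioc 0 x).filter fun g => q ^ 2 ∣ g : Finset ℕ) :
        Set ℕ) := by
    rintro g ⟨hg0, hgx, q, hq, hqg⟩
    have h2 : q ≤ x := by
      have h3 : q ^ 2 ≤ g := Nat.le_of_dvd hg0 hqg
      nlinarith
    refine Set.mem_biUnion (x := q) ?_ ?_
    · rw [Finset.mem_coe, Finset.mem_Ioc]
      omega
    · rw [Finset.mem_coe, Finset.mem_filter, Finset.mem_Ioc]
      exact ⟨⟨hg0, hgx⟩, hqg⟩
  have h2 : {g : ℕ | 0 < g ∧ g ≤ x ∧ ∃ q, Q < q ∧ q ^ 2 ∣ g}.ncard ≤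
      ∑ q ∈ Finset.Ioc Q (Q + x), ((Finset.Ioc 0 x).filter fun g => q ^ 2 ∣ g).card := by
    refine (Set.ncard_le_ncard h1 ?_).trans ((Finset.set_ncard_biUnion_le _ _).trans
      (le_of_eq ?_))
    · exact Set.Finite.biUnion (Finset.finite_toSet _) fun q _ => Finset.finite_toSet _
    · exact Finset.sum_congr rfl fun q _ => Set.ncard_coe_finset _
  have h3 : ∀ q : ℕ, (((Finset.Ioc 0 x).filter fun g => q ^ 2 ∣ g).card : ℝ) ≤
      x * ((q : ℝ) ^ 2)⁻¹ := by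
    intro q
    rw [Nat.Ioc_filter_dvd_card_eq_div]
    refine Nat.cast_div_le.trans (le_of_eq ?_)
    push_cast
    rw [div_eq_mul_inv]
  calc (({g : ℕ | 0 < g ∧ g ≤ x ∧ ∃ q, Q < q ∧ q ^ 2 ∣ g}.ncard : ℕ) : ℝ) ≤
      ∑ q ∈ Finset.Ioc Q (Q + x), (((Finset.Ioc 0 x).filter fun g => q ^ 2 ∣ g).card : ℝ) := by
        exact_mod_cast h2
    _ ≤ ∑ q ∈ Finset.Ioc Q (Q + x), x * ((q : ℝ) ^ 2)⁻¹ := Finset.sum_le_sum fun q _ => h3 q
    _ = x * ∑ q ∈ Finset.Ioc Q (Q + x), ((q : ℝ) ^ 2)⁻¹ := by rw [Finset.mul_sum]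
    _ ≤ x * ((Q : ℝ)⁻¹ - ((Q + x : ℕ) : ℝ)⁻¹) := by
        refine mul_le_mul_of_nonneg_left ?_ (Nat.cast_nonneg x)
        exact sum_Ioc_inv_sq_le_sub hQ.ne' (Nat.le_add_right Q x)
    _ ≤ x * (Q : ℝ)⁻¹ := by
        refine mul_le_mul_of_nonneg_left ?_ (Nat.cast_nonneg x)
        have : (0 : ℝ) ≤ ((Q + x : ℕ) : ℝ)⁻¹ := by positivity
        linarith
    _ = x / Q := by rw [div_eq_mul_inv]

/-- Almost all numbers are nearly squarefree. -/
theorem density : Tendsto (fun x : ℕ =>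
    (({g : ℕ | g ≤ x ∧ ¬ NearlySquarefree g}.ncard : ℕ) : ℝ) / x) atTop (𝓝 0) := by
  classical
  rw [Metric.tendsto_atTop]
  intro ε hε
  -- the numbers `Q` and `K`
  obtain ⟨Q, hQ⟩ := exists_nat_gt (2 / ε)
  have hQ0 : 0 < Q := by
    have h1 : (0 : ℝ) < Q := lt_trans (by positivity) hQ
    exact_mod_cast h1
  obtain ⟨K, hK⟩ := exists_nat_ge (Real.exp (Real.log Q ^ 3))
  obtain ⟨N, hN⟩ := exists_nat_gt (2 * ((K : ℝ) + 1) / ε)
  refine ⟨N + 1, fun x hx => ?_⟩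
  have hx0 : (0 : ℝ) < x := by
    have : 0 < x := by omega
    exact_mod_cast this
  have hsub : {g : ℕ | g ≤ x ∧ ¬ NearlySquarefree g} ⊆
      ((Finset.range (K + 1) : Finset ℕ) : Set ℕ) ∪
        {g : ℕ | 0 < g ∧ g ≤ x ∧ ∃ q, Q < q ∧ q ^ 2 ∣ g} := by
    rintro g ⟨hgx, hns⟩
    by_cases hgK : g ≤ K
    · left
      rw [Finset.mem_coe, Finset.mem_range]
      omega
    · right
      push Not at hgK
      unfold NearlySquarefree at hns
      push Not at hns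
      obtain ⟨q, hqg, hq⟩ := hns
      refine ⟨by omega, hgx, q, ?_, hqg⟩
      by_contra hcon
      push Not at hcon
      have hgR : (K : ℝ) < g := by exact_mod_cast hgK
      have h1 : Real.log Q ^ 3 ≤ Real.log g := by
        have h2 : Real.exp (Real.log Q ^ 3) ≤ g := hK.trans hgR.le
        have h3 := Real.log_le_log (Real.exp_pos _) h2
        rwa [Real.log_exp] at h3
      have h2 : Real.log q ≤ Real.log Q := by
        rcases Nat.eq_zero_or_pos q with h0 | h0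
        · rw [h0, Nat.cast_zero, Real.log_zero]
          exact Real.log_natCast_nonneg Q
        · exact Real.log_le_log (by exact_mod_cast h0) (by exact_mod_cast hcon)
      have h3 : Real.log q ^ 3 ≤ Real.log Q ^ 3 :=
        pow_le_pow_left₀ (Real.log_natCast_nonneg q) h2 3
      linarith
  have hfin : {g : ℕ | 0 < g ∧ g ≤ x ∧ ∃ q, Q < q ∧ q ^ 2 ∣ g}.Finite :=
    (Set.finite_le_nat x).subset fun g hg => hg.2.1
  have h1 : {g : ℕ | g ≤ x ∧ ¬ NearlySquarefree g}.ncard ≤ (K + 1) +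
      {g : ℕ | 0 < g ∧ g ≤ x ∧ ∃ q, Q < q ∧ q ^ 2 ∣ g}.ncard := by
    refine (Set.ncard_le_ncard hsub ((Finset.finite_toSet _).union hfin)).trans
      ((Set.ncard_union_le _ _).trans (Nat.add_le_add_right (le_of_eq ?_) _))
    rw [Set.ncard_coe_finset, Finset.card_range]
  have h2 := ncard_square_le x Q hQ0
  have h3 : (({g : ℕ | g ≤ x ∧ ¬ NearlySquarefree g}.ncard : ℕ) : ℝ) ≤
      ((K : ℝ) + 1) + x / Q := by
    calc (({g : ℕ | g ≤ x ∧ ¬ NearlySquarefree g}.ncard : ℕ) : ℝ) ≤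
        (((K + 1) + {g : ℕ | 0 < g ∧ g ≤ x ∧ ∃ q, Q < q ∧ q ^ 2 ∣ g}.ncard : ℕ) : ℝ) := by
          exact_mod_cast h1
      _ = ((K : ℝ) + 1) +
          (({g : ℕ | 0 < g ∧ g ≤ x ∧ ∃ q, Q < q ∧ q ^ 2 ∣ g}.ncard : ℕ) : ℝ) := by
          push_cast
          ring
      _ ≤ _ := by linarith
  rw [Real.dist_eq, sub_zero, abs_of_nonneg (by positivity), div_lt_iff₀ hx0]
  have hQR : (0 : ℝ) < Q := by exact_mod_cast hQ0
  have h4 : (x : ℝ) / Q < ε / 2 * x := by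
    rw [div_lt_iff₀ hQR]
    have h5 : 1 < ε / 2 * Q := by
      rw [div_lt_iff₀ hε] at hQ
      linarith
    nlinarith
  have h5 : (K : ℝ) + 1 ≤ ε / 2 * x := by
    have h6 : (N : ℝ) ≤ x := by
      have : N ≤ x := by omega
      exact_mod_cast this
    rw [div_lt_iff₀ hε] at hN
    nlinarith
  linarith

end Pool.Agent.Q29.TD
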