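import Mathlib

/-!
# Definitions: word length, tau-groups, the groups `UT_n(ℤ)`, undistorted subgroups and the
integer Heisenberg groups
-/

namespace Q29.TD

/-- The word length of `g` with respect to the set `S`: the least length of a word in the elements
of `S` and their inverses whose product is `g`. -/
noncomputable def wordLen {G : Type*} [Group G] (S : Set G) (g : G) : ℕ :=
  sInf {n : ℕ | ∃ l : List G, l.length = n ∧ (∀ x ∈ l, x ∈ S ∨ x⁻¹ ∈ S) ∧ l.prod = g}

/-- A `τ`-group: a finitely generated, torsion-free nilpotent group. -/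
structure IsTauGroup (G : Type*) [Group G] : Prop where
  /-- finitely generated -/
  fg : Group.FG G
  /-- nilpotent -/
  nilpotent : Group.IsNilpotent G
  /-- torsion-free -/
  torsionFree : ∀ g : G, g ≠ 1 → ∀ n : ℕ, 0 < n → g ^ n ≠ 1

/-- Upper triangular integer matrices with every diagonal entry equal to `1`. -/
def IsUnitriangular {n : ℕ} (A : Matrix (Fin n) (Fin n) ℤ) : Prop :=
  (∀ i, A i i = 1) ∧ ∀ i j, j < i → A i j = 0

theorem IsUnitriangular.mul {n : ℕ} {A B : Matrix (Fin n) (Fin n) ℤ} (hA : IsUnitriangular A)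
    (hB : IsUnitriangular B) : IsUnitriangular (A * B) := by
  constructor
  · intro i
    rw [Matrix.mul_apply, Finset.sum_eq_single i, hA.1, hB.1, one_mul]
    · intro j _ hj
      rcases lt_or_gt_of_ne hj with h | h
      · rw [hA.2 i j h, zero_mul]
      · rw [hB.2 j i h, mul_zero]
    · simp
  · intro i j hji
    rw [Matrix.mul_apply]
    apply Finset.sum_eq_zero
    intro k _
    rcases lt_or_ge k i with h | h
    · rw [hA.2 i k h, zero_mul]
    · rw [hB.2 k j (lt_of_lt_of_le hji h), mul_zero]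

theorem IsUnitriangular.inv {n : ℕ} {u : (Matrix (Fin n) (Fin n) ℤ)ˣ}
    (hu : IsUnitriangular (u : Matrix (Fin n) (Fin n) ℤ)) :
    IsUnitriangular ((u⁻¹ : (Matrix (Fin n) (Fin n) ℤ)ˣ) : Matrix (Fin n) (Fin n) ℤ) := by
  have h1 : Matrix.BlockTriangular (u : Matrix (Fin n) (Fin n) ℤ) id := fun i j h => hu.2 i j h
  have h2 := Matrix.blockTriangular_inv_of_blockTriangular h1
  rw [← Matrix.coe_units_inv] at h2
  have h3 : ∀ i j, j < i →
      ((u⁻¹ : (Matrix (Fin n) (Fin n) ℤ)ˣ) : Matrix (Fin n) (Fin n) ℤ) i j = 0 :=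
    fun i j h => h2 h
  refine ⟨fun i => ?_, h3⟩
  have h4 : ((u : Matrix (Fin n) (Fin n) ℤ) *
      ((u⁻¹ : (Matrix (Fin n) (Fin n) ℤ)ˣ) : Matrix (Fin n) (Fin n) ℤ)) i i = 1 := by
    rw [Units.mul_inv, Matrix.one_apply_eq]
  rw [Matrix.mul_apply, Finset.sum_eq_single i, hu.1, one_mul] at h4
  · exact h4
  · intro j _ hj
    rcases lt_or_gt_of_ne hj with h | h
    · rw [hu.2 i j h, zero_mul]
    · rw [h3 j i h, mul_zero]
  · simp

/-- `UT_n(ℤ)`: the group of `n × n` upper triangular integer matrices with every diagonal entry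
equal to `1`. -/
def UT (n : ℕ) : Subgroup (Matrix (Fin n) (Fin n) ℤ)ˣ where
  carrier := {u | IsUnitriangular (u : Matrix (Fin n) (Fin n) ℤ)}
  mul_mem' := by
    intro a b ha hb
    exact IsUnitriangular.mul ha hb
  one_mem' := by
    refine ⟨fun i => by simp, fun i j h => ?_⟩
    rw [Units.val_one, Matrix.one_apply_ne h.ne']
  inv_mem' := by
    intro a ha
    exact IsUnitriangular.inv ha

/-- The finitely generated subgroup `H` is undistorted in `K`: for some finite generating sets `S`
of `H` and `T` of `K` there is a constant `C ≥ 1` with `|h|_S ≤ C |h|_T + C` for all `h ∈ H`. -/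
def IsUndistorted {K : Type*} [Group K] (H : Subgroup K) : Prop :=
  ∃ (S : Finset H) (T : Finset K), Subgroup.closure (S : Set H) = ⊤ ∧
    Subgroup.closure (T : Set K) = ⊤ ∧
    ∃ C : ℝ, 1 ≤ C ∧ ∀ h : H, (wordLen (S : Set H) h : ℝ) ≤ C * wordLen (T : Set K) (h : K) + C

/-- The underlying set `ℤ^k × ℤ^k × ℤ` of the integer Heisenberg group of dimension `2k+1`. -/
@[ext] structure Heis (k : ℕ) where
  /-- first block of coordinates -/
  a : Fin k → ℤ
  /-- second block of coordinates -/
  b : Fin k → ℤ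
  /-- central coordinate -/
  c : ℤ

/-- The group law `(a, b, c) (a', b', c') = (a + a', b + b', c + c' + ∑ i, a i * b' i)` of the
integer Heisenberg group of dimension `2k+1`. -/
instance (k : ℕ) : Group (Heis k) where
  mul x y := ⟨x.a + y.a, x.b + y.b, x.c + y.c + ∑ i, x.a i * y.b i⟩
  one := ⟨0, 0, 0⟩
  inv x := ⟨-x.a, -x.b, -x.c + ∑ i, x.a i * x.b i⟩
  mul_assoc := by
    intro x y z
    apply Heis.ext
    · exact add_assoc _ _ _
    · exact add_assoc _ _ _
    · change x.c + y.c + ∑ i, x.a i * y.b i + z.c + ∑ i, (x.a + y.a) i * z.b i =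
        x.c + (y.c + z.c + ∑ i, y.a i * z.b i) + ∑ i, x.a i * (y.b + z.b) i
      simp only [Pi.add_apply, add_mul, mul_add, Finset.sum_add_distrib]
      ring
  one_mul := by
    intro x
    apply Heis.ext
    · exact zero_add _
    · exact zero_add _
    · change 0 + x.c + ∑ i, (0 : Fin k → ℤ) i * x.b i = x.c
      simp
  mul_one := by
    intro x
    apply Heis.ext
    · exact add_zero _
    · exact add_zero _
    · change x.c + 0 + ∑ i, x.a i * (0 : Fin k → ℤ) i = x.c
      simp
  inv_mul_cancel := by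
    intro x
    apply Heis.ext
    · exact neg_add_cancel _
    · exact neg_add_cancel _
    · change (-x.c + ∑ i, x.a i * x.b i) + x.c + ∑ i, (-x.a) i * x.b i = 0
      simp

end Q29.TD
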