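import Pool.Agent.Q29.TD.Upper

/-!
# The filtration by superdiagonals, and the image of a commutator relation
-/

namespace Q29.TD

open Matrix

variable {n : ℕ}

/-- matrices vanishing below the `d`-th superdiagonal -/
def Fil (d : ℕ) (A : Matrix (Fin n) (Fin n) ℤ) : Prop := ∀ i j : Fin n, j.val < i.val + d → A i j = 0

theorem Fil.mul {a b : ℕ} {A B : Matrix (Fin n) (Fin n) ℤ} (hA : Fil a A) (hB : Fil b B) :
    Fil (a + b) (A * B) := by
  intro i j hij
  rw [Matrix.mul_apply]
  apply Finset.sum_eq_zero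
  intro k _
  by_cases h : k.val < i.val + a
  · rw [hA i k h, zero_mul]
  · rw [hB k j (by omega), mul_zero]

theorem Fil.mono {a b : ℕ} (h : a ≤ b) {A : Matrix (Fin n) (Fin n) ℤ} (hA : Fil b A) : Fil a A :=
  fun i j hij => hA i j (by omega)

theorem Fil.add {a : ℕ} {A B : Matrix (Fin n) (Fin n) ℤ} (hA : Fil a A) (hB : Fil a B) :
    Fil a (A + B) := fun i j hij => by rw [Matrix.add_apply, hA i j hij, hB i j hij, add_zero]

theorem Fil.sub {a : ℕ} {A B : Matrix (Fin n) (Fin n) ℤ} (hA : Fil a A) (hB : Fil a B) :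
    Fil a (A - B) := fun i j hij => by rw [Matrix.sub_apply, hA i j hij, hB i j hij, sub_zero]

theorem Fil.pow {a : ℕ} {A : Matrix (Fin n) (Fin n) ℤ} (hA : Fil a A) (k : ℕ) :
    Fil (k * a) (A ^ k) := by
  induction k with
  | zero =>
    intro i j hij
    rw [pow_zero, Matrix.one_apply_ne]
    intro h
    subst h
    omega
  | succ k ih =>
    rw [pow_succ, Nat.succ_mul]
    exact ih.mul hA

theorem Fil_of_uni {A : Matrix (Fin n) (Fin n) ℤ} (hA : IsUnitriangular A) : Fil 1 (A - 1) := by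
  intro i j hij
  rcases lt_or_eq_of_le (show j ≤ i from by rw [Fin.le_def]; omega) with h | h
  · rw [Matrix.sub_apply, hA.2 i j h, Matrix.one_apply_ne h.ne', sub_zero]
  · subst h
    rw [Matrix.sub_apply, hA.1, Matrix.one_apply_eq, sub_self]

/-- the entry on the second superdiagonal of a product -/
theorem mul_second {A B : Matrix (Fin n) (Fin n) ℤ} (hA : Fil 1 A) (hB : Fil 1 B)
    {i k j : Fin n} (hik : k.val = i.val + 1) (hkj : j.val = k.val + 1) :
    (A * B) i j = A i k * B k j := by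
  rw [Matrix.mul_apply, Finset.sum_eq_single k]
  · intro l _ hl
    by_cases h : l.val < i.val + 1
    · rw [hA i l h, zero_mul]
    · have : l.val ≠ k.val := fun h' => hl (Fin.ext h')
      rw [hB l j (by omega), mul_zero]
  · simp

/-- The commutator identity modulo the third superdiagonal: if `A B = W B A` in `UT_n`, then
`W - 1` vanishes on the first superdiagonal, and on the second it is `a b' - b a'`. -/
theorem comm_second {A B W : Matrix (Fin n) (Fin n) ℤ} (hA : IsUnitriangular A)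
    (hB : IsUnitriangular B) (hW : IsUnitriangular W) (h : A * B = W * (B * A)) :
    Fil 2 (W - 1) ∧ ∀ i k j : Fin n, k.val = i.val + 1 → j.val = k.val + 1 →
      (W - 1) i j = A i k * B k j - B i k * A k j := by
  set α := A - 1 with hα
  set β := B - 1 with hβ
  set ω := W - 1 with hω
  have hα1 : Fil 1 α := Fil_of_uni hA
  have hβ1 : Fil 1 β := Fil_of_uni hB
  have hω1 : Fil 1 ω := Fil_of_uni hW
  have eA : A = 1 + α := by rw [hα]; abel
  have eB : B = 1 + β := by rw [hβ]; abel
  have eW : W = 1 + ω := by rw [hω]; abel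
  have key : ω = (α * β - β * α) - ω * (α + β + β * α) := by
    rw [eA, eB, eW] at h
    have h2 : (1 + α) * (1 + β) - (1 + ω) * ((1 + β) * (1 + α)) = 0 := by rw [h, sub_self]
    have h3 : (1 + α) * (1 + β) - (1 + ω) * ((1 + β) * (1 + α)) =
        (α * β - β * α) - ω * (α + β + β * α) - ω := by noncomm_ring
    rw [h3] at h2
    exact (sub_eq_zero.mp h2).symm
  have hs : Fil 1 (α + β + β * α) := (hα1.add hβ1).add ((hβ1.mul hα1).mono (by omega))
  have hω2 : Fil 2 ω := by
    rw [key]
    exact ((hα1.mul hβ1).sub (hβ1.mul hα1)).sub (hω1.mul hs)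
  refine ⟨hω2, fun i k j hik hkj => ?_⟩
  have hω3 : Fil 3 (ω * (α + β + β * α)) := hω2.mul hs
  have e1 : ∀ p q : Fin n, q.val = p.val + 1 → α p q = A p q := by
    intro p q hpq
    rw [hα, Matrix.sub_apply, Matrix.one_apply_ne, sub_zero]
    intro h'; subst h'; omega
  have e2 : ∀ p q : Fin n, q.val = p.val + 1 → β p q = B p q := by
    intro p q hpq
    rw [hβ, Matrix.sub_apply, Matrix.one_apply_ne, sub_zero]
    intro h'; subst h'; omega
  rw [key, Matrix.sub_apply, Matrix.sub_apply, hω3 i j (by omega), mul_second hα1 hβ1 hik hkj,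
    mul_second hβ1 hα1 hik hkj, sub_zero, e1 i k hik, e2 k j hkj, e2 i k hik, e1 k j hkj]

/-- Two pairs with the same commutator `W` and commuting with each other: `W` is in the third
term of the filtration. -/
theorem third {A₁ B₁ A₂ B₂ W : Matrix (Fin n) (Fin n) ℤ} (hA₁ : IsUnitriangular A₁)
    (hB₁ : IsUnitriangular B₁) (hA₂ : IsUnitriangular A₂) (hB₂ : IsUnitriangular B₂)
    (hW : IsUnitriangular W) (h1 : A₁ * B₁ = W * (B₁ * A₁)) (h2 : A₂ * B₂ = W * (B₂ * A₂))
    (h3 : A₁ * A₂ = A₂ * A₁) (h4 : A₁ * B₂ = B₂ * A₁) (h5 : B₁ * A₂ = A₂ * B₁)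
    (h6 : B₁ * B₂ = B₂ * B₁) : Fil 3 (W - 1) := by
  have one : IsUnitriangular (1 : Matrix (Fin n) (Fin n) ℤ) :=
    ⟨fun i => Matrix.one_apply_eq i, fun i j h => Matrix.one_apply_ne h.ne'⟩
  have c1 := comm_second hA₁ hB₁ hW h1
  have c2 := comm_second hA₂ hB₂ hW h2
  have c3 := (comm_second hA₁ hA₂ one (by rw [one_mul, h3])).2
  have c4 := (comm_second hA₁ hB₂ one (by rw [one_mul, h4])).2
  have c5 := (comm_second hB₁ hA₂ one (by rw [one_mul, h5])).2
  have c6 := (comm_second hB₁ hB₂ one (by rw [one_mul, h6])).2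
  intro i j hij
  rcases Nat.lt_or_ge j.val (i.val + 2) with h | h
  · exact c1.1 i j h
  · have hj : j.val = i.val + 2 := by omega
    set k : Fin n := ⟨i.val + 1, by have := j.isLt; omega⟩ with hk
    have hik : k.val = i.val + 1 := rfl
    have hkj : j.val = k.val + 1 := by simp only [hk]; omega
    have d1 := c1.2 i k j hik hkj
    have d2 := c2.2 i k j hik hkj
    have d3 := c3 i k j hik hkj
    have d4 := c4 i k j hik hkj
    have d5 := c5 i k j hik hkj
    have d6 := c6 i k j hik hkj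
    simp only [sub_self, Matrix.zero_apply] at d3 d4 d5 d6
    have hsq : (W - 1) i j * (W - 1) i j = 0 := by
      nth_rw 1 [d1]
      rw [d2]
      -- Pluecker relation
      have : (A₁ i k * B₁ k j - B₁ i k * A₁ k j) * (A₂ i k * B₂ k j - B₂ i k * A₂ k j) =
          (A₁ i k * A₂ k j - A₂ i k * A₁ k j) * (B₁ i k * B₂ k j - B₂ i k * B₁ k j) -
          (A₁ i k * B₂ k j - B₂ i k * A₁ k j) * (B₁ i k * A₂ k j - A₂ i k * B₁ k j) := by ring
      rw [this, ← d3, ← d4]
      ring
    exact mul_self_eq_zero.mp hsq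

/-- entries of the powers of a matrix in the third term of the filtration -/
theorem pow_entries {W : Matrix (Fin n) (Fin n) ℤ} (h : Fil 3 (W - 1)) :
    ∃ K : ℕ, 1 ≤ K ∧ ∀ r : ℕ, 1 ≤ r → ∀ i j : Fin n, i < j →
      ((W ^ (r ^ 3)) i j).natAbs ≤ (K * r) ^ (j.val - i.val) := by
  classical
  set N := W - 1 with hN
  have hW : W = N + 1 := by rw [hN]; abel
  set M : ℕ := ∑ k ∈ Finset.range (n + 1), ∑ i : Fin n, ∑ j : Fin n, ((N ^ k) i j).natAbs with hM
  have hMb : ∀ k ≤ n, ∀ i j : Fin n, ((N ^ k) i j).natAbs ≤ M := by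
    intro k hk i j
    rw [hM]
    refine le_trans ?_ (Finset.single_le_sum (f := fun k => ∑ i : Fin n, ∑ j : Fin n,
      ((N ^ k) i j).natAbs) (fun _ _ => Nat.zero_le _) (Finset.mem_range.mpr (Nat.lt_succ_of_le hk)))
    refine le_trans ?_ (Finset.single_le_sum (f := fun i => ∑ j : Fin n,
      ((N ^ k) i j).natAbs) (fun _ _ => Nat.zero_le _) (Finset.mem_univ i))
    exact Finset.single_le_sum (f := fun j => ((N ^ k) i j).natAbs)
      (fun _ _ => Nat.zero_le _) (Finset.mem_univ j)
  refine ⟨(n + 1) * M + 1, by omega, fun r hr i j hij => ?_⟩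
  have hij' : i.val < j.val := hij
  have hexp : W ^ (r ^ 3) = ∑ k ∈ Finset.range (r ^ 3 + 1), (r ^ 3).choose k • N ^ k := by
    rw [hW, (Commute.one_right N).add_pow]
    apply Finset.sum_congr rfl
    intro k _
    rw [one_pow, mul_one, nsmul_eq_mul']
  have hsum : ((W ^ (r ^ 3)) i j).natAbs ≤
      ∑ k ∈ Finset.range (r ^ 3 + 1), (r ^ 3).choose k * ((N ^ k) i j).natAbs := by
    rw [hexp, Matrix.sum_apply]
    refine (Int.natAbs_sum_le _ _).trans (le_of_eq ?_)
    apply Finset.sum_congr rfl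
    intro k _
    rw [Matrix.smul_apply, nsmul_eq_mul, Int.natAbs_mul, Int.natAbs_natCast]
  have hterm : ∀ k ∈ Finset.range (r ^ 3 + 1), (r ^ 3).choose k * ((N ^ k) i j).natAbs ≤
      if k < n + 1 then M * r ^ (j.val - i.val) else 0 := by
    intro k _
    by_cases hk : j.val < i.val + k * 3
    · rw [(h.pow k) i j hk]
      simp
    · have hkn : k < n + 1 := by have := j.isLt; omega
      rw [if_pos hkn]
      have h1 : (r ^ 3).choose k ≤ (r ^ 3) ^ k := Nat.choose_le_pow _ _
      have h2 : (r ^ 3) ^ k ≤ r ^ (j.val - i.val) := by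
        rw [← pow_mul]
        exact Nat.pow_le_pow_right hr (by omega)
      have h3 := hMb k (by omega) i j
      calc (r ^ 3).choose k * ((N ^ k) i j).natAbs ≤ r ^ (j.val - i.val) * M :=
            Nat.mul_le_mul (h1.trans h2) h3
        _ = M * r ^ (j.val - i.val) := mul_comm _ _
  have htot : ∑ k ∈ Finset.range (r ^ 3 + 1), (if k < n + 1 then M * r ^ (j.val - i.val) else 0) ≤
      (n + 1) * (M * r ^ (j.val - i.val)) := by
    rw [← Finset.sum_filter, Finset.sum_const, smul_eq_mul]
    apply Nat.mul_le_mul_right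
    calc (Finset.filter (fun k => k < n + 1) (Finset.range (r ^ 3 + 1))).card
        ≤ (Finset.range (n + 1)).card := Finset.card_le_card (by
          intro k hk
          rw [Finset.mem_filter] at hk
          exact Finset.mem_range.mpr hk.2)
      _ = n + 1 := Finset.card_range _
  have hfin : (n + 1) * (M * r ^ (j.val - i.val)) ≤ (((n + 1) * M + 1) * r) ^ (j.val - i.val) := by
    rw [mul_pow, ← mul_assoc]
    apply Nat.mul_le_mul_right
    calc (n + 1) * M ≤ (n + 1) * M + 1 := Nat.le_succ _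
      _ = ((n + 1) * M + 1) ^ 1 := (pow_one _).symm
      _ ≤ ((n + 1) * M + 1) ^ (j.val - i.val) := Nat.pow_le_pow_right (by omega) (by omega)
  exact hsum.trans ((Finset.sum_le_sum hterm).trans (htot.trans hfin))

end Q29.TD
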