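import Pool.Agent.Q29.TD.Fil

/-!
# The integer Heisenberg groups
-/

namespace Q29.TD

namespace Heis

variable {k : ℕ}

theorem mul_a (x y : Heis k) : (x * y).a = x.a + y.a := rfl
theorem mul_b (x y : Heis k) : (x * y).b = x.b + y.b := rfl
theorem mul_c (x y : Heis k) : (x * y).c = x.c + y.c + ∑ i, x.a i * y.b i := rfl
theorem one_a : (1 : Heis k).a = 0 := rfl
theorem one_b : (1 : Heis k).b = 0 := rfl
theorem one_c : (1 : Heis k).c = 0 := rfl
theorem inv_a (x : Heis k) : (x⁻¹).a = -x.a := rfl
theorem inv_b (x : Heis k) : (x⁻¹).b = -x.b := rfl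
theorem inv_c (x : Heis k) : (x⁻¹).c = -x.c + ∑ i, x.a i * x.b i := rfl

/-- the hom onto the abelianization modulo the center -/
def pr (k : ℕ) : Heis k →* Multiplicative ((Fin k → ℤ) × (Fin k → ℤ)) where
  toFun x := Multiplicative.ofAdd (x.a, x.b)
  map_one' := rfl
  map_mul' _ _ := rfl

theorem nilp (k : ℕ) : Group.IsNilpotent (Heis k) := by
  refine Subgroup.isNilpotent_of_ker_le_center (pr k) ?_
  · intro x hx
    rw [MonoidHom.mem_ker] at hx
    have h1 : (x.a, x.b) = (0, 0) := Multiplicative.ofAdd.injective hx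
    obtain ⟨ha, hb⟩ := Prod.ext_iff.mp h1
    simp only at ha hb
    rw [Subgroup.mem_center_iff]
    intro y
    apply Heis.ext
    · rw [mul_a, mul_a, add_comm]
    · rw [mul_b, mul_b, add_comm]
    · rw [mul_c, mul_c, ha, hb]
      simp [add_comm]

theorem pow_a (x : Heis k) (n : ℕ) : (x ^ n).a = n • x.a := by
  induction n with
  | zero => simp [one_a]
  | succ n ih => rw [pow_succ, mul_a, ih, succ_nsmul]

theorem pow_b (x : Heis k) (n : ℕ) : (x ^ n).b = n • x.b := by
  induction n with
  | zero => simp [one_b]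
  | succ n ih => rw [pow_succ, mul_b, ih, succ_nsmul]

theorem pow_c (x : Heis k) (hx : x.a = 0) (n : ℕ) : (x ^ n).c = n * x.c := by
  induction n with
  | zero => simp [one_c]
  | succ n ih =>
    rw [pow_succ, mul_c, ih, pow_a, hx]
    simp
    ring

theorem torsionFree (g : Heis k) (hg : g ≠ 1) (n : ℕ) (hn : 0 < n) : g ^ n ≠ 1 := by
  intro h
  apply hg
  have hn' : (n : ℤ) ≠ 0 := by exact_mod_cast hn.ne'
  have ha : g.a = 0 := by
    have h1 := pow_a g n
    rw [h, one_a] at h1
    funext i
    have := congrFun h1.symm i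
    simp only [Pi.smul_apply, Pi.zero_apply, nsmul_eq_mul, mul_eq_zero] at this
    exact this.resolve_left hn'
  have hb : g.b = 0 := by
    have h1 := pow_b g n
    rw [h, one_b] at h1
    funext i
    have := congrFun h1.symm i
    simp only [Pi.smul_apply, Pi.zero_apply, nsmul_eq_mul, mul_eq_zero] at this
    exact this.resolve_left hn'
  have hc : g.c = 0 := by
    have h1 := pow_c g ha n
    rw [h, one_c] at h1
    exact (mul_eq_zero.mp h1.symm).resolve_left hn'
  exact Heis.ext ha hb hc

/-- first block -/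
def inA (k : ℕ) : Multiplicative (Fin k → ℤ) →* Heis k where
  toFun x := ⟨x.toAdd, 0, 0⟩
  map_one' := rfl
  map_mul' x y := by
    apply Heis.ext
    · rfl
    · rw [mul_b]; simp
    · rw [mul_c]; simp

/-- second block -/
def inB (k : ℕ) : Multiplicative (Fin k → ℤ) →* Heis k where
  toFun x := ⟨0, x.toAdd, 0⟩
  map_one' := rfl
  map_mul' x y := by
    apply Heis.ext
    · rw [mul_a]; simp
    · rfl
    · rw [mul_c]; simp

/-- center -/
def inC (k : ℕ) : Multiplicative ℤ →* Heis k where
  toFun x := ⟨0, 0, x.toAdd⟩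
  map_one' := rfl
  map_mul' x y := by
    apply Heis.ext
    · rw [mul_a]; simp
    · rw [mul_b]; simp
    · rw [mul_c]; simp

theorem fg (k : ℕ) : Group.FG (Heis k) := by
  have h1 : Group.FG (Multiplicative (Fin k → ℤ)) := inferInstance
  have h2 : Group.FG (Multiplicative ℤ) := inferInstance
  have hA : (inA k).range.FG := (Group.fg_iff_subgroup_fg _).mp inferInstance
  have hB : (inB k).range.FG := (Group.fg_iff_subgroup_fg _).mp inferInstance
  have hC : (inC k).range.FG := (Group.fg_iff_subgroup_fg _).mp inferInstance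
  rw [Group.fg_def]
  have htop : (⊤ : Subgroup (Heis k)) = ((inB k).range ⊔ (inA k).range) ⊔ (inC k).range := by
    symm
    rw [eq_top_iff]
    intro x _
    have hx : x = inB k (Multiplicative.ofAdd x.b) * inA k (Multiplicative.ofAdd x.a) *
        inC k (Multiplicative.ofAdd x.c) := by
      apply Heis.ext
      · rw [mul_a, mul_a]; simp [inA, inB, inC]
      · rw [mul_b, mul_b]; simp [inA, inB, inC]
      · rw [mul_c, mul_c]; simp [inA, inB, inC]
    rw [hx]
    exact mul_mem (Subgroup.mem_sup_left (mul_mem (Subgroup.mem_sup_left ⟨_, rfl⟩)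
      (Subgroup.mem_sup_right ⟨_, rfl⟩))) (Subgroup.mem_sup_right ⟨_, rfl⟩)
  rw [htop]
  exact (hB.sup hA).sup hC

theorem isTau (k : ℕ) : IsTauGroup (Heis k) :=
  ⟨fg k, nilp k, fun g hg n hn => torsionFree g hg n hn⟩

/-- size of the abelian part -/
def N1 (x : Heis k) : ℕ := ∑ i, (x.a i).natAbs + ∑ i, (x.b i).natAbs

theorem N1_mul (x y : Heis k) : N1 (x * y) ≤ N1 x + N1 y := by
  have h1 : ∑ i, ((x * y).a i).natAbs ≤ ∑ i, (x.a i).natAbs + ∑ i, (y.a i).natAbs := by
    rw [← Finset.sum_add_distrib]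
    exact Finset.sum_le_sum fun i _ => Int.natAbs_add_le _ _
  have h2 : ∑ i, ((x * y).b i).natAbs ≤ ∑ i, (x.b i).natAbs + ∑ i, (y.b i).natAbs := by
    rw [← Finset.sum_add_distrib]
    exact Finset.sum_le_sum fun i _ => Int.natAbs_add_le _ _
  simp only [N1]
  omega

theorem N1_inv (x : Heis k) : N1 x⁻¹ = N1 x := by
  simp [N1, inv_a, inv_b]

theorem c_mul (x y : Heis k) : ((x * y).c).natAbs ≤ x.c.natAbs + y.c.natAbs + N1 x * N1 y := by
  rw [mul_c]
  have h1 := Int.natAbs_add_le (x.c + y.c) (∑ i, x.a i * y.b i)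
  have h2 := Int.natAbs_add_le x.c y.c
  have h3 : (∑ i, x.a i * y.b i).natAbs ≤ N1 x * N1 y := by
    refine (Int.natAbs_sum_le _ _).trans ?_
    calc ∑ i, (x.a i * y.b i).natAbs = ∑ i, (x.a i).natAbs * (y.b i).natAbs := by
          simp [Int.natAbs_mul]
      _ ≤ ∑ i, (x.a i).natAbs * N1 y := by
          apply Finset.sum_le_sum
          intro i _
          apply Nat.mul_le_mul_left
          have := Finset.single_le_sum (f := fun i => (y.b i).natAbs) (fun _ _ => Nat.zero_le _)
            (Finset.mem_univ i)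
          simp only [N1]
          omega
      _ = (∑ i, (x.a i).natAbs) * N1 y := by rw [Finset.sum_mul]
      _ ≤ N1 x * N1 y := Nat.mul_le_mul_right _ (by simp [N1])
  omega

/-- words of length `L` have central coordinate `O(L²)` -/
theorem word_c {M : ℕ} (l : List (Heis k)) (hl : ∀ x ∈ l, N1 x ≤ M ∧ x.c.natAbs ≤ M) :
    N1 l.prod ≤ M * l.length ∧ (l.prod.c).natAbs ≤ (M + M * M) * (l.length * l.length) := by
  induction l with
  | nil => simp [N1, one_a, one_b, one_c]
  | cons x l ih =>
    obtain ⟨h1, h2⟩ := ih fun y hy => hl y (by simp [hy])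
    obtain ⟨h3, h4⟩ := hl x (by simp)
    rw [List.prod_cons, List.length_cons]
    have h5 := N1_mul x l.prod
    have h6 := c_mul x l.prod
    have h7 : N1 x * N1 l.prod ≤ M * (M * l.length) := Nat.mul_le_mul h3 h1
    constructor
    · calc N1 (x * l.prod) ≤ M + M * l.length := by omega
        _ = M * (l.length + 1) := by ring
    · calc ((x * l.prod).c).natAbs
          ≤ M + (M + M * M) * (l.length * l.length) + M * (M * l.length) := by omega
        _ ≤ (M + M * M) * ((l.length + 1) * (l.length + 1)) := by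
          nlinarith [Nat.zero_le (M * l.length), Nat.zero_le (M * M * l.length), Nat.zero_le (M*M)]

end Heis

end Q29.TD
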