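import Pool.Agent.Q29.TD.Defs

/-!
# Word length: elementary facts
-/

namespace Q29.TD

variable {G : Type*} [Group G]

theorem wordLen_le {S : Set G} (l : List G) (hl : ∀ x ∈ l, x ∈ S ∨ x⁻¹ ∈ S) :
    wordLen S l.prod ≤ l.length :=
  Nat.sInf_le ⟨l, rfl, hl, rfl⟩

theorem exists_word {S : Set G} (hS : Subgroup.closure S = ⊤) (g : G) :
    ∃ l : List G, l.length = wordLen S g ∧ (∀ x ∈ l, x ∈ S ∨ x⁻¹ ∈ S) ∧ l.prod = g := by
  have hne : {n : ℕ | ∃ l : List G, l.length = n ∧ (∀ x ∈ l, x ∈ S ∨ x⁻¹ ∈ S) ∧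
      l.prod = g}.Nonempty := by
    have hg : g ∈ Subgroup.closure S := hS ▸ Subgroup.mem_top g
    rw [← Subgroup.mem_toSubmonoid, Subgroup.closure_toSubmonoid] at hg
    obtain ⟨l, hl, hp⟩ := Submonoid.exists_list_of_mem_closure hg
    exact ⟨l.length, l, rfl, fun x hx => by simpa using hl x hx, hp⟩
  exact Nat.sInf_mem hne

theorem wordLen_one (S : Set G) : wordLen S 1 = 0 := by
  have := wordLen_le (S := S) [] (by simp)
  simpa using this

theorem wordLen_mul {S : Set G} (hS : Subgroup.closure S = ⊤) (g h : G) :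
    wordLen S (g * h) ≤ wordLen S g + wordLen S h := by
  obtain ⟨l, hl, hs, rfl⟩ := exists_word hS g
  obtain ⟨l', hl', hs', rfl⟩ := exists_word hS h
  rw [← hl, ← hl', ← List.prod_append, ← List.length_append]
  apply wordLen_le
  intro x hx
  rw [List.mem_append] at hx
  exact hx.elim (hs x) (hs' x)

theorem wordLen_inv_le {S : Set G} (hS : Subgroup.closure S = ⊤) (g : G) :
    wordLen S g⁻¹ ≤ wordLen S g := by
  obtain ⟨l, hl, hs, rfl⟩ := exists_word hS g
  rw [← hl, List.prod_inv_reverse]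
  refine (wordLen_le _ ?_).trans (by simp)
  intro x hx
  simp only [List.mem_reverse, List.mem_map] at hx
  obtain ⟨y, hy, rfl⟩ := hx
  rw [inv_inv]
  exact (hs y hy).symm

theorem wordLen_inv {S : Set G} (hS : Subgroup.closure S = ⊤) (g : G) :
    wordLen S g⁻¹ = wordLen S g := by
  apply le_antisymm (wordLen_inv_le hS g)
  have := wordLen_inv_le hS g⁻¹
  rwa [inv_inv] at this

theorem wordLen_pow {S : Set G} (hS : Subgroup.closure S = ⊤) (g : G) (m : ℕ) :
    wordLen S (g ^ m) ≤ m * wordLen S g := by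
  induction m with
  | zero => simp [wordLen_one]
  | succ m ih =>
    rw [pow_succ]
    have := wordLen_mul hS (g ^ m) g
    linarith [this, ih, Nat.succ_mul m (wordLen S g)]

theorem wordLen_comm {S : Set G} (hS : Subgroup.closure S = ⊤) (g h : G) :
    wordLen S (g * h * g⁻¹ * h⁻¹) ≤ 2 * wordLen S g + 2 * wordLen S h := by
  have h1 := wordLen_mul hS (g * h * g⁻¹) h⁻¹
  have h2 := wordLen_mul hS (g * h) g⁻¹
  have h3 := wordLen_mul hS g h
  rw [wordLen_inv hS] at h1 h2
  omega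

end Q29.TD
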