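import Pool.Agent.Q29.TD.Heis

/-!
# No undistorted embedding of the Heisenberg groups of dimension at least five
-/

namespace Q29.TD

open Heis

/-- words in a finite subset of a group isomorphic to the Heisenberg group -/
theorem len_c {k : ℕ} {H : Type*} [Group H] (ψ : H ≃* Heis k) (S : Finset H)
    (hS : Subgroup.closure (S : Set H) = ⊤) :
    ∃ Q : ℕ, ∀ h : H, ((ψ h).c).natAbs ≤ Q * (wordLen (S : Set H) h * wordLen (S : Set H) h) := by
  classical
  set M : ℕ := ∑ s ∈ S, (N1 (ψ s) + (ψ s).c.natAbs + ((ψ s)⁻¹).c.natAbs) with hM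
  have hb : ∀ s ∈ S, N1 (ψ s) + (ψ s).c.natAbs + ((ψ s)⁻¹).c.natAbs ≤ M := fun s hs =>
    Finset.single_le_sum (f := fun s => N1 (ψ s) + (ψ s).c.natAbs + ((ψ s)⁻¹).c.natAbs)
      (fun _ _ => Nat.zero_le _) hs
  refine ⟨M + M * M, fun h => ?_⟩
  obtain ⟨l, hl, hs, rfl⟩ := exists_word hS h
  have h1 := word_c (M := M) (l.map ψ) (by
    intro x hx
    rw [List.mem_map] at hx
    obtain ⟨y, hy, rfl⟩ := hx
    rcases hs y hy with h | h
    · have := hb y h
      exact ⟨by omega, by omega⟩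
    · have := hb y⁻¹ h
      rw [map_inv, N1_inv, inv_inv] at this
      exact ⟨by omega, by omega⟩)
  rw [← map_list_prod, List.length_map, hl] at h1
  exact h1.2

theorem not_undistorted {k : ℕ} (hk : 2 ≤ k) (n : ℕ) (φ : Heis k →* UT n)
    (hφ : Function.Injective φ) : ¬ IsUndistorted φ.range := by
  classical
  rintro ⟨S, T, hS, hT, C, hC1, hC⟩
  -- the generators
  set i0 : Fin k := ⟨0, by omega⟩ with hi0
  set i1 : Fin k := ⟨1, by omega⟩ with hi1
  have h01 : i0 ≠ i1 := by simp [hi0, hi1, Fin.ext_iff]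
  set z : Heis k := ⟨0, 0, 1⟩ with hz
  let x : Fin k → Heis k := fun i => ⟨Pi.single i 1, 0, 0⟩
  let y : Fin k → Heis k := fun i => ⟨0, Pi.single i 1, 0⟩
  have hxy : ∀ i, x i * y i = z * (y i * x i) := by
    intro i
    apply Heis.ext
    · simp only [mul_a, x, y, hz]; simp
    · simp only [mul_b, x, y, hz]; simp
    · simp only [mul_c, mul_b, x, y, hz]
      simp [Pi.single_apply]
  have hxx : x i0 * x i1 = x i1 * x i0 := by
    apply Heis.ext
    · simp only [mul_a, x]; rw [add_comm]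
    · simp only [mul_b, x]
    · simp only [mul_c, x]
      simp
  have hyy : y i0 * y i1 = y i1 * y i0 := by
    apply Heis.ext
    · simp only [mul_a, y]
    · simp only [mul_b, y]; rw [add_comm]
    · simp only [mul_c, y]
      simp
  have hxy01 : x i0 * y i1 = y i1 * x i0 := by
    apply Heis.ext
    · simp only [mul_a, x, y]; simp
    · simp only [mul_b, x, y]; simp
    · simp only [mul_c, x, y]
      simp [Pi.single_apply, h01.symm]
  have hyx01 : y i0 * x i1 = x i1 * y i0 := by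
    apply Heis.ext
    · simp only [mul_a, x, y]; simp
    · simp only [mul_b, x, y]; simp
    · simp only [mul_c, x, y]
      simp [Pi.single_apply, h01]
  -- images
  let F : Heis k → Matrix (Fin n) (Fin n) ℤ := fun g =>
    ((φ g : (Matrix (Fin n) (Fin n) ℤ)ˣ) : Matrix (Fin n) (Fin n) ℤ)
  have hF : ∀ g h, F (g * h) = F g * F h := by
    intro g h
    simp only [F, map_mul, Subgroup.coe_mul, Units.val_mul]
  have hFu : ∀ g, IsUnitriangular (F g) := fun g => (φ g).2
  have h3 : Fil 3 (F z - 1) := by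
    apply third (hFu (x i0)) (hFu (y i0)) (hFu (x i1)) (hFu (y i1)) (hFu z)
    · rw [← hF, ← hF, ← hF, hxy]
    · rw [← hF, ← hF, ← hF, hxy]
    · rw [← hF, ← hF, hxx]
    · rw [← hF, ← hF, hxy01]
    · rw [← hF, ← hF, hyx01]
    · rw [← hF, ← hF, hyy]
  obtain ⟨K, hK1, hK⟩ := pow_entries h3
  obtain ⟨D, hD⟩ := len_UT (T := (T : Set (UT n))) hT
  -- upper bound for the lengths in `UT n`
  have hup : ∀ r : ℕ, 1 ≤ r → wordLen (T : Set (UT n)) (φ (z ^ (r ^ 3))) ≤ D * (K * r) := by
    intro r hr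
    apply hD _ _ (Nat.mul_pos hK1 hr)
    intro i j hij
    have : ((φ (z ^ (r ^ 3)) : (Matrix (Fin n) (Fin n) ℤ)ˣ) : Matrix (Fin n) (Fin n) ℤ) =
        F z ^ (r ^ 3) := by
      simp only [F, map_pow, Subgroup.coe_pow, Units.val_pow_eq_pow_val]
    rw [this]
    exact hK r hr i j hij
  -- lower bound in the range
  let ψ : φ.range ≃* Heis k := (MonoidHom.ofInjective hφ).symm
  obtain ⟨Q, hQ⟩ := len_c ψ S hS
  obtain ⟨C', hC'⟩ := exists_nat_ge C
  have hlow : ∀ r : ℕ, 1 ≤ r → r ^ 3 ≤ Q * ((C' * (D * K) + C') * r * ((C' * (D * K) + C') * r)) := by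
    intro r hr
    set h : φ.range := MonoidHom.ofInjective hφ (z ^ (r ^ 3)) with hh
    have h1 : ψ h = z ^ (r ^ 3) := by simp [ψ, hh]
    have h2 : ((h : UT n)) = φ (z ^ (r ^ 3)) := rfl
    have h4 := hQ h
    rw [h1, pow_c z rfl] at h4
    have h5 := hC h
    rw [h2] at h5
    have h6 : (wordLen (S : Set φ.range) h : ℝ) ≤ (((C' * (D * K) + C') * r : ℕ) : ℝ) := by
      refine h5.trans ?_
      have h7 : (wordLen (T : Set (UT n)) (φ (z ^ (r ^ 3))) : ℝ) ≤ ((D * (K * r) : ℕ) : ℝ) := by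
        exact_mod_cast hup r hr
      have hr' : (1 : ℝ) ≤ r := by exact_mod_cast hr
      have hC0 : (0 : ℝ) ≤ C' := by positivity
      have h8 : (0 : ℝ) ≤ (wordLen (T : Set (UT n)) (φ (z ^ (r ^ 3))) : ℝ) := by positivity
      calc C * (wordLen (T : Set (UT n)) (φ (z ^ (r ^ 3))) : ℝ) + C
          ≤ C' * ((D * (K * r) : ℕ) : ℝ) + C' * r := by
            have := mul_le_mul hC' h7 h8 hC0
            nlinarith
        _ = (((C' * (D * K) + C') * r : ℕ) : ℝ) := by push_cast; ring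
    have h9 : wordLen (S : Set φ.range) h ≤ (C' * (D * K) + C') * r := by exact_mod_cast h6
    have h10 : (((r ^ 3 : ℕ) : ℤ) * z.c).natAbs = r ^ 3 := by
      simp [hz]
    rw [h10] at h4
    exact h4.trans (Nat.mul_le_mul_left _ (Nat.mul_le_mul h9 h9))
  -- contradiction
  set B : ℕ := C' * (D * K) + C' with hB
  have hfin := hlow (Q * (B * B) + 1) (by omega)
  set r := Q * (B * B) + 1 with hr
  have h11 : Q * (B * r * (B * r)) = (Q * (B * B)) * (r * r) := by ring
  rw [h11] at hfin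
  have h12 : r ^ 3 = r * (r * r) := by ring
  rw [h12] at hfin
  have h13 : 0 < r * r := by positivity
  have h14 := Nat.le_of_mul_le_mul_right hfin h13
  omega

end Q29.TD
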