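import Pool.Agent.Q29.TD.Len

/-!
# Word length in `UT_n(ℤ)`: the upper bound
-/

namespace Q29.TD

open Matrix

variable {n : ℕ}

theorem transvection_uni {i j : Fin n} (h : i < j) (a : ℤ) :
    IsUnitriangular (transvection i j a) := by
  constructor
  · intro k
    rw [transvection, Matrix.add_apply, one_apply_eq, single_apply]
    have : ¬ (i = k ∧ j = k) := fun hh => h.ne (hh.1.trans hh.2.symm)
    simp [this]
  · intro k l hkl
    rw [transvection, Matrix.add_apply, one_apply_ne hkl.ne', single_apply]
    have : ¬ (i = k ∧ j = l) := fun hh => by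
      rw [hh.1, hh.2] at h
      exact absurd h (not_lt.mpr hkl.le)
    simp [this]

/-- the elementary unitriangular matrix, as an element of `UT n` -/
def E (i j : Fin n) (h : i < j) (a : ℤ) : UT n :=
  ⟨⟨transvection i j a, transvection i j (-a),
    by rw [transvection_mul_transvection_same _ _ h.ne]; simp,
    by rw [transvection_mul_transvection_same _ _ h.ne]; simp⟩, transvection_uni h a⟩

theorem E_val (i j : Fin n) (h : i < j) (a : ℤ) :
    (((E i j h a : UT n) : (Matrix (Fin n) (Fin n) ℤ)ˣ) : Matrix (Fin n) (Fin n) ℤ) =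
      transvection i j a := rfl

theorem UT_ext {u v : UT n}
    (h : ((u : (Matrix (Fin n) (Fin n) ℤ)ˣ) : Matrix (Fin n) (Fin n) ℤ) =
      ((v : (Matrix (Fin n) (Fin n) ℤ)ˣ) : Matrix (Fin n) (Fin n) ℤ)) : u = v :=
  Subtype.ext (Units.ext h)

theorem E_add (i j : Fin n) (h : i < j) (a b : ℤ) : E i j h (a + b) = E i j h a * E i j h b := by
  apply UT_ext
  rw [Subgroup.coe_mul, Units.val_mul, E_val, E_val, E_val, transvection_mul_transvection_same _ _ h.ne]

theorem E_zero (i j : Fin n) (h : i < j) : E i j h 0 = 1 := by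
  apply UT_ext
  rw [E_val, transvection_zero]
  rfl

theorem E_neg (i j : Fin n) (h : i < j) (a : ℤ) : E i j h (-a) = (E i j h a)⁻¹ := by
  rw [eq_inv_iff_mul_eq_one, ← E_add, neg_add_cancel, E_zero]

theorem E_nat (i j : Fin n) (h : i < j) (m : ℕ) : E i j h m = (E i j h 1) ^ m := by
  induction m with
  | zero => simp [E_zero]
  | succ m ih => rw [pow_succ, ← ih, ← E_add]; push_cast; rfl

theorem E_comm (i k j : Fin n) (h1 : i < k) (h2 : k < j) (a b : ℤ) :
    E i j (h1.trans h2) (a * b) =
      E i k h1 a * E k j h2 b * (E i k h1 a)⁻¹ * (E k j h2 b)⁻¹ := by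
  rw [eq_mul_inv_iff_mul_eq, eq_mul_inv_iff_mul_eq]
  apply UT_ext
  simp only [Subgroup.coe_mul, Units.val_mul, E_val, transvection]
  have hij : i ≠ j := (h1.trans h2).ne
  have e1 : single i j (a * b) * single k j b = (0 : Matrix (Fin n) (Fin n) ℤ) :=
    single_mul_single_of_ne _ _ _ _ h2.ne' _
  have e2 : single i j (a * b) * single i k a = (0 : Matrix (Fin n) (Fin n) ℤ) :=
    single_mul_single_of_ne _ _ _ _ hij.symm _
  have e3 : single k j b * single i k a = (0 : Matrix (Fin n) (Fin n) ℤ) :=
    single_mul_single_of_ne _ _ _ _ hij.symm _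
  have e4 : single i k a * single k j b = (single i j (a * b) : Matrix (Fin n) (Fin n) ℤ) :=
    single_mul_single_same _ _ _ _ _
  simp only [add_mul, mul_add, one_mul, mul_one, e1, e2, e3, e4, add_zero]
  abel

section Bound

variable {T : Set (UT n)} (hT : Subgroup.closure T = ⊤)
include hT

/-- the word length of an elementary matrix on the first superdiagonal -/
theorem len_super {C : ℕ} (i j : Fin n) (h : i < j) (hC : wordLen T (E i j h 1) ≤ C) (a : ℤ) :
    wordLen T (E i j h a) ≤ C * a.natAbs := by
  have key : ∀ m : ℕ, wordLen T (E i j h m) ≤ C * m := by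
    intro m
    rw [E_nat]
    calc wordLen T (E i j h 1 ^ m) ≤ m * wordLen T (E i j h 1) := wordLen_pow hT _ _
      _ ≤ m * C := Nat.mul_le_mul_left _ hC
      _ = C * m := mul_comm _ _
  rcases Int.natAbs_eq a with h1 | h1
  · rw [h1, Int.natAbs_natCast]
    exact key _
  · rw [h1, E_neg, wordLen_inv hT, Int.natAbs_neg, Int.natAbs_natCast]
    exact key _

theorem len_E {C : ℕ} (hC : ∀ (i j : Fin n) (h : i < j), j.val = i.val + 1 →
      wordLen T (E i j h 1) ≤ C) :
    ∀ d : ℕ, ∃ D : ℕ, ∀ (i j : Fin n) (h : i < j), j.val = i.val + (d + 1) →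
      ∀ (R : ℕ), 1 ≤ R → ∀ a : ℤ, a.natAbs ≤ R ^ (d + 1) → wordLen T (E i j h a) ≤ D * R := by
  intro d
  induction d with
  | zero =>
    refine ⟨C, fun i j h hij R hR a ha => ?_⟩
    refine (len_super hT i j h (hC i j h (by omega)) a).trans ?_
    exact Nat.mul_le_mul_left _ (by simpa using ha)
  | succ d ih =>
    obtain ⟨D, hD⟩ := ih
    refine ⟨4 * D + 4 * C, fun i j h hij R hR a ha => ?_⟩
    set k : Fin n := ⟨i.val + (d + 1), by omega⟩ with hk
    have hik : i < k := by rw [Fin.lt_def]; simp only [hk]; omega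
    have hkj : k < j := by rw [Fin.lt_def]; simp only [hk]; omega
    have hR0 : (0 : ℤ) < R := by exact_mod_cast hR
    -- lengths on the last superdiagonal
    have hlast : ∀ b : ℤ, b.natAbs ≤ R → wordLen T (E k j hkj b) ≤ C * R := by
      intro b hb
      refine (len_super hT k j hkj (hC k j hkj (by simp only [hk]; omega)) b).trans ?_
      exact Nat.mul_le_mul_left _ hb
    have hprev : ∀ b : ℤ, b.natAbs ≤ R ^ (d + 1) → wordLen T (E i k hik b) ≤ D * R :=
      fun b hb => hD i k hik (by simp [hk]) R hR b hb
    have hprod : ∀ x y : ℤ, x.natAbs ≤ R ^ (d + 1) → y.natAbs ≤ R →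
        wordLen T (E i j h (x * y)) ≤ (2 * D + 2 * C) * R := by
      intro x y hx hy
      rw [E_comm i k j hik hkj]
      refine (wordLen_comm hT _ _).trans ?_
      have := hprev x hx
      have := hlast y hy
      nlinarith
    -- division with remainder, truncated
    have hdecomp : a = (a.tdiv R) * R + 1 * (a.tmod R) := by
      have := Int.mul_tdiv_add_tmod a R
      linarith
    have hq : (a.tdiv R).natAbs ≤ R ^ (d + 1) := by
      rw [Int.natAbs_tdiv, Int.natAbs_natCast]
      calc a.natAbs / R ≤ R ^ (d + 1 + 1) / R := Nat.div_le_div_right ha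
        _ = R ^ (d + 1) := by rw [pow_succ _ (d + 1)]; exact Nat.mul_div_cancel _ (by omega)
    have hr : (a.tmod R).natAbs ≤ R := by
      rw [Int.natAbs_tmod, Int.natAbs_natCast]
      exact (Nat.mod_lt _ (by omega)).le
    have h1 := hprod (a.tdiv R) R hq (by simp)
    have h2 := hprod 1 (a.tmod R) (by simpa using Nat.one_le_pow _ _ hR) hr
    rw [hdecomp, E_add]
    refine (wordLen_mul hT _ _).trans ?_
    nlinarith

/-- uniform bound for all elementary matrices -/
theorem len_E_all : ∃ D : ℕ, ∀ (i j : Fin n) (h : i < j) (R : ℕ), 1 ≤ R → ∀ a : ℤ,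
    a.natAbs ≤ R ^ (j.val - i.val) → wordLen T (E i j h a) ≤ D * R := by
  classical
  obtain ⟨C, hC⟩ : ∃ C : ℕ, ∀ (i j : Fin n) (h : i < j), wordLen T (E i j h 1) ≤ C := by
    refine ⟨∑ i : Fin n, ∑ j : Fin n, if h : i < j then wordLen T (E i j h 1) else 0, ?_⟩
    intro i j h
    have h1 : wordLen T (E i j h 1) = if h : i < j then wordLen T (E i j h 1) else 0 := by
      rw [dif_pos h]
    rw [h1]
    refine le_trans ?_ (Finset.single_le_sum (f := fun i => ∑ j : Fin n,
      if h : i < j then wordLen T (E i j h 1) else 0) (fun _ _ => Nat.zero_le _)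
      (Finset.mem_univ i))
    exact Finset.single_le_sum (f := fun j => if h : i < j then wordLen T (E i j h 1) else 0)
      (fun _ _ => Nat.zero_le _) (Finset.mem_univ j)
  choose D hD using len_E hT (C := C) (fun i j h _ => hC i j h)
  refine ⟨∑ d ∈ Finset.range n, D d, fun i j h R hR a ha => ?_⟩
  have hij : i.val < j.val := h
  have h1 := hD (j.val - i.val - 1) i j h (by omega) R hR a
    (by have : j.val - i.val - 1 + 1 = j.val - i.val := by omega
        rwa [this])
  refine h1.trans (Nat.mul_le_mul_right _ ?_)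
  exact Finset.single_le_sum (fun _ _ => Nat.zero_le _)
    (Finset.mem_range.mpr (by have := j.isLt; omega))

/-- truncation of a matrix -/
def trunc (g : Matrix (Fin n) (Fin n) ℤ) (m : ℕ) (s : Finset (Fin n)) :
    Matrix (Fin n) (Fin n) ℤ :=
  fun i j => if i.val < m ∨ (i.val = m ∧ j ∈ s) then g i j else (1 : Matrix (Fin n) (Fin n) ℤ) i j

/-- **The word length in `UT_n(ℤ)`**: matrices with entries `|g i j| ≤ R^(j-i)` have length
`O(R)`. -/
theorem len_UT : ∃ D : ℕ, ∀ (g : UT n) (R : ℕ), 1 ≤ R →
    (∀ i j : Fin n, i < j →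
      (((g : (Matrix (Fin n) (Fin n) ℤ)ˣ) : Matrix (Fin n) (Fin n) ℤ) i j).natAbs ≤
        R ^ (j.val - i.val)) → wordLen T g ≤ D * R := by
  classical
  obtain ⟨D, hD⟩ := len_E_all hT
  refine ⟨n * n * D, fun g R hR hg => ?_⟩
  set A : Matrix (Fin n) (Fin n) ℤ := ((g : (Matrix (Fin n) (Fin n) ℤ)ˣ) : Matrix (Fin n) (Fin n) ℤ)
    with hA
  have hAu : IsUnitriangular A := g.2
  have step : ∀ (m : ℕ) (s : Finset (Fin n)), m ≤ n → ∃ u : UT n,
      ((u : (Matrix (Fin n) (Fin n) ℤ)ˣ) : Matrix (Fin n) (Fin n) ℤ) = trunc A m s ∧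
      wordLen T u ≤ (m * n + s.card) * (D * R) := by
    -- adding one row
    have row : ∀ (m : ℕ) (hm : m < n) (u₀ : UT n),
        ((u₀ : (Matrix (Fin n) (Fin n) ℤ)ˣ) : Matrix (Fin n) (Fin n) ℤ) = trunc A m ∅ →
        wordLen T u₀ ≤ (m * n) * (D * R) → ∀ s : Finset (Fin n), ∃ u : UT n,
        ((u : (Matrix (Fin n) (Fin n) ℤ)ˣ) : Matrix (Fin n) (Fin n) ℤ) = trunc A m s ∧
        wordLen T u ≤ (m * n + s.card) * (D * R) := by
      intro m hm u₀ hu₀ hl₀ s
      induction s using Finset.induction_on with
      | empty => exact ⟨u₀, hu₀, by simpa using hl₀⟩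
      | insert k s hk ih =>
        obtain ⟨u, hu, hl⟩ := ih
        rw [Finset.card_insert_of_notMem hk]
        set i : Fin n := ⟨m, hm⟩ with hi
        by_cases hik : i < k
        · refine ⟨E i k hik (A i k) * u, ?_, ?_⟩
          · rw [Subgroup.coe_mul, Units.val_mul, E_val, hu]
            ext p q
            by_cases hp : p = i
            · subst hp
              rw [transvection_mul_apply_same]
              have hkm : ¬ (k.val < m ∨ (k.val = m ∧ q ∈ s)) := by
                rw [Fin.lt_def] at hik
                simp only [hi] at hik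
                omega
              simp only [trunc, if_neg hkm]
              by_cases hq : q = k
              · subst hq
                have hne : ¬ (⟨m, hm⟩ : Fin n) = q := hik.ne
                simp [hi, hk, Matrix.one_apply, hne]
              · have : (q ∈ insert k s ↔ q ∈ s) := by simp [hq]
                simp only [this, Matrix.one_apply_ne (Ne.symm hq), mul_zero, add_zero]
            · rw [transvection_mul_apply_of_ne _ _ _ _ hp]
              have hp' : p.val ≠ m := fun h => hp (Fin.ext h)
              simp only [trunc, hp', false_and, or_false]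
          · refine (wordLen_mul hT _ _).trans ?_
            have := hD i k hik R hR (A i k) (hg i k hik)
            nlinarith
        · refine ⟨u, ?_, hl.trans (Nat.mul_le_mul_right _ (by omega))⟩
          rw [hu]
          ext p q
          by_cases hq : q = k
          · subst hq
            simp only [trunc]
            by_cases hp : p.val = m
            · have hpi : p = i := Fin.ext hp
              subst hpi
              rw [if_neg (by simp [hi, hk]), if_pos (by simp [hi])]
              rcases lt_or_eq_of_le (not_lt.mp hik) with h | h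
              · rw [hAu.2 _ _ h, Matrix.one_apply_ne h.ne']
              · rw [h, hAu.1, Matrix.one_apply_eq]
            · simp [hp]
          · have : (q ∈ insert k s ↔ q ∈ s) := by simp [hq]
            simp only [trunc, this]
    have base : ∀ m : ℕ, m ≤ n → ∃ u : UT n,
        ((u : (Matrix (Fin n) (Fin n) ℤ)ˣ) : Matrix (Fin n) (Fin n) ℤ) = trunc A m ∅ ∧
        wordLen T u ≤ (m * n) * (D * R) := by
      intro m
      induction m with
      | zero =>
        intro _
        refine ⟨1, ?_, by simp [wordLen_one]⟩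
        ext p q
        simp [trunc]
      | succ m ih =>
        intro hm
        obtain ⟨u₀, hu₀, hl₀⟩ := ih (by omega)
        obtain ⟨u, hu, hl⟩ := row m (by omega) u₀ hu₀ hl₀ Finset.univ
        refine ⟨u, ?_, ?_⟩
        · rw [hu]
          ext p q
          simp only [trunc, Finset.mem_univ, and_true, Finset.notMem_empty, and_false, or_false]
          by_cases h : p.val < m + 1
          · rw [if_pos h, if_pos (by omega)]
          · rw [if_neg h, if_neg (by omega)]
        · rw [Finset.card_univ, Fintype.card_fin] at hl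
          calc wordLen T u ≤ (m * n + n) * (D * R) := hl
            _ = ((m + 1) * n) * (D * R) := by ring
    intro m s hm
    rcases lt_or_eq_of_le hm with h | h
    · obtain ⟨u₀, hu₀, hl₀⟩ := base m hm
      exact row m h u₀ hu₀ hl₀ s
    · obtain ⟨u₀, hu₀, hl₀⟩ := base m hm
      refine ⟨u₀, ?_, hl₀.trans (Nat.mul_le_mul_right _ (by omega))⟩
      rw [hu₀]
      ext p q
      have := p.isLt
      simp only [trunc]
      rw [if_pos (by omega), if_pos (by omega)]
  obtain ⟨u, hu, hl⟩ := step n ∅ le_rfl
  have hug : u = g := by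
    apply UT_ext
    rw [hu, ← hA]
    ext p q
    have := p.isLt
    simp only [trunc]
    rw [if_pos (by omega)]
  rw [hug] at hl
  refine hl.trans ?_
  simp only [Finset.card_empty, add_zero]
  rw [mul_assoc (n * n)]

end Bound

end Q29.TD
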